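import Pool.Agent.Helper92.RF.Good
import Pool.Agent.Helper92.KR.Inst

/-!
# Programs with few costly accesses on the words `F w` and `y`
-/

namespace Pool.Agent.Helper92.RF

open Pool.Agent.Helper65.LinSpace Pool.Agent.Helper78.Mpc Pool.Agent.Helper28.Ram
open Pool.Agent.Helper81.Sus2 (Decomp NBM)
open Pool.Agent.Helper81.RP (Ins AcceptsAt conf bd)
open Pool.Agent.Helper92.RE (LD)
open Pool.Agent.Helper92.KR (Sim hub_nbm nilE)

theorem cost_mono (P : List Ins) (x y : List Bool) (m : ℕ) {u v t : ℕ} (h : v ≤ t) :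
    cost P x y m u v ≤ cost P x y m 0 t := by
  unfold cost
  exact Set.ncard_le_ncard (fun k hk => ⟨Nat.zero_le _, by have := hk.2.1; omega, hk.2.2⟩)
    ((Set.finite_lt_nat t).subset fun k hk => hk.2.1)

/-- The bounds. -/
theorem fast_bounds {C N N' B l l' s r m z : ℝ} (hl : 1 ≤ l) (hll : l ≤ l') (hs : 0 ≤ s)
    (hr : 0 ≤ r) (hm : 0 ≤ m) (hz : 0 ≤ z) (hN : 1 ≤ N) (hB : 1 ≤ B) (hN' : N' ≤ B * N)
    (hN0 : 1 ≤ N') (b1 : r * s * (l' + z) ^ 2 ≤ C * N' ^ ((3 : ℝ) / 2))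
    (b2 : s * (l' + z) ^ 2 ≤ C * N' ^ ((1 : ℝ) / 2)) (b3 : m * s * (l' + z) ^ 2 ≤ C * N') :
    r * s * (z + 1 + l) ^ 2 ≤ 4 * |C| * B ^ 2 * N ^ ((3 : ℝ) / 2) ∧
      s * (z + 1 + 1) * (z + 1 + l) ≤ 4 * |C| * B ^ 2 * N ^ ((1 : ℝ) / 2) ∧
      m * s * (z + 1 + l) ^ 2 ≤ 4 * |C| * B ^ 2 * N := by
  have hC : 0 ≤ |C| := abs_nonneg C
  have hp3 : N' ^ ((3 : ℝ) / 2) ≤ B ^ 2 * N ^ ((3 : ℝ) / 2) := by
    calc N' ^ ((3 : ℝ) / 2) ≤ (B * N) ^ ((3 : ℝ) / 2) :=
          Real.rpow_le_rpow (by linarith) hN' (by norm_num)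
      _ = B ^ ((3 : ℝ) / 2) * N ^ ((3 : ℝ) / 2) := Real.mul_rpow (by linarith) (by linarith)
      _ ≤ B ^ 2 * N ^ ((3 : ℝ) / 2) := by
        refine mul_le_mul_of_nonneg_right ?_ (Real.rpow_nonneg (by linarith) _)
        have := Real.rpow_le_rpow_of_exponent_le hB (by norm_num : (3 : ℝ) / 2 ≤ (2 : ℕ))
        rwa [Real.rpow_natCast] at this
  have hp1 : N' ^ ((1 : ℝ) / 2) ≤ B ^ 2 * N ^ ((1 : ℝ) / 2) := by
    calc N' ^ ((1 : ℝ) / 2) ≤ (B * N) ^ ((1 : ℝ) / 2) :=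
          Real.rpow_le_rpow (by linarith) hN' (by norm_num)
      _ = B ^ ((1 : ℝ) / 2) * N ^ ((1 : ℝ) / 2) := Real.mul_rpow (by linarith) (by linarith)
      _ ≤ B ^ 2 * N ^ ((1 : ℝ) / 2) := by
        refine mul_le_mul_of_nonneg_right ?_ (Real.rpow_nonneg (by linarith) _)
        have := Real.rpow_le_rpow_of_exponent_le hB (by norm_num : (1 : ℝ) / 2 ≤ (2 : ℕ))
        rwa [Real.rpow_natCast] at this
  have hp0 : N' ≤ B ^ 2 * N := by
    calc N' ≤ B * N := hN'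
      _ ≤ B ^ 2 * N := by
        have : B ≤ B ^ 2 := le_self_pow₀ hB (by norm_num)
        gcongr
  have f1 : z + 1 + l ≤ 2 * (l' + z) := by linarith
  have f1' : 0 ≤ z + 1 + l := by linarith
  have f2 : z + 1 + 1 ≤ 2 * (l' + z) := by linarith
  have f2' : 0 ≤ z + 1 + 1 := by linarith
  have f3 : 0 ≤ l' + z := by linarith
  have c1 : r * s * (l' + z) ^ 2 ≤ |C| * (B ^ 2 * N ^ ((3 : ℝ) / 2)) :=
    b1.trans ((mul_le_mul_of_nonneg_right (le_abs_self C) (Real.rpow_nonneg (by linarith) _)).trans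
      (mul_le_mul_of_nonneg_left hp3 hC))
  have c2 : s * (l' + z) ^ 2 ≤ |C| * (B ^ 2 * N ^ ((1 : ℝ) / 2)) :=
    b2.trans ((mul_le_mul_of_nonneg_right (le_abs_self C) (Real.rpow_nonneg (by linarith) _)).trans
      (mul_le_mul_of_nonneg_left hp1 hC))
  have c3 : m * s * (l' + z) ^ 2 ≤ |C| * (B ^ 2 * N) :=
    b3.trans ((mul_le_mul_of_nonneg_right (le_abs_self C) (by linarith)).trans
      (mul_le_mul_of_nonneg_left hp0 hC))
  refine ⟨?_, ?_, ?_⟩
  · calc r * s * (z + 1 + l) ^ 2 ≤ r * s * (2 * (l' + z)) ^ 2 := by gcongr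
      _ = 4 * (r * s * (l' + z) ^ 2) := by ring
      _ ≤ 4 * (|C| * (B ^ 2 * N ^ ((3 : ℝ) / 2))) := by gcongr
      _ = _ := by ring
  · calc s * (z + 1 + 1) * (z + 1 + l) ≤ s * (2 * (l' + z)) * (2 * (l' + z)) := by gcongr
      _ = 4 * (s * (l' + z) ^ 2) := by ring
      _ ≤ 4 * (|C| * (B ^ 2 * N ^ ((1 : ℝ) / 2))) := by gcongr
      _ = _ := by ring
  · calc m * s * (z + 1 + l) ^ 2 ≤ m * s * (2 * (l' + z)) ^ 2 := by gcongr
      _ = 4 * (m * s * (l' + z) ^ 2) := by ring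
      _ ≤ 4 * (|C| * (B ^ 2 * N)) := by gcongr
      _ = _ := by ring

/-- Fast computations are good. -/
theorem good_of_fast {D : LD} {F : List Bool → List Bool} (hF : D.Is F) {b : ℕ}
    (hlen : ∀ w, (F w).length ≤ b * (w.length + 1)) (hle : ∀ w, w.length ≤ (F w).length)
    (P : List Ins) (E : Decomp) {c : ℕ} (hc : 0 < c) (C : ℝ) :
    ∃ (C' : ℝ) (n₁ : ℕ), ∀ w y : List Bool, n₁ ≤ w.length →
      Fast P C (F w) y → (mach D P).Good E c C' w y := by
  set B : ℝ := (b : ℝ) + 1 with hB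
  have hB1 : 1 ≤ B := by
    have h1 : (0 : ℝ) ≤ b := Nat.cast_nonneg _
    linarith
  obtain ⟨C', n₁, h⟩ := good_gen hF P E (le_refl 2) hc (4 * |C| * B ^ 2)
  refine ⟨C', n₁, ?_⟩
  rintro w y hw ⟨t, s, m, r, hls, hacc, hR, hcost, b1, b2, b3⟩
  have hwx : w.length ≤ (F w).length := hle w
  have hlog : Nat.log 2 w.length ≤ Nat.log 2 (F w).length := Nat.log_mono_right hwx
  have hl1 : (1 : ℝ) ≤ (Nat.log 2 w.length : ℝ) + 1 := by
    have : (0 : ℝ) ≤ Nat.log 2 w.length := Nat.cast_nonneg _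
    linarith
  have hll : (Nat.log 2 w.length : ℝ) + 1 ≤ (Nat.log 2 (F w).length : ℝ) + 1 := by
    have : (Nat.log 2 w.length : ℝ) ≤ Nat.log 2 (F w).length := by exact_mod_cast hlog
    linarith
  have hN : (1 : ℝ) ≤ (w.length : ℝ) + 1 := by
    have : (0 : ℝ) ≤ w.length := Nat.cast_nonneg _
    linarith
  have hN0 : (1 : ℝ) ≤ ((F w).length : ℝ) + 1 := by
    have : (0 : ℝ) ≤ (F w).length := Nat.cast_nonneg _
    linarith
  have hN' : ((F w).length : ℝ) + 1 ≤ B * ((w.length : ℝ) + 1) := by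
    have h1 : (F w).length + 1 ≤ (b + 1) * (w.length + 1) := by
      have h2 := hlen w
      calc (F w).length + 1 ≤ b * (w.length + 1) + 1 := by omega
        _ ≤ (b + 1) * (w.length + 1) := by nlinarith
    rw [hB]
    exact_mod_cast h1
  have hz : (0 : ℝ) ≤ ((min (Nat.log 2 t) s : ℕ) : ℝ) := Nat.cast_nonneg _
  rw [← Nat.cast_min] at b1 b2 b3
  obtain ⟨q1, q2, q3⟩ := fast_bounds hl1 hll (Nat.cast_nonneg s) (Nat.cast_nonneg r)
    (Nat.cast_nonneg m) hz hN hB1 hN' hN0 b1 b2 b3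
  refine h w y hw t s 0 r m (min (Nat.log 2 t) s + 1) (fun _ => False) (by omega) hacc hR
    (fun u v huv hv _ => ⟨(cost_mono P (F w) y m hv).trans hcost, ?_⟩)
    (fun _ _ hSh => hSh.elim) ?_ ?_ ?_ ?_
  · rcases le_or_gt (Nat.log 2 t) s with h1 | h1
    · left
      rw [min_eq_left h1]
      have h2 : t < 2 ^ (Nat.log 2 t + 1) := Nat.lt_pow_succ_log_self (by norm_num) _
      have h3 : 2 ^ (Nat.log 2 t + 1) ≤ 2 ^ (Nat.log 2 t + 1) * (r + 1) :=
        Nat.le_mul_of_pos_right _ (Nat.succ_pos _)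
      omega
    · right
      rw [min_eq_right h1.le]
      exact Nat.lt_succ_self _
  · push_cast
    push_cast at q1
    exact q1
  · push_cast
    push_cast at q2
    exact q2
  · have : (0 : ℝ) ≤ 4 * |C| * B ^ 2 * ((w.length : ℝ) + 1) := by positivity
    simpa using this
  · push_cast
    push_cast at q3
    exact q3

/-- The machine accepts if the program does. -/
theorem accepts_complete {D : LD} {F : List Bool → List Bool} (hF : D.Is F) (P : List Ins)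
    {w y : List Bool} {T s : ℕ} (hlt : ∀ u ≤ T, ∀ i, (conf P (F w) y u).2 i < 2 ^ s)
    (hacc : AcceptsAt P (F w) y T) : ∃ g r, (mach D P).AcceptsAt w y g r := by
  have hpN : parN (par w.length 0 (s + 2)) = w.length := parN_par _ _ _
  have hpM : parM P (par w.length 0 (s + 2)) = 0 + (bd P + 1) := parM_par _ _ _ _
  have hpW : parW (par w.length 0 (s + 2)) = 2 ^ (s + 2) := parW_par _ _ _
  have h4 : 4 ≤ 2 ^ (s + 2) := by
    rw [pow_add]
    have : 1 ≤ 2 ^ s := Nat.one_le_two_pow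
    omega
  obtain ⟨τ, l', i1, i2, -, -, -⟩ := exists_init D P w y (L := par w.length 0 (s + 2))
    (G := par w.length 0 (s + 2)) (B := (s + 2) * (0 + (bd P + 1))) Nat.lt_two_pow_self hpN
    (by rw [hpW]; exact h4) (by rw [hpW, hpM, ← pow_mul]) (Nat.mul_pos (by omega) (by omega))
  have H : Run D P F w y _ (par w.length 0 (s + 2)) T τ l' :=
    ⟨hF, i1, hpN, i2, fun k hk i => by
      rw [hpW]
      exact (hlt k hk i).trans_le (Nat.pow_le_pow_right (by norm_num) (by omega)), hacc⟩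
  exact ⟨_, _, H.accepts⟩

/-- Programs of random access machines on the words `F w` and `y`. -/
theorem sim_ram {c : ℕ} {D : LD} {F : List Bool → List Bool} {b : ℕ} (hc : 0 < c) (hF : D.Is F)
    (hlen : ∀ w, (F w).length ≤ b * (w.length + 1)) (hle : ∀ w, w.length ≤ (F w).length)
    (P : List Ins) (C : ℝ) :
    Sim c (fun w y => ∃ t, AcceptsAt P (F w) y t) fun w y => Fast P C (F w) y := by
  obtain ⟨C', n₁, h3⟩ := good_of_fast hF hlen hle P nilE hc C
  refine ⟨_, _, hub_nbm c (mach D P) nilE C', ?_, ?_, n₁, fun w y hw _ h => h3 w y hw h⟩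
  · rintro w y ⟨g, r, h⟩
    exact accepts_sound hF h
  · rintro w y ⟨t, s, m, r, -, h, hlt, -⟩
    exact accepts_complete hF P hlt h

end Pool.Agent.Helper92.RF
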