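import Pool.Agent.Helper92.RF.Defs
import Pool.Agent.Helper92.RE.Sim

/-!
# Near steps of programs, on numbers

The registers with numbers less than `m` are given by the number `tab W m R` with the digits
`R 0, …, R (m - 1)` in base `W`.
-/

namespace Pool.Agent.Helper92.RF

open Pool.Agent.Helper65.LinSpace Pool.Agent.Helper78.Mpc Pool.Agent.Helper28.Ram Finset
open Pool.Agent.Helper81.Sus2
open Pool.Agent.Helper81.RP (Ins lett step AcceptsAt conf wd wf num_wd wd_num wf_eq linComp_wf
  length_wd ls_pair hd tl ls_hd ls_tl hd_eq tl_eq a0 a1 dst npc uu ls_a1 ls_dst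
  ls_npc selF selF_eq ls_selF isA accF accF_le accF_eq_one ls_accF bd pc_le a0_le a1_le npc_le cst
  cst_le)
open Pool.Agent.Helper92.RE (LD inpL valL vvL step_eqL ls_valL lett_le lett_none lt_eq adr1 ls_adr1)

/-- `0` if the step is near: it reads no letter, and no register with a number `≥ m` is read or
changed. -/
def farN (o : Option Ins) (m u : ℕ) : ℕ :=
  ifz (inpL o) (ifz (lt01 (a1 o u) m * lt01 (dst o u) m) 1 0) 1

theorem farN_eq_zero {o : Option Ins} {m u : ℕ} :
    farN o m u = 0 ↔ inpL o = 0 ∧ a1 o u < m ∧ dst o u < m := by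
  unfold farN ifz lt01
  split_ifs <;> simp_all

/-- The digits after the change of the digit number `i` to `r`. -/
def setN (W m V i r : ℕ) : ℕ := tab W m fun j => (ifz (eq01 j i) (dig W V j) r) % W

theorem setN_tab {W m : ℕ} {R : ℕ → ℕ} (hR : ∀ i < m, R i < W) {r : ℕ} (hr : r < W) (i : ℕ) :
    setN W m (tab W m R) i r = tab W m (Function.update R i r) := by
  refine tab_congr fun j hj => ?_
  by_cases h : j = i
  · subst h
    rw [eq01, if_pos rfl, ifz_ne one_ne_zero, Nat.mod_eq_of_lt hr, Function.update_self]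
  · rw [eq01, if_neg h, ifz_zero, dig_tab hR hj, Nat.mod_eq_of_lt (hR j hj),
      Function.update_of_ne h]

theorem setN_lt {W m : ℕ} (hW : 0 < W) (V i r : ℕ) : setN W m V i r < W ^ m :=
  tab_lt fun _ _ => Nat.mod_lt _ hW

/-- The number of the register which is read first. -/
def uN (o : Option Ins) (W V : ℕ) : ℕ := dig W V (a0 o)

/-- The new content. -/
def rN (o : Option Ins) (W V : ℕ) : ℕ := valL o (uN o W V) (dig W V (a1 o (uN o W V)))

/-- One near step for the instruction `o`. -/
def nstO (o : Option Ins) (pl W m κ : ℕ) : ℕ :=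
  ifz (farN o m (uN o W κ.unpair.2))
    (ifz (lt01 (rN o W κ.unpair.2) W) (Nat.pair pl κ.unpair.2)
      (Nat.pair (npc o κ.unpair.1 (uN o W κ.unpair.2))
        (setN W m κ.unpair.2 (dst o (uN o W κ.unpair.2)) (rN o W κ.unpair.2)))) κ

/-- One near step. A configuration is given by the number of the instruction and the number of the
registers; if it is not near, then it is not changed. -/
def nst (P : List Ins) (W m κ : ℕ) : ℕ :=
  selF (fun o (z : ℕ × ℕ × ℕ) => nstO o P.length z.1 z.2.1 z.2.2) P κ.unpair.1 (W, m, κ)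

theorem nst_eq (P : List Ins) (W m κ : ℕ) : nst P W m κ = nstO P[κ.unpair.1]? P.length W m κ := by
  unfold nst
  rw [selF_eq]

section ls

variable {α : Type} [Ctx α]

theorem ls_farN (o : Option Ins) {m u : α → ℕ} (hm : LS m) (hu : LS u) :
    LS (fun a => farN o (m a) (u a)) := by
  unfold farN
  have h1 := ls_a1 o hu
  have h2 := ls_dst o hu
  fun_prop

theorem ls_setN {W m V i r B : α → ℕ} (hW : LS W) (hm : LS m) (hV : LS V) (hi : LS i) (hr : LS r)
    (hB : LS B) (hW0 : ∀ a, 0 < W a) (hb : ∀ a, W a ^ m a ≤ B a) :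
    LS (fun a => setN (W a) (m a) (V a) (i a) (r a)) := by
  refine LS.tab (q := W) (m := m) (C := B)
    (d := fun a j => (ifz (eq01 j (i a)) (dig (W a) (V a) j) (r a)) % W a) ?_ hW hm hB
    (fun a j _ => Nat.mod_lt _ (hW0 a)) hb
  have h1 : LS (fun p : α × ℕ => W p.1) := LS.comp (g := W) hW (by fun_prop)
  have h2 : LS (fun p : α × ℕ => V p.1) := LS.comp (g := V) hV (by fun_prop)
  have h3 : LS (fun p : α × ℕ => i p.1) := LS.comp (g := i) hi (by fun_prop)
  have h4 : LS (fun p : α × ℕ => r p.1) := LS.comp (g := r) hr (by fun_prop)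
  fun_prop

theorem ls_uN (o : Option Ins) {W V : α → ℕ} (hW : LS W) (hV : LS V) :
    LS (fun a => uN o (W a) (V a)) := by
  unfold uN
  fun_prop

theorem ls_rN (o : Option Ins) {W V : α → ℕ} (hW : LS W) (hV : LS V) :
    LS (fun a => rN o (W a) (V a)) := by
  unfold rN
  have h1 := ls_uN o hW hV
  have h2 := ls_a1 o h1
  exact ls_valL o h1 (LS.dig hW hV h2)

theorem ls_nst (P : List Ins) {W m κ B : α → ℕ} (hW : LS W) (hm : LS m) (hκ : LS κ) (hB : LS B)
    (hW0 : ∀ a, 0 < W a) (hb : ∀ a, W a ^ m a ≤ B a) : LS (fun a => nst P (W a) (m a) (κ a)) := by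
  have hV : LS (fun a => (κ a).unpair.2) := by fun_prop
  have hp : LS (fun a => (κ a).unpair.1) := by fun_prop
  have h := ls_selF (α := α) (G := fun o a => nstO o P.length (W a) (m a) (κ a)) (fun o => ?_) P hp
  · refine LS.congr h fun a => ?_
    rw [nst_eq, selF_eq]
  · have h1 := ls_uN o hW hV
    have h2 := ls_rN o hW hV
    have h3 := ls_farN o hm h1
    have h4 := ls_npc o hp h1
    have h5 := ls_dst o h1
    have h6 := ls_setN hW hm hV h5 h2 hB hW0 hb
    show LS fun a => ifz (farN o (m a) (uN o (W a) (κ a).unpair.2))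
      (ifz (lt01 (rN o (W a) (κ a).unpair.2) (W a)) (Nat.pair P.length (κ a).unpair.2)
        (Nat.pair (npc o (κ a).unpair.1 (uN o (W a) (κ a).unpair.2))
          (setN (W a) (m a) (κ a).unpair.2 (dst o (uN o (W a) (κ a).unpair.2))
            (rN o (W a) (κ a).unpair.2)))) (κ a)
    exact LS.ifz h3 (LS.ifz (LS.lt01 h2 hW) (ls_pair (LS.const _) hV) (ls_pair h4 h6)) hκ

end ls

/-! ### Codes of configurations -/

/-- The code of a configuration. -/
def cod (W m : ℕ) (c : ℕ × (ℕ → ℕ)) : ℕ := Nat.pair c.1 (tab W m c.2)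

theorem cod_pc (W m : ℕ) (c : ℕ × (ℕ → ℕ)) : (cod W m c).unpair.1 = c.1 := by
  unfold cod
  rw [Nat.unpair_pair]

theorem cod_reg (W m : ℕ) (c : ℕ × (ℕ → ℕ)) : (cod W m c).unpair.2 = tab W m c.2 := by
  unfold cod
  rw [Nat.unpair_pair]

/-- The code is dead: there is no instruction with its number. -/
def Dead (P : List Ins) (κ : ℕ) : Prop := κ.unpair.1 = P.length

theorem dead_nst {P : List Ins} {W m κ : ℕ} (hm : 0 < m) (h : Dead P κ) : Dead P (nst P W m κ) := by
  unfold Dead at h ⊢
  have e1 : P[κ.unpair.1]? = none := by rw [h]; simp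
  have e2 : ∀ u, farN none m u = 0 := fun u => farN_eq_zero.2 ⟨rfl, hm, hm⟩
  rw [nst_eq, e1]
  unfold nstO
  rw [e2, ifz_zero]
  unfold ifz
  split_ifs
  · rw [Nat.unpair_pair]
  · rw [Nat.unpair_pair]
    exact h

section sim

variable {P : List Ins} {W m : ℕ} {c : ℕ × (ℕ → ℕ)} {x y : List Bool}

theorem uN_tab (hm : bd P < m) (hR : ∀ i < m, c.2 i < W) :
    uN P[c.1]? W (tab W m c.2) = uu P c := by
  unfold uN uu
  exact dig_tab hR ((a0_le P c.1).trans_lt hm)

/-- A far configuration is not changed. -/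
theorem nst_far (hm : bd P < m) (hR : ∀ i < m, c.2 i < W)
    (hf : farN P[c.1]? m (uu P c) ≠ 0) : nst P W m (cod W m c) = cod W m c := by
  rw [nst_eq, cod_pc]
  unfold nstO
  rw [cod_reg, uN_tab hm hR, ifz_ne hf]

theorem rN_tab (hm : bd P < m) (hR : ∀ i < m, c.2 i < W)
    (hf : farN P[c.1]? m (uu P c) = 0) :
    rN P[c.1]? W (tab W m c.2) = valL P[c.1]? (uu P c) (vvL P x y c) := by
  obtain ⟨h1, h2, -⟩ := farN_eq_zero.1 hf
  unfold rN vvL
  rw [uN_tab hm hR, dig_tab hR h2, h1, ifz_zero]

/-- A near step. -/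
theorem nst_near (hm : bd P < m) (hR : ∀ i < m, c.2 i < W)
    (hf : farN P[c.1]? m (uu P c) = 0) (hr : valL P[c.1]? (uu P c) (vvL P x y c) < W) :
    nst P W m (cod W m c) = cod W m (step P x y c) := by
  rw [nst_eq, cod_pc]
  unfold nstO
  rw [cod_reg, cod_pc, uN_tab hm hR, hf, ifz_zero, rN_tab (x := x) (y := y) hm hR hf, lt01,
    if_pos hr, ifz_ne one_ne_zero, setN_tab hR hr, step_eqL]
  rfl

/-- A near step with a number which is too large. -/
theorem nst_over (hm : bd P < m) (hR : ∀ i < m, c.2 i < W)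
    (hf : farN P[c.1]? m (uu P c) = 0) (hr : W ≤ valL P[c.1]? (uu P c) (vvL P x y c)) :
    Dead P (nst P W m (cod W m c)) := by
  rw [nst_eq, cod_pc]
  unfold nstO
  rw [cod_reg, cod_pc, uN_tab hm hR, hf, ifz_zero, rN_tab (x := x) (y := y) hm hR hf, lt01,
    if_neg (not_lt.2 hr), ifz_zero]
  unfold Dead
  rw [Nat.unpair_pair]

/-- A near step changes no far register. -/
theorem step_far (hf : farN P[c.1]? m (uu P c) = 0) {i : ℕ} (hi : m ≤ i) :
    (step P x y c).2 i = c.2 i := by
  obtain ⟨-, -, h3⟩ := farN_eq_zero.1 hf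
  rw [step_eqL]
  exact Function.update_of_ne (by omega) _ _

theorem step_lt (hR : ∀ i < m, c.2 i < W) (hr : valL P[c.1]? (uu P c) (vvL P x y c) < W) :
    ∀ i < m, (step P x y c).2 i < W := by
  intro i hi
  rw [step_eqL]
  show Function.update c.2 _ _ i < W
  by_cases h : i = dst P[c.1]? (uu P c)
  · subst h
    rw [Function.update_self]
    exact hr
  · rw [Function.update_of_ne h]
    exact hR i hi

end sim

/-! ### The run -/

/-- The code after `N` near steps. -/
def runN (P : List Ins) (W m κ N : ℕ) : ℕ := nrec κ (fun _ r => nst P W m r) N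

theorem runN_succ (P : List Ins) (W m κ N : ℕ) :
    runN P W m κ (N + 1) = nst P W m (runN P W m κ N) := rfl

theorem unpair_pair_fst (a b : ℕ) : (Nat.pair a b).unpair.1 = a := by rw [Nat.unpair_pair]

theorem unpair_pair_snd (a b : ℕ) : (Nat.pair a b).unpair.2 = b := by rw [Nat.unpair_pair]

theorem nst_bound (P : List Ins) {W m κ p B : ℕ} (hW : 0 < W) (hB : W ^ m ≤ B)
    (h1 : κ.unpair.1 ≤ p + bd P) (h2 : κ.unpair.2 ≤ p + B) :
    (nst P W m κ).unpair.1 ≤ p + bd P ∧ (nst P W m κ).unpair.2 ≤ p + B := by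
  rw [nst_eq]
  unfold nstO
  have h3 : ∀ u, npc P[κ.unpair.1]? κ.unpair.1 u ≤ p + bd P := by
    intro u
    rcases h : P[κ.unpair.1]? with _ | o
    · exact h1
    · have h4 := cst_le h
      have h5 : κ.unpair.1 < P.length := (List.getElem?_eq_some_iff.1 h).1
      unfold bd
      cases o <;> simp only [npc, cst, ifz] at h4 ⊢ <;>
        first | omega | (split_ifs <;> omega)
  have h4 := setN_lt (m := m) hW κ.unpair.2
  unfold ifz
  split_ifs
  · rw [unpair_pair_fst, unpair_pair_snd]
    exact ⟨by unfold bd; omega, h2⟩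
  · rw [unpair_pair_fst, unpair_pair_snd]
    exact ⟨h3 _, by have := h4 (dst P[κ.unpair.1]? (uN P[κ.unpair.1]? W κ.unpair.2)) (rN P[κ.unpair.1]? W κ.unpair.2); omega⟩
  · exact ⟨h1, h2⟩

theorem runN_bound (P : List Ins) {W m κ B : ℕ} (hW : 0 < W) (hB : W ^ m ≤ B) (N : ℕ) :
    (runN P W m κ N).unpair.1 ≤ κ + bd P ∧ (runN P W m κ N).unpair.2 ≤ κ + B := by
  induction N with
  | zero =>
    have h1 := Nat.unpair_left_le κ
    have h2 := Nat.unpair_right_le κ
    exact ⟨h1.trans (Nat.le_add_right _ _), h2.trans (Nat.le_add_right _ _)⟩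
  | succ N ih => exact nst_bound P hW hB ih.1 ih.2

/-- A bound for the codes. -/
def capN (P : List Ins) (κ B : ℕ) : ℕ := (κ + B + bd P + 1) ^ 2

theorem runN_le (P : List Ins) {W m κ B : ℕ} (hW : 0 < W) (hB : W ^ m ≤ B) (N : ℕ) :
    runN P W m κ N ≤ capN P κ B := by
  obtain ⟨h1, h2⟩ := runN_bound P (κ := κ) hW hB N
  rw [← Nat.pair_unpair (runN P W m κ N)]
  refine (Nat.pair_lt_max_add_one_sq _ _).le.trans ?_
  unfold capN
  refine Nat.pow_le_pow_left ?_ 2
  have : max (runN P W m κ N).unpair.1 (runN P W m κ N).unpair.2 ≤ κ + B + bd P :=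
    max_le (by omega) (by omega)
  omega

/-- The code after sufficiently many near steps. -/
def endN (P : List Ins) (W m κ B : ℕ) : ℕ := runN P W m κ (capN P κ B + 1)

theorem endN_bound (P : List Ins) {W m κ B : ℕ} (hW : 0 < W) (hB : W ^ m ≤ B) :
    (endN P W m κ B).unpair.1 ≤ κ + bd P ∧ (endN P W m κ B).unpair.2 ≤ κ + B :=
  runN_bound P hW hB _

theorem ls_endN (P : List Ins) {α : Type} [Ctx α] {W m κ B : α → ℕ} (hW : LS W) (hm : LS m)
    (hκ : LS κ) (hB : LS B) (hW0 : ∀ a, 0 < W a) (hb : ∀ a, W a ^ m a ≤ B a) :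
    LS (fun a => endN P (W a) (m a) (κ a) (B a)) := by
  have hC : LS (fun a => capN P (κ a) (B a)) := by
    unfold capN
    exact LS.pow_const (by fun_prop) 2
  refine LS.nrec (G := κ) (N := fun a => capN P (κ a) (B a) + 1)
    (C := fun a => capN P (κ a) (B a)) (K := fun a _ r => nst P (W a) (m a) r) hκ (by fun_prop) hC
    ?_ fun a i _ => runN_le P (hW0 a) (hb a) i
  have h1 : LS (fun p : α × ℕ × ℕ => W p.1) := LS.comp (g := W) hW (by fun_prop)
  have h2 : LS (fun p : α × ℕ × ℕ => m p.1) := LS.comp (g := m) hm (by fun_prop)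
  have h3 : LS (fun p : α × ℕ × ℕ => B p.1) := LS.comp (g := B) hB (by fun_prop)
  exact ls_nst P h1 h2 (by fun_prop) h3 (fun p => hW0 p.1) fun p => hb p.1

/-- If the iterates of `x` are at most `C` and `z` is a fixed point among them, then it is reached
after `C + 1` steps. -/
theorem iter_reach {f : ℕ → ℕ} {x z C : ℕ} (hC : ∀ i, f^[i] x ≤ C) (hz : f z = z)
    (h : ∃ i, f^[i] x = z) : f^[C + 1] x = z := by
  classical
  have h1 : f^[Nat.find h] x = z := Nat.find_spec h
  have h2 : ∀ {i}, i < Nat.find h → f^[i] x ≠ z := fun hi => Nat.find_min h hi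
  set i := Nat.find h with hi
  have h3 : i ≤ C + 1 := by
    by_contra hcon
    have h4 : Set.InjOn (fun j => f^[j] x) (range i : Finset ℕ) := by
      intro a ha b hb hab
      simp only [Finset.coe_range, Set.mem_Iio] at ha hb
      simp only at hab
      by_contra hne
      have key : ∀ a b : ℕ, a < b → b < i → f^[a] x = f^[b] x → False := by
        intro a b hab hb h5
        refine h2 (i := i - b + a) (by omega) ?_
        rw [Function.iterate_add_apply, h5, ← Function.iterate_add_apply,
          show i - b + b = i by omega]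
        exact h1
      rcases lt_or_gt_of_ne hne with h5 | h5
      · exact key a b h5 hb hab
      · exact key b a h5 ha hab.symm
    have h5 : (range i).card ≤ (range (C + 1)).card :=
      Finset.card_le_card_of_injOn (fun j => f^[j] x)
        (fun j _ => Finset.mem_coe.2 (mem_range.2 (Nat.lt_succ_of_le (hC j)))) h4
    rw [card_range, card_range] at h5
    omega
  obtain ⟨k, hk⟩ := Nat.exists_eq_add_of_le h3
  rw [hk, Nat.add_comm, Function.iterate_add_apply, h1]
  exact Function.iterate_fixed hz k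

theorem runN_iter (P : List Ins) (W m κ N : ℕ) : runN P W m κ N = (nst P W m)^[N] κ := by
  induction N with
  | zero => rfl
  | succ N ih => rw [runN_succ, ih, Function.iterate_succ_apply']

/-- The end of a run which is near up to the time `j`. -/
theorem endN_reach {P : List Ins} {W m B : ℕ} {x y : List Bool} (hm : bd P < m) (hW : 0 < W)
    (hB : W ^ m ≤ B) {k j : ℕ} (hk : ∀ i ≤ j, ∀ r < m, (conf P x y (k + i)).2 r < W)
    (hn : ∀ i < j, farN P[(conf P x y (k + i)).1]? m (uu P (conf P x y (k + i))) = 0)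
    (he : farN P[(conf P x y (k + j)).1]? m (uu P (conf P x y (k + j))) ≠ 0 ∨
      P[(conf P x y (k + j)).1]? = some .accept) :
    endN P W m (cod W m (conf P x y k)) B = cod W m (conf P x y (k + j)) := by
  have h1 : ∀ i ≤ j, runN P W m (cod W m (conf P x y k)) i = cod W m (conf P x y (k + i)) := by
    intro i hi
    induction i with
    | zero => rfl
    | succ i ih =>
      rw [runN_succ, ih (by omega), ← Nat.add_assoc, Pool.Agent.Helper81.RP.conf_succ]
      refine nst_near hm (hk i (by omega)) (hn i (by omega)) ?_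
      have h2 := hk (i + 1) hi
      rw [← Nat.add_assoc, Pool.Agent.Helper81.RP.conf_succ, step_eqL] at h2
      have h3 := h2 (dst P[(conf P x y (k + i)).1]? (uu P (conf P x y (k + i))))
        (farN_eq_zero.1 (hn i (by omega))).2.2
      simpa using h3
  unfold endN
  rw [runN_iter]
  refine iter_reach (C := capN P (cod W m (conf P x y k)) B) (fun i => ?_) ?_ ⟨j, ?_⟩
  · rw [← runN_iter]
    exact runN_le P hW hB i
  · rcases he with he | he
    · exact nst_far hm (hk j le_rfl) he
    · have h0 : farN P[(conf P x y (k + j)).1]? m (uu P (conf P x y (k + j))) = 0 := by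
        rw [he]
        exact farN_eq_zero.2 ⟨rfl, by simpa [a1] using (Nat.zero_le _).trans_lt hm,
          by simpa [dst] using (Nat.zero_le _).trans_lt hm⟩
      have h2 := hk j le_rfl 0 (by omega)
      have h3 : step P x y (conf P x y (k + j)) = conf P x y (k + j) := by
        unfold step
        rw [he]
      have h4 := nst_near (x := x) (y := y) hm (hk j le_rfl) h0 (by
        unfold vvL
        rw [he]
        simpa [valL, inpL, a1, ifz] using h2)
      rwa [h3] at h4
  · rw [← runN_iter]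
    exact h1 j le_rfl

/-- The codes of a run are dead or codes of configurations of the program. -/
theorem runN_sound {P : List Ins} {W m : ℕ} (x y : List Bool) (hm : bd P < m)
    {c : ℕ × (ℕ → ℕ)} (hc : ∀ r < m, c.2 r < W) (N : ℕ) :
    Dead P (runN P W m (cod W m c) N) ∨ ∃ j, runN P W m (cod W m c) N =
      cod W m ((step P x y)^[j] c) ∧ (∀ r < m, ((step P x y)^[j] c).2 r < W) ∧
        ∀ r, m ≤ r → ((step P x y)^[j] c).2 r = c.2 r := by
  induction N with
  | zero => exact Or.inr ⟨0, rfl, hc, fun _ _ => rfl⟩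
  | succ N ih =>
    rw [runN_succ]
    rcases ih with h | ⟨j, h1, h2, h3⟩
    · exact Or.inl (dead_nst (by omega) h)
    · rw [h1]
      generalize hc' : (step P x y)^[j] c = c' at h1 h2 h3 ⊢
      by_cases hf : farN P[c'.1]? m (uu P c') = 0
      · rcases lt_or_ge (valL P[c'.1]? (uu P c') (vvL P x y c')) W with hr | hr
        · refine Or.inr ⟨j + 1, ?_, ?_, ?_⟩
          · rw [nst_near hm h2 hf hr, Function.iterate_succ_apply', hc']
          · rw [Function.iterate_succ_apply', hc']
            exact step_lt h2 hr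
          · intro r hr'
            rw [Function.iterate_succ_apply', hc', step_far hf hr']
            exact h3 r hr'
        · exact Or.inl (nst_over hm h2 hf hr)
      · refine Or.inr ⟨j, ?_, ?_, ?_⟩
        · rw [nst_far hm h2 hf, hc']
        · rw [hc']
          exact h2
        · rw [hc']
          exact h3

end Pool.Agent.Helper92.RF
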