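import Pool.Agent.Helper92.RF.Init
import Pool.Agent.Helper92.RE.Good

/-!
# Programs with few costly accesses as machines with messages: bounds
-/

namespace Pool.Agent.Helper92.RF

open Pool.Agent.Helper65.LinSpace Pool.Agent.Helper78.Mpc Pool.Agent.Helper28.Ram Finset
open Pool.Agent.Helper81.Sus2
open Pool.Agent.Helper81.RP (Ins lett step AcceptsAt conf wd wf num_wd wd_num wf_eq a0 a1 dst npc uu
  bd conf_succ wd_one wd_cons_false pc_le a0_le a1_le pair_lt length_wd_le length_wd)
open Pool.Agent.Helper92.RE (LD sto pO nO uO vO sto_pos pO_sto nO_sto uO_sto vO_sto nconf_succ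
  length_sto adr1 adr1_lt inpL lett_le)
open scoped Classical

/-- The computation of the machine which follows the program. -/
structure Run (D : LD) (P : List Ins) (F : List Bool → List Bool) (w y : List Bool)
    (g : ℕ → Bool) (G T τ l : ℕ) : Prop where
  hF : D.Is F
  start : (mach D P).conf w y g τ =
    (wd (sto 0 6 G 0 0), memF w y (parM P G) (2 ^ l) fun _ => 0)
  len : parN G = w.length
  ok : okN P G (2 ^ l) ≠ 0
  lt : ∀ k ≤ T, ∀ i, (conf P (F w) y k).2 i < parW G
  acc : AcceptsAt P (F w) y T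

section

variable {D : LD} {P : List Ins} {F : List Bool → List Bool} {w y : List Bool} {g : ℕ → Bool}
  {G T τ l : ℕ}

/-- The cell at the time `k` of the program. -/
noncomputable def cell (P : List Ins) (F : List Bool → List Bool) (w y : List Bool)
    (G l k : ℕ) : ℕ :=
  2 ^ l + tab (parW G) (parM P G) (rcF P (F w) y (parM P G) k)

theorem Run.cell_lt (H : Run D P F w y g G T τ l) {k : ℕ} (hk : k ≤ T) :
    cell P F w y G l k < 2 ^ (l + 1) := by
  obtain ⟨-, h2⟩ := conf_main H.hF H.start H.len H.ok H.lt hk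
  have h3 := tab_lt h2.dg
  have h4 := (okN_ne.1 H.ok).2
  rw [top_pow] at h4
  unfold cell
  rw [pow_succ]
  omega

theorem cell_pos (k : ℕ) : 0 < cell P F w y G l k := by
  unfold cell
  positivity

/-- The configurations of the main phase. -/
theorem Run.cases (H : Run D P F w y g G T τ l) {t : ℕ} (h1 : τ ≤ t)
    (h2 : t ≤ τ + 2 * cntF P (F w) y (parM P G) T + 1) :
    (∃ k ≤ T, t = τ + 2 * cntF P (F w) y (parM P G) k ∧ (mach D P).conf w y g t =
      (wd (sto 0 6 G (conf P (F w) y (stF P (F w) y (parM P G) k)).1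
        (tab (parW G) (bd P + 1) (conf P (F w) y (stF P (F w) y (parM P G) k)).2)),
        memF w y (parM P G) (cell P F w y G l k) (conf P (F w) y k).2)) ∨
    (∃ k < T, FarAt P (F w) y (parM P G) k ∧ t = τ + 2 * cntF P (F w) y (parM P G) k + 1 ∧
      (mach D P).conf w y g t = (wd (sto 0 (if MsgAt P (F w) y (parM P G) k then 7 else 8) G
        (Nat.pair (conf P (F w) y (stF P (F w) y (parM P G) k)).1
          (tab (parW G) (bd P + 1) (conf P (F w) y (stF P (F w) y (parM P G) k)).2))
        (Nat.pair (conf P (F w) y k).1 (tab (parW G) (bd P + 1) (conf P (F w) y k).2))),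
        memF w y (parM P G) (cell P F w y G l (k + 1)) (conf P (F w) y (k + 1)).2)) ∨
    (mach D P).conf w y g t = (wd (sto 1 9 0 0 0),
        memF w y (parM P G) (cell P F w y G l T) (conf P (F w) y T).2) := by
  obtain ⟨j, hj⟩ : ∃ j, t = τ + 2 * j ∨ t = τ + 2 * j + 1 := ⟨(t - τ) / 2, by omega⟩
  rcases hj with hj | hj
  · refine Or.inl ?_
    rcases Nat.lt_or_ge j (cntF P (F w) y (parM P G) T) with h | h
    · obtain ⟨k, h3, -, h5⟩ := exists_far h
      refine ⟨k, h3.le, by rw [h5]; exact hj, ?_⟩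
      rw [hj, ← h5]
      exact (conf_main H.hF H.start H.len H.ok H.lt h3.le).1
    · have h6 : j = cntF P (F w) y (parM P G) T := by omega
      refine ⟨T, le_rfl, by rw [← h6]; exact hj, ?_⟩
      rw [hj, h6]
      exact (conf_main H.hF H.start H.len H.ok H.lt le_rfl).1
  · rcases Nat.lt_or_ge j (cntF P (F w) y (parM P G) T) with h | h
    · obtain ⟨k, h3, h4, h5⟩ := exists_far h
      refine Or.inr (Or.inl ⟨k, h3, h4, by rw [h5]; exact hj, ?_⟩)
      rw [hj, ← h5]
      exact conf_far H.hF H.start H.len H.ok H.lt h3 h4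
    · have h6 : j = cntF P (F w) y (parM P G) T := by omega
      refine Or.inr (Or.inr ?_)
      rw [hj, h6]
      exact conf_end H.hF H.start H.len H.ok H.lt H.acc

/-- The machine accepts. -/
theorem Run.accepts (H : Run D P F w y g G T τ l) :
    (mach D P).AcceptsAt w y g (τ + 2 * cntF P (F w) y (parM P G) T + 1) := by
  show ((mach D P).conf w y g _).1.head? = some true
  rw [conf_end H.hF H.start H.len H.ok H.lt H.acc]
  exact (Pool.Agent.Helper92.RE.head_st (f := 1) le_rfl 9 0 0 0).2 rfl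

/-- The memory at the time `k` of the program. -/
theorem Run.mem (H : Run D P F w y g G T τ l) {k : ℕ} (hk : k ≤ T) :
    ((mach D P).conf w y g (τ + 2 * cntF P (F w) y (parM P G) k)).2 =
      memF w y (parM P G) (cell P F w y G l k) (conf P (F w) y k).2 := by
  rw [(conf_main H.hF H.start H.len H.ok H.lt hk).1]
  rfl

/-! ### Guesses and messages -/

theorem Run.guesses (H : Run D P F w y g G T τ l) {t' : ℕ} (t : ℕ)
    (h : t' ≤ τ + 2 * cntF P (F w) y (parM P G) T + 1) :
    (mach D P).guesses w y g t t' ≤ τ := by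
  unfold NBM.guesses
  have hsub : {i : ℕ | t ≤ i ∧ i < t' ∧ (mach D P).ask ((mach D P).conf w y g i).1} ⊆
      ↑(range τ) := by
    rintro i ⟨-, h2, h3⟩
    refine mem_coe.2 (mem_range.2 ?_)
    by_contra hcon
    have key : ∀ (f p n u v : ℕ) (M : List Bool → List Bool), f ≤ 1 → 2 ≤ p →
        (mach D P).conf w y g i = (wd (sto f p n u v), M) → False := by
      intro f p n u v M hf hp e
      rw [e] at h3
      have h4 : (mach D P).ask (wd (sto f p n u v)) = true := h3
      rw [ask_wd D P (sto_pos _ _ _ _ _), pO_sto hf] at h4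
      exact absurd (of_decide_eq_true h4) (not_lt.2 hp)
    rcases H.cases (t := i) (by omega) (by omega) with ⟨k, -, -, e⟩ | ⟨k, -, -, -, e⟩ | e
    · exact key _ _ _ _ _ _ (Nat.zero_le 1) (by norm_num) e
    · exact key _ _ _ _ _ _ (Nat.zero_le 1) (by split_ifs <;> norm_num) e
    · exact key _ _ _ _ _ _ le_rfl (by norm_num) e
  refine (Set.ncard_le_ncard hsub (Finset.finite_toSet _)).trans ?_
  rw [Set.ncard_coe_finset, card_range]

theorem Run.msgs (H : Run D P F w y g G T τ l) {t t' : ℕ}
    (h : t' ≤ τ + 2 * cntF P (F w) y (parM P G) T + 1) :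
    (mach D P).msgs w y g t t' ≤ τ + {k : ℕ | k < T ∧ MsgAt P (F w) y (parM P G) k ∧
      t < τ + 2 * cntF P (F w) y (parM P G) k + 1 ∧
      τ + 2 * cntF P (F w) y (parM P G) k + 1 ≤ t'}.ncard := by
  unfold NBM.msgs
  set S := {k : ℕ | k < T ∧ MsgAt P (F w) y (parM P G) k ∧
      t < τ + 2 * cntF P (F w) y (parM P G) k + 1 ∧
      τ + 2 * cntF P (F w) y (parM P G) k + 1 ≤ t'} with hS
  have hfin : S.Finite := (Set.finite_lt_nat T).subset fun k hk => hk.1
  have hsub : {i : ℕ | t ≤ i ∧ i < t' ∧ (mach D P).msg ((mach D P).conf w y g (i + 1)).1} ⊆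
      ↑(range τ) ∪ (fun k => τ + 2 * cntF P (F w) y (parM P G) k) '' S := by
    rintro i ⟨h1, h2, h3⟩
    rcases Nat.lt_or_ge i τ with hi | hi
    · exact Or.inl (mem_coe.2 (mem_range.2 hi))
    · refine Or.inr ?_
      have key : ∀ (f p n u v : ℕ) (M : List Bool → List Bool), f ≤ 1 →
          (mach D P).conf w y g (i + 1) = (wd (sto f p n u v), M) → p = 5 ∨ p = 7 := by
        intro f p n u v M hf e
        rw [e] at h3
        have h4 : (mach D P).msg (wd (sto f p n u v)) = true := h3
        rw [msg_wd D P (sto_pos _ _ _ _ _), pO_sto hf] at h4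
        exact of_decide_eq_true h4
      rcases H.cases (t := i + 1) (by omega) (by omega) with ⟨k, -, -, e⟩ | ⟨k, k1, k2, k3, e⟩ |
        e
      · have h5 := key _ _ _ _ _ _ (Nat.zero_le 1) e
        omega
      · have h5 := key _ _ _ _ _ _ (Nat.zero_le 1) e
        by_cases h6 : MsgAt P (F w) y (parM P G) k
        · exact ⟨k, ⟨k1, h6, by omega, by omega⟩, by dsimp only; omega⟩
        · rw [if_neg h6] at h5
          omega
      · have h5 := key _ _ _ _ _ _ le_rfl e
        omega
  refine (Set.ncard_le_ncard hsub ((Finset.finite_toSet _).union (hfin.image _))).trans ?_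
  refine (Set.ncard_union_le _ _).trans (Nat.add_le_add ?_ (Set.ncard_image_le hfin))
  rw [Set.ncard_coe_finset, card_range]

/-- A stretch of the computation of the machine and one of the program. -/
theorem stretch {x : List Bool} {m t t' : ℕ} (h : t ≤ t') (h' : t' ≤ τ + 2 * cntF P x y m T + 1) :
    ∃ u v, u ≤ v ∧ v ≤ T ∧
      (∀ k, u < k → k < v → t < τ + 2 * cntF P x y m k ∧ τ + 2 * cntF P x y m k < t') ∧
      (∀ k < T, FarAt P x y m k → t < τ + 2 * cntF P x y m k + 1 →
        τ + 2 * cntF P x y m k + 1 ≤ t' → u ≤ k ∧ k < v) ∧ t' ≤ t + τ + 2 * (v - u) + 2 := by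
  set J := cntF P x y m T with hJ
  set a := (t - τ + 1) / 2 with ha
  set c := min ((t' - τ + 1) / 2) J with hc
  have hcJ : c ≤ J := min_le_right _ _
  have hc' : c = J ∨ c = (t' - τ + 1) / 2 ∧ c ≤ J := by
    rcases le_total ((t' - τ + 1) / 2) J with h1 | h1
    · exact Or.inr ⟨min_eq_left h1, hcJ⟩
    · exact Or.inl (min_eq_right h1)
  have hc2 : c ≤ (t' - τ + 1) / 2 := min_le_left _ _
  have hlo : ∀ k, t < τ + 2 * cntF P x y m k + 1 → a ≤ cntF P x y m k := by
    intro k hk
    omega
  have hhi : ∀ k < T, FarAt P x y m k → τ + 2 * cntF P x y m k + 1 ≤ t' →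
      cntF P x y m k < c := by
    intro k hk hf hk2
    have h1 : cntF P x y m k < J := cntF_lt hk hf
    omega
  rcases Nat.lt_or_ge a c with hac | hac
  · obtain ⟨u, hu1, hu2, hu3⟩ := exists_far (P := P) (x := x) (y := y) (m := m) (T := T) (j := a)
      (by omega)
    obtain ⟨z, hz1, hz2, hz3⟩ := exists_far (P := P) (x := x) (y := y) (m := m) (T := T)
      (j := c - 1) (by omega)
    have huz : u ≤ z := by
      by_contra hcon
      have := cntF_lt (P := P) (x := x) (y := y) (m := m) (k := z) (k' := u) (by omega) hz2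
      omega
    have hsub := cntF_sub (P := P) (x := x) (y := y) (m := m) huz
    refine ⟨u, z + 1, by omega, by omega, fun k h1 h2 => ?_, fun k h1 h2 h3 h4 => ?_, ?_⟩
    · have h3 := cntF_lt (P := P) (x := x) (y := y) (m := m) h1 hu2
      have h4 := cntF_mono (P := P) (x := x) (y := y) (m := m) (Nat.lt_succ_iff.1 h2)
      omega
    · have h5 := hlo k h3
      have h6 := hhi k h1 h2 h4
      constructor
      · by_contra hcon
        have := cntF_lt (P := P) (x := x) (y := y) (m := m) (k := k) (k' := u) (by omega) h2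
        omega
      · by_contra hcon
        have := cntF_lt (P := P) (x := x) (y := y) (m := m) (k := z) (k' := k) (by omega) hz2
        omega
    · omega
  · refine ⟨0, 0, le_rfl, Nat.zero_le _, fun k h1 h2 => by omega, fun k h1 h2 h3 h4 => ?_, ?_⟩
    · have h5 := hlo k h3
      have h6 := hhi k h1 h2 h4
      omega
    · omega

/-! ### Lengths -/

theorem memF_length {m cw s a : ℕ} {R : ℕ → ℕ} (hs : 3 ≤ s) (hR : ∀ i, R i < 2 ^ s) (hc : 0 < cw)
    (hcw : cw < 2 ^ (a + 1)) (ha : s ≤ a) (i : List Bool) : (memF w y m cw R i).length ≤ a := by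
  rcases i with _ | ⟨b, u⟩
  · exact length_wd_le hc hcw
  · cases b
    · show (wd (1 + lett w[bval u]? + 3 * lett y[bval u]?)).length ≤ a
      refine (length_wd_le (k := 3) (by omega) ?_).trans (by omega)
      have h2 := lett_le w[bval u]?
      have h3 := lett_le y[bval u]?
      norm_num
      omega
    · show (if num u < m then [] else wd (R (num u) + 1)).length ≤ a
      split_ifs
      · exact Nat.zero_le _
      · exact (length_wd_le (k := s) (Nat.succ_pos _) (by
          rw [pow_succ]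
          have := hR (num u)
          omega)).trans ha

theorem addr_wd (D : LD) (P : List Ins) {x : ℕ} (hx : 0 < x) :
    (mach D P).addr (wd x) = wd (addrF D P x) :=
  wf_eq (by rw [num_wd hx]) (addrF_pos D P x)

theorem length_letter {j s : ℕ} (hj : j < 2 ^ s) : (wd (2 * bitsN j)).length ≤ s + 1 := by
  rw [wd_cons_false _ (bitsN_pos _), bitsN_eq, wd_num]
  have := length_bits hj
  show j.bits.length + 1 ≤ _
  omega

theorem length_farA {D : LD} {pc n u s : ℕ} (hb : bd P < 2 ^ s) (hn : n < 2 ^ s)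
    (hu : u < 2 ^ s) : (wd (farA D P[pc]? n u)).length ≤ s + 2 := by
  unfold farA
  have h1 := a1_le P pc u
  by_cases h0 : inpL P[pc]? = 0
  · rw [h0, ifz_zero]
    refine length_wd_le (by omega) ?_
    have h2 : 2 ^ (s + 2 + 1) = 8 * 2 ^ s := by
      rw [pow_succ, pow_succ, pow_succ]
      ring
    omega
  · rw [ifz_ne h0]
    refine (length_letter (s := s) ?_).trans (by omega)
    unfold ifz
    split_ifs
    · exact adr1_lt hn
    · exact hu

theorem tab_lt_pow {W q s : ℕ} {R : ℕ → ℕ} (hW : W ≤ 2 ^ s) (hR : ∀ i, R i < W) :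
    tab W q R < 2 ^ (s * q) := by
  calc tab W q R < W ^ q := tab_lt fun i _ => hR i
    _ ≤ (2 ^ s) ^ q := Nat.pow_le_pow_left hW q
    _ = 2 ^ (s * q) := (pow_mul 2 s q).symm

/-- **Bounds.** -/
theorem Run.fits (H : Run D P F w y g G T τ l) {s a : ℕ} (hs : 4 ≤ s) (hb : bd P < 2 ^ s)
    (hn : w.length < 2 ^ s) (hW : parW G ≤ 2 ^ s) (hG : G < 2 ^ (8 * s)) (ha : s ≤ a)
    (hl : l ≤ a) (hE : ∀ t < τ, Early P w y G a ((mach D P).conf w y g t)) :
    (mach D P).Fits w y g (τ + 2 * cntF P (F w) y (parM P G) T + 1) (65 * (s * (bd P + 1))) a := by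
  set e := 8 * (s * (bd P + 1)) with he
  have h8 : 8 * s ≤ e := by
    rw [he]
    have : s ≤ s * (bd P + 1) := Nat.le_mul_of_pos_right _ (Nat.succ_pos _)
    omega
  have hss : s ≤ s * (bd P + 1) := Nat.le_mul_of_pos_right _ (Nat.succ_pos _)
  have hmono : ∀ {z b : ℕ}, z < 2 ^ b → b ≤ e → z < 2 ^ e := fun h1 h2 =>
    h1.trans_le (Nat.pow_le_pow_right (by norm_num) h2)
  have h16 : 16 ≤ 2 ^ s := by
    calc 16 = 2 ^ 4 := by norm_num
      _ ≤ 2 ^ s := Nat.pow_le_pow_right (by norm_num) hs
  have hG' : G < 2 ^ e := hmono hG h8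
  have hsmall : ∀ z, z ≤ 10 → z < 2 ^ e := fun z hz => hmono (b := s) (by omega) (by omega)
  have hst : ∀ f p n u v, f ≤ 1 → p ≤ 10 → n < 2 ^ e → u < 2 ^ e → v < 2 ^ e →
      (wd (sto f p n u v)).length ≤ 65 * (s * (bd P + 1)) := by
    intro f p n u v hf hp hn' hu hv
    have := length_sto (s := e) hf (hsmall p hp) hn' hu hv
    omega
  have hW4 : 4 ≤ parW G := (okN_ne.1 H.ok).1
  have hlt : ∀ k ≤ T, ∀ i, (conf P (F w) y k).2 i < 2 ^ s := fun k hk i =>
    (H.lt k hk i).trans_le hW
  have hpn : ∀ k ≤ T, Nat.pair (conf P (F w) y k).1 (tab (parW G) (bd P + 1)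
      (conf P (F w) y k).2) < 2 ^ e := by
    intro k hk
    have h1 := pc_le P (F w) y k
    have h2 : (conf P (F w) y k).1 < 2 ^ (s * (bd P + 1)) :=
      (h1.trans_lt hb).trans_le (Nat.pow_le_pow_right (by norm_num) hss)
    have h3 := tab_lt_pow (q := bd P + 1) hW (H.lt k hk)
    exact hmono (pair_lt h2 h3) (by omega)
  have hN : ∀ k ≤ T, tab (parW G) (bd P + 1) (conf P (F w) y k).2 < 2 ^ e := fun k hk =>
    hmono (tab_lt_pow (q := bd P + 1) hW (H.lt k hk)) (by omega)
  have hpc : ∀ k, (conf P (F w) y k).1 < 2 ^ e := fun k =>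
    hmono (b := s) ((pc_le P (F w) y k).trans_lt hb) (by omega)
  have hcell : ∀ k ≤ T, cell P F w y G l k < 2 ^ (a + 1) := fun k hk =>
    (H.cell_lt hk).trans_le (Nat.pow_le_pow_right (by norm_num) (by omega))
  have hne : parN G < 2 ^ s := by
    rw [H.len]
    exact hn
  have hwd1 : (wd 1).length ≤ 65 * (s * (bd P + 1)) := by
    rw [wd_one]
    exact Nat.zero_le _
  intro t ht
  rcases Nat.lt_or_ge t τ with h | h
  · obtain ⟨ph, p, u, l', e1, e2, e3, e4, e5, e6⟩ := hE t h
    rw [e5]
    have hl' : 2 ^ l' < 2 ^ (a + 1) :=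
      Nat.pow_lt_pow_right (by norm_num) (by omega : l' < a + 1)
    refine ⟨hst _ _ _ _ _ (by omega) (by omega) (by omega) (by omega) (hsmall 0 (by omega)), ?_,
      fun i _ => memF_length (cw := 2 ^ l') (R := fun _ => 0) (s := s) (by omega)
        (fun _ => by positivity) (by positivity) hl' ha i⟩
    · dsimp only
      rw [addr_wd D P (sto_pos _ _ _ _ _)]
      rcases Nat.lt_or_ge ph 2 with h2 | h2
      · have : addrF D P (sto 0 ph p u 0) = 1 := by
          unfold addrF
          rw [pO_sto (by omega), show ph - 1 = 0 by omega, ifz_zero]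
        rw [this]
        exact hwd1
      · obtain ⟨rfl, rfl⟩ := e6 h2
        rcases (show ph = 2 ∨ ph = 3 ∨ (ph = 4 ∨ ph = 5 ∨ ph = 6) by omega) with rfl | rfl | h3
        · rw [addrF_2]
          exact (length_letter hne).trans (by omega)
        · rw [addrF_3]
          exact (length_letter (show parN p - 1 < 2 ^ s by omega)).trans (by omega)
        · rw [addrF_456 D P h3]
          exact hwd1
  · rcases H.cases h ht with ⟨k, hk, -, e5⟩ | ⟨k, hk, -, -, e5⟩ | e5
    · rw [e5]
      have hk' : stF P (F w) y (parM P G) k ≤ T := (stF_le k).trans hk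
      refine ⟨hst _ _ _ _ _ (by omega) (by omega) hG' (hpc _) (hN _ hk'), ?_, fun i _ =>
        memF_length (s := s) (by omega) (hlt k hk) (cell_pos k) (hcell k hk) ha i⟩
      dsimp only
      rw [addr_wd D P (sto_pos _ _ _ _ _), addrF_456 D P (Or.inr (Or.inr rfl))]
      exact hwd1
    · rw [e5]
      have hk' : stF P (F w) y (parM P G) k ≤ T := (stF_le k).trans hk.le
      have hph : (if MsgAt P (F w) y (parM P G) k then 7 else 8) = 7 ∨
          (if MsgAt P (F w) y (parM P G) k then 7 else 8) = 8 := by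
        split_ifs
        · exact Or.inl rfl
        · exact Or.inr rfl
      refine ⟨hst _ _ _ _ _ (by omega) (by omega) hG' (hpn _ hk') (hpn _ hk.le), ?_, fun i _ =>
        memF_length (s := s) (by omega) (hlt _ hk) (cell_pos _) (hcell _ hk) ha i⟩
      dsimp only
      rw [addr_wd D P (sto_pos _ _ _ _ _), addrF_78 D P hph, uN_nam (H.lt k hk.le)]
      exact (length_farA hb hne (hlt k hk.le _)).trans (by omega)
    · have q1 := hst 1 9 0 0 0 le_rfl (by norm_num) (hsmall 0 (by norm_num))
        (hsmall 0 (by norm_num)) (hsmall 0 (by norm_num))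
      have q2 : addrF D P (sto 1 9 0 0 0) = 1 := by
        unfold addrF
        rw [pO_sto le_rfl, ifz_ne (by norm_num), ifz_ne (by norm_num), ifz_ne (by norm_num),
          ifz_ne (by norm_num), ifz_ne (by norm_num)]
      have q3 : ((mach D P).addr (wd (sto 1 9 0 0 0))).length ≤ 65 * (s * (bd P + 1)) := by
        rw [addr_wd D P (sto_pos _ _ _ _ _), q2]
        exact hwd1
      rw [e5]
      exact ⟨q1, q3, fun i _ =>
        memF_length (s := s) (by omega) (hlt _ le_rfl) (cell_pos _) (hcell _ le_rfl) ha i⟩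

end

end Pool.Agent.Helper92.RF
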