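import Pool.Agent.Helper92.RF.Bnd

/-!
# Programs with few costly accesses as machines with messages: good computations
-/

namespace Pool.Agent.Helper92.RF

open Pool.Agent.Helper65.LinSpace Pool.Agent.Helper78.Mpc Pool.Agent.Helper28.Ram Finset
open Pool.Agent.Helper81.Sus2
open Pool.Agent.Helper81.RP (Ins lett AcceptsAt conf wd bd pair_lt says_fun)
open Pool.Agent.Helper92.RE (LD)

/-- The bounds. -/
theorem numbers {C N l s a r m h κ K τ M h₁ : ℝ} (hl : 1 ≤ l) (hs : l ≤ s) (ha : 0 ≤ a)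
    (hr : 0 ≤ r) (hh : 0 ≤ h) (hN : 1 ≤ N) (hκ : 1 ≤ κ) (hK : 0 ≤ K)
    (hτ0 : 0 ≤ τ) (hτ : τ ≤ 30 * s) (hM0 : 0 ≤ M) (hM : M ≤ m + κ) (h10 : 0 ≤ h₁) (h1h : h₁ ≤ h)
    (h1s : h₁ ≤ s + 1)
    (b1 : r * s * (h + l) ^ 2 ≤ C * N ^ ((3 : ℝ) / 2))
    (b2 : s * (h + 1) * (h + l) ≤ C * N ^ ((1 : ℝ) / 2))
    (b3 : a * (h + l) ^ 2 ≤ C * N) (b4 : m * s * (h + l) ^ 2 ≤ C * N) :
    (τ + (r + 1)) * (κ * s + (κ * (h₁ + 1) + l)) * (κ * (h₁ + 1) + l) ^ 2 ≤
        (1000 * κ ^ 3 * (1 + K) * (1 + κ) * (C + C ^ 2)) * N ^ ((3 : ℝ) / 2) ∧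
      (κ * s + (κ * (h₁ + 1) + l)) * (κ * (h₁ + 1) + 1) * (κ * (h₁ + 1) + l) ≤
        (1000 * κ ^ 3 * (1 + K) * (1 + κ) * (C + C ^ 2)) * N ^ ((1 : ℝ) / 2) ∧
      (a + K * (s * M)) * (κ * (h₁ + 1) + l) ^ 2 ≤
        (1000 * κ ^ 3 * (1 + K) * (1 + κ) * (C + C ^ 2)) * N ∧ s ≤ C * N ^ ((1 : ℝ) / 2) := by
  have hs1 : 1 ≤ s := hl.trans hs
  have hsq : (N ^ ((1 : ℝ) / 2)) ^ 2 = N := by
    rw [← Real.rpow_natCast, ← Real.rpow_mul (by linarith)]
    norm_num
  set R : ℝ := N ^ ((1 : ℝ) / 2) with hR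
  have hR0 : 0 ≤ R := Real.rpow_nonneg (by linarith) _
  have hN3 : N ≤ N ^ ((3 : ℝ) / 2) := by
    have := Real.rpow_le_rpow_of_exponent_le hN (by norm_num : (1 : ℝ) ≤ 3 / 2)
    rwa [Real.rpow_one] at this
  set V : ℝ := N ^ ((3 : ℝ) / 2) with hV
  have hV0 : 0 ≤ V := by linarith
  have hC0 : 0 ≤ C := by
    by_contra hcon
    have h1 : C * N < 0 := mul_neg_of_neg_of_pos (not_le.1 hcon) (by linarith)
    have h2 : 0 ≤ a * (h + l) ^ 2 := by positivity
    linarith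
  have hhl : 1 ≤ h + l := by linarith
  -- the factors
  have f1 : κ * s + (κ * (h₁ + 1) + l) ≤ 5 * κ * s := by
    have : κ * (h₁ + 1) ≤ κ * (3 * s) := by gcongr; linarith
    have : l ≤ κ * s := hs.trans (le_mul_of_one_le_left (by linarith) hκ)
    linarith
  have f1' : 0 ≤ κ * s + (κ * (h₁ + 1) + l) := by positivity
  have f2 : κ * (h₁ + 1) + l ≤ 2 * κ * (h + l) := by
    have e1 : κ * (h₁ + 1) ≤ κ * (h + l) := by gcongr
    have e2 : l ≤ κ * (h + l) := by
      calc l ≤ h + l := by linarith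
        _ ≤ κ * (h + l) := le_mul_of_one_le_left (by linarith) hκ
    linarith
  have f2' : 0 ≤ κ * (h₁ + 1) + l := by positivity
  have f3 : κ * (h₁ + 1) + 1 ≤ 2 * κ * (h + 1) := by
    have e1 : κ * (h₁ + 1) ≤ κ * (h + 1) := by gcongr
    have e2 : 1 ≤ κ * (h + 1) := by
      calc (1 : ℝ) ≤ h + 1 := by linarith
        _ ≤ κ * (h + 1) := le_mul_of_one_le_left (by linarith) hκ
    linarith
  have f3' : 0 ≤ κ * (h₁ + 1) + 1 := by positivity
  -- s (h + l) ≤ C R
  have g1 : s * (h + l) ≤ C * R := by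
    calc s * (h + l) = s * 1 * (h + l) := by ring
      _ ≤ s * (h + 1) * (h + l) := by gcongr; linarith
      _ ≤ C * R := b2
  have g1' : 0 ≤ s * (h + l) := by positivity
  have g2 : (s * (h + l)) ^ 2 ≤ C ^ 2 * N := by
    calc (s * (h + l)) ^ 2 ≤ (C * R) ^ 2 := by gcongr
      _ = C ^ 2 * N := by rw [mul_pow, hsq]
  have g3 : s * (h + l) ^ 2 ≤ C ^ 2 * N := by
    calc s * (h + l) ^ 2 ≤ s * s * (h + l) ^ 2 := by
          gcongr
          exact le_mul_of_one_le_left (by linarith) hs1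
      _ = (s * (h + l)) ^ 2 := by ring
      _ ≤ C ^ 2 * N := g2
  have hD0 : 0 ≤ C + C ^ 2 := by positivity
  have hk1 : (1 : ℝ) ≤ (1 + K) * (1 + κ) := by nlinarith
  have hX : ∀ z : ℝ, 0 ≤ z → 1000 * κ ^ 3 * (C + C ^ 2) * z ≤
      (1000 * κ ^ 3 * (1 + K) * (1 + κ) * (C + C ^ 2)) * z := by
    intro z hz
    have e : 0 ≤ 1000 * κ ^ 3 * (C + C ^ 2) * z := by positivity
    calc 1000 * κ ^ 3 * (C + C ^ 2) * z ≤ (1000 * κ ^ 3 * (C + C ^ 2) * z) *
          ((1 + K) * (1 + κ)) := le_mul_of_one_le_right e hk1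
      _ = _ := by ring
  refine ⟨?_, ?_, ?_, ?_⟩
  · refine le_trans ?_ (hX V hV0)
    have e1 : (τ + (r + 1)) * (s * (h + l) ^ 2) ≤ 31 * (C + C ^ 2) * V := by
      have k1 : r * (s * (h + l) ^ 2) ≤ C * V := by
        calc r * (s * (h + l) ^ 2) = r * s * (h + l) ^ 2 := by ring
          _ ≤ C * V := b1
      have k2 : (τ + 1) * (s * (h + l) ^ 2) ≤ 31 * (C ^ 2 * V) := by
        calc (τ + 1) * (s * (h + l) ^ 2) ≤ (31 * s) * (s * (h + l) ^ 2) := by
              gcongr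
              linarith
          _ = 31 * (s * (h + l)) ^ 2 := by ring
          _ ≤ 31 * (C ^ 2 * N) := by gcongr
          _ ≤ 31 * (C ^ 2 * V) := by gcongr
      have k3 : 0 ≤ C * V := by positivity
      calc (τ + (r + 1)) * (s * (h + l) ^ 2) =
          r * (s * (h + l) ^ 2) + (τ + 1) * (s * (h + l) ^ 2) := by ring
        _ ≤ C * V + 31 * (C ^ 2 * V) := add_le_add k1 k2
        _ ≤ 31 * (C + C ^ 2) * V := by linarith
    calc (τ + (r + 1)) * (κ * s + (κ * (h₁ + 1) + l)) * (κ * (h₁ + 1) + l) ^ 2 ≤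
          (τ + (r + 1)) * (5 * κ * s) * (2 * κ * (h + l)) ^ 2 := by gcongr
      _ = 20 * κ ^ 3 * ((τ + (r + 1)) * (s * (h + l) ^ 2)) := by ring
      _ ≤ 20 * κ ^ 3 * (31 * (C + C ^ 2) * V) := by gcongr
      _ ≤ 1000 * κ ^ 3 * (C + C ^ 2) * V := by
        have : 0 ≤ κ ^ 3 * (C + C ^ 2) * V := by positivity
        linarith
  · refine le_trans ?_ (hX R hR0)
    calc (κ * s + (κ * (h₁ + 1) + l)) * (κ * (h₁ + 1) + 1) * (κ * (h₁ + 1) + l) ≤
          (5 * κ * s) * (2 * κ * (h + 1)) * (2 * κ * (h + l)) := by gcongr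
      _ = 20 * κ ^ 3 * (s * (h + 1) * (h + l)) := by ring
      _ ≤ 20 * κ ^ 3 * (C * R) := by gcongr
      _ ≤ 1000 * κ ^ 3 * (C + C ^ 2) * R := by
        have e1 : 0 ≤ κ ^ 3 * C * R := by positivity
        have e2 : 0 ≤ κ ^ 3 * C ^ 2 * R := by positivity
        nlinarith
  · have k1 : s * M * (h + l) ^ 2 ≤ (1 + κ) * ((C + C ^ 2) * N) := by
      have j1 : m * s * (h + l) ^ 2 ≤ (C + C ^ 2) * N := b4.trans (by
        have : 0 ≤ C ^ 2 * N := by positivity
        linarith)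
      have j2 : s * (h + l) ^ 2 ≤ (C + C ^ 2) * N := g3.trans (by
        have : 0 ≤ C * N := by positivity
        linarith)
      calc s * M * (h + l) ^ 2 ≤ s * (m + κ) * (h + l) ^ 2 := by gcongr
        _ = m * s * (h + l) ^ 2 + κ * (s * (h + l) ^ 2) := by ring
        _ ≤ (C + C ^ 2) * N + κ * ((C + C ^ 2) * N) := by gcongr
        _ = (1 + κ) * ((C + C ^ 2) * N) := by ring
    have k2 : a * (h + l) ^ 2 ≤ (1 + κ) * ((C + C ^ 2) * N) := by
      have j0 : 0 ≤ (C + C ^ 2) * N := by positivity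
      calc a * (h + l) ^ 2 ≤ C * N := b3
        _ ≤ (C + C ^ 2) * N := by
          have : 0 ≤ C ^ 2 * N := by positivity
          linarith
        _ ≤ (1 + κ) * ((C + C ^ 2) * N) := le_mul_of_one_le_left j0 (by linarith)
    calc (a + K * (s * M)) * (κ * (h₁ + 1) + l) ^ 2 ≤
          (a + K * (s * M)) * (2 * κ * (h + l)) ^ 2 := by gcongr
      _ = 4 * κ ^ 2 * (a * (h + l) ^ 2 + K * (s * M * (h + l) ^ 2)) := by ring
      _ ≤ 4 * κ ^ 2 * ((1 + κ) * ((C + C ^ 2) * N) + K * ((1 + κ) * ((C + C ^ 2) * N))) := by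
        gcongr
      _ = 4 * κ ^ 2 * ((1 + K) * (1 + κ) * (C + C ^ 2) * N) := by ring
      _ ≤ 1000 * κ ^ 3 * ((1 + K) * (1 + κ) * (C + C ^ 2) * N) := by
        have e1 : 4 * κ ^ 2 ≤ 1000 * κ ^ 3 := by
          have : κ ^ 2 ≤ κ ^ 3 := pow_le_pow_right₀ hκ (by norm_num)
          have : 0 ≤ κ ^ 2 := by positivity
          linarith
        gcongr
      _ = _ := by ring
  · calc s ≤ s * (h + l) := le_mul_of_one_le_right (by linarith) hhl
      _ ≤ C * R := g1

theorem Early.mono {P : List Ins} {w y : List Bool} {G B B' : ℕ} (h : B ≤ B')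
    {c : List Bool × (List Bool → List Bool)} (hc : Early P w y G B c) : Early P w y G B' c := by
  obtain ⟨ph, p, u, l, h1, h2, h3, h4, h5, h6⟩ := hc
  exact ⟨ph, p, u, l, h1, h2, h3, h4.trans h, h5, h6⟩

theorem time_bound {κ h s r τ u v t t' : ℕ} (hκ : 65 ≤ κ) (huv : u ≤ v)
    (h5 : t' ≤ t + τ + 2 * (v - u) + 2) (h2 : v ≤ u + 2 ^ h * (r + 1) ∨ s < h) :
    t' ≤ t + 2 ^ (κ * (min h (s + 1) + 1)) * (τ + (r + 1) + 1) ∨
      κ * s < κ * (min h (s + 1) + 1) := by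
  by_cases hsh : s < h
  · right
    rw [min_eq_right (by omega)]
    exact (Nat.mul_lt_mul_left (by omega)).2 (by omega)
  · left
    rcases h2 with h2 | h2
    · rw [min_eq_left (by omega)]
      have e1 : h + 2 ≤ κ * (h + 1) := by
        have := Nat.mul_le_mul_right (h + 1) hκ
        omega
      have e2 : 4 * 2 ^ h ≤ 2 ^ (κ * (h + 1)) := by
        calc 4 * 2 ^ h = 2 ^ (h + 2) := by rw [pow_add]; ring
          _ ≤ _ := Nat.pow_le_pow_right (by norm_num) e1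
      have e3 : 1 ≤ 2 ^ h := Nat.one_le_two_pow
      have e4 : 4 * 2 ^ h * (τ + (r + 1) + 1) ≤ 2 ^ (κ * (h + 1)) * (τ + (r + 1) + 1) :=
        Nat.mul_le_mul_right _ e2
      have e5 : v - u ≤ 2 ^ h * (r + 1) := by omega
      have e6 : τ + 2 * (2 ^ h * (r + 1)) + 2 ≤ 4 * 2 ^ h * (τ + (r + 1) + 1) := by
        have e7 : τ ≤ 2 ^ h * τ := Nat.le_mul_of_pos_left _ (by omega)
        have e8 : 4 * 2 ^ h * (τ + (r + 1) + 1) =
          4 * (2 ^ h * τ) + 4 * (2 ^ h * (r + 1)) + 4 * 2 ^ h := by ring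
        rw [e8]
        omega
      omega
    · omega

/-- The guessed parameters. -/
def par (n m s : ℕ) : ℕ := Nat.pair n (Nat.pair m (2 ^ s))

theorem parN_par (n m s : ℕ) : parN (par n m s) = n := by
  unfold parN par
  rw [Nat.unpair_pair]

theorem parM_par (P : List Ins) (n m s : ℕ) : parM P (par n m s) = m + (bd P + 1) := by
  unfold parM par
  rw [Nat.unpair_pair, Nat.unpair_pair]

theorem parW_par (n m s : ℕ) : parW (par n m s) = 2 ^ s := by
  unfold parW par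
  rw [Nat.unpair_pair, Nat.unpair_pair]
  exact Nat.sub_add_cancel Nat.one_le_two_pow

theorem par_lt {n m s : ℕ} (hs : 0 < s) (hn : n < 2 ^ s) (hm : m < 2 ^ (2 * s)) :
    par n m s < 2 ^ (8 * s) := by
  unfold par
  have h1 : 2 ^ s < 2 ^ (2 * s) := Nat.pow_lt_pow_right (by norm_num) (by omega)
  have h2 : 2 ^ s ≤ 2 ^ (2 * (2 * s)) := Nat.pow_le_pow_right (by norm_num) (by omega)
  have h3 := pair_lt (hn.trans_le h2) (pair_lt hm h1)
  rwa [show 2 * (2 * (2 * s)) = 8 * s by ring] at h3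

/-- **Good computations.** -/
theorem good_gen {D : LD} {F : List Bool → List Bool} (hF : D.Is F) (P : List Ins) (E : Decomp)
    {K : ℕ} (hK : 2 ≤ K) {c' : ℕ} (hc : 0 < c') (C : ℝ) :
    ∃ (C' : ℝ) (n₁ : ℕ), ∀ w y : List Bool, n₁ ≤ w.length →
      ∀ (T s a r m h : ℕ) (Sh : ℕ → Prop), Nat.log 2 w.length + 1 ≤ s → AcceptsAt P (F w) y T →
      (∀ u ≤ T, ∀ i, (conf P (F w) y u).2 i < 2 ^ s) →
      (∀ u v : ℕ, u ≤ v → v ≤ T → (∀ k, u < k → k < v → ¬Sh k) →
        cost P (F w) y m u v ≤ r ∧ (v ≤ u + 2 ^ h * (r + 1) ∨ s < h)) →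
      (∀ k ≤ T, Sh k → ∀ cw, 0 < cw → cw < 2 ^ (2 * (s * (m + (bd P + 1))) + 1) →
        ∃ d : List Bool, d.length ≤ c' * w.length ∧
          ∀ j : List Bool, j.length ≤ 65 * (s * (bd P + 1)) → j.head? ≠ some false →
            E.Says w y (a + K * (s * (m + (bd P + 1)))) d j
              (memF w y (m + (bd P + 1)) cw (conf P (F w) y k).2 j)) →
      (r : ℝ) * s * ((h : ℝ) + ((Nat.log 2 w.length : ℝ) + 1)) ^ 2 ≤
        C * ((w.length : ℝ) + 1) ^ ((3 : ℝ) / 2) →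
      (s : ℝ) * ((h : ℝ) + 1) * ((h : ℝ) + ((Nat.log 2 w.length : ℝ) + 1)) ≤
        C * ((w.length : ℝ) + 1) ^ ((1 : ℝ) / 2) →
      (a : ℝ) * ((h : ℝ) + ((Nat.log 2 w.length : ℝ) + 1)) ^ 2 ≤ C * ((w.length : ℝ) + 1) →
      (m : ℝ) * s * ((h : ℝ) + ((Nat.log 2 w.length : ℝ) + 1)) ^ 2 ≤ C * ((w.length : ℝ) + 1) →
      (mach D P).Good E c' C' w y := by
  set κ : ℕ := 65 * (bd P + 1) with hκ
  refine ⟨1000 * (κ : ℝ) ^ 3 * (1 + K) * (1 + κ) * (C + C ^ 2),
    bd P + 8 + ⌈|C|⌉₊ + ⌈(5 * κ * |C| + 30 * |C| + 1) ^ 2⌉₊, ?_⟩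
  intro w y hw T s a r m h Sh hls hacc hlt hsus hSh b1 b2 b3 b4
  have hκ1 : 65 ≤ κ := by omega
  have hn : w.length < 2 ^ s := by
    refine (Nat.lt_pow_succ_log_self (b := 2) (by norm_num) w.length).trans_le ?_
    exact Nat.pow_le_pow_right (by norm_num) hls
  have hs4 : 4 ≤ s := by
    by_contra hcon
    have : 2 ^ s ≤ 2 ^ 3 := Nat.pow_le_pow_right (by norm_num) (by omega)
    omega
  have hb : bd P < 2 ^ s := by omega
  set l : ℝ := (Nat.log 2 w.length : ℝ) + 1 with hl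
  have hl1 : 1 ≤ l := by
    rw [hl]
    have : (0 : ℝ) ≤ Nat.log 2 w.length := Nat.cast_nonneg _
    linarith
  have hls' : l ≤ s := by
    rw [hl]
    exact_mod_cast hls
  have hN : (1 : ℝ) ≤ (w.length : ℝ) + 1 := by
    have : (0 : ℝ) ≤ w.length := Nat.cast_nonneg _
    linarith
  -- the number of near registers
  have hm : m < 2 ^ (2 * s) := by
    have h1 : (m : ℝ) ≤ C * ((w.length : ℝ) + 1) := by
      refine le_trans ?_ b4
      have hs1 : (1 : ℝ) ≤ s := hl1.trans hls'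
      have hh : (1 : ℝ) ≤ (h : ℝ) + l := by
        have : (0 : ℝ) ≤ h := Nat.cast_nonneg _
        linarith
      calc (m : ℝ) = m * 1 * 1 ^ 2 := by ring
        _ ≤ m * s * ((h : ℝ) + l) ^ 2 := by gcongr
    have h2 : C ≤ w.length := by
      have h3 := Nat.le_ceil |C|
      have h4 : ((⌈|C|⌉₊ : ℕ) : ℝ) ≤ w.length := by exact_mod_cast (by omega)
      exact (le_abs_self C).trans (h3.trans h4)
    have h3 : (m : ℝ) ≤ w.length * ((w.length : ℝ) + 1) :=
      h1.trans (mul_le_mul_of_nonneg_right h2 (by linarith))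
    have h4 : m ≤ w.length * (w.length + 1) := by exact_mod_cast h3
    have h5 : w.length * (w.length + 1) < 2 ^ s * 2 ^ s := by
      have h6 : 0 < 2 ^ s := by positivity
      nlinarith
    rw [two_mul, pow_add]
    omega
  -- the first phases
  have hG := par_lt (n := w.length) (m := m) (s := s) (by omega) hn hm
  set G := par w.length m s with hGdef
  have hpN : parN G = w.length := parN_par _ _ _
  have hpM : parM P G = m + (bd P + 1) := parM_par _ _ _ _
  have hpW : parW G = 2 ^ s := parW_par _ _ _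
  have h16 : 4 ≤ 2 ^ s := by
    calc 4 = 2 ^ 2 := by norm_num
      _ ≤ 2 ^ s := Nat.pow_le_pow_right (by norm_num) (by omega)
  have hB0 : 0 < s * (m + (bd P + 1)) := Nat.mul_pos (by omega) (by omega)
  obtain ⟨τ, l', i1, i2, i3, i4, i5⟩ := exists_init D P w y (L := 8 * s) (G := G)
    (B := s * (m + (bd P + 1))) hG hpN (by rw [hpW]; exact h16)
    (by rw [hpW, hpM, ← pow_mul]) hB0
  have hlogB : Nat.log 2 (s * (m + (bd P + 1))) ≤ 3 * s := by
    refine Nat.lt_succ_iff.1 (Nat.log_lt_of_lt_pow hB0.ne' ?_)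
    have j1 : s < 2 ^ s := Nat.lt_two_pow_self
    have j2 : m + (bd P + 1) < 2 * 2 ^ (2 * s) := by
      have : 2 ^ s ≤ 2 ^ (2 * s) := Nat.pow_le_pow_right (by norm_num) (by omega)
      omega
    calc s * (m + (bd P + 1)) < 2 ^ s * (2 * 2 ^ (2 * s)) :=
          Nat.mul_lt_mul_of_lt_of_le j1 j2.le (by positivity)
      _ = 2 ^ (3 * s).succ := by
        rw [Nat.succ_eq_add_one, pow_succ, show 3 * s = s + 2 * s by ring, pow_add]
        ring
  have hτ : τ ≤ 30 * s := by omega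
  have H : Run D P F w y (gF (8 * s) G) G T τ l' :=
    ⟨hF, i1, hpN, i2, fun k hk i => by rw [hpW]; exact hlt k hk i, hacc⟩
  set M := m + (bd P + 1) with hM
  set a' := a + K * (s * M) with ha'
  have hKB : 2 * (s * M) ≤ K * (s * M) := Nat.mul_le_mul_right _ hK
  have hsM : s ≤ s * M := Nat.le_mul_of_pos_right _ (by omega)
  have hfits := H.fits (s := s) (a := a') hs4 hb hn (by rw [hpW]) hG (by omega) (by omega)
    fun t ht => (i5 t ht).mono (by omega)
  -- the numbers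
  set h₁ := min h (s + 1) with hh1
  have hκr : (1 : ℝ) ≤ (κ : ℝ) := by
    exact_mod_cast (by omega : 1 ≤ κ)
  have hMr : (M : ℝ) ≤ (m : ℝ) + κ := by
    have : M ≤ m + κ := by omega
    exact_mod_cast this
  have h1s : (h₁ : ℝ) ≤ (s : ℝ) + 1 := by
    have : h₁ ≤ s + 1 := min_le_right _ _
    exact_mod_cast this
  have h1h : (h₁ : ℝ) ≤ (h : ℝ) := by
    have : h₁ ≤ h := min_le_left _ _
    exact_mod_cast this
  obtain ⟨q1, q2, q3, q4⟩ := numbers (κ := (κ : ℝ)) (K := (K : ℝ)) (τ := (τ : ℝ)) (M := (M : ℝ))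
    (h₁ := (h₁ : ℝ)) hl1 hls' (Nat.cast_nonneg a) (Nat.cast_nonneg r) (Nat.cast_nonneg h) hN hκr
    (Nat.cast_nonneg K) (Nat.cast_nonneg τ) (by exact_mod_cast hτ) (Nat.cast_nonneg M) hMr
    (Nat.cast_nonneg h₁) h1h h1s b1 b2 b3 b4
  have hbig : 5 * κ * s ≤ w.length + 1 ∧ 30 * s ≤ w.length := by
    have hNN : (5 * κ * |C| + 30 * |C| + 1) ^ 2 ≤ (w.length : ℝ) + 1 := by
      have h2' : ⌈(5 * (κ : ℝ) * |C| + 30 * |C| + 1) ^ 2⌉₊ ≤ w.length := by omega
      have h2 : (⌈(5 * (κ : ℝ) * |C| + 30 * |C| + 1) ^ 2⌉₊ : ℝ) ≤ w.length := Nat.cast_le.2 h2'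
      have h3 := Nat.le_ceil ((5 * κ * |C| + 30 * |C| + 1) ^ 2)
      linarith
    set N : ℝ := (w.length : ℝ) + 1 with hNdef
    have hsq : (N ^ ((1 : ℝ) / 2)) ^ 2 = N := by
      rw [← Real.rpow_natCast, ← Real.rpow_mul (by linarith)]
      norm_num
    have hp : 0 ≤ N ^ ((1 : ℝ) / 2) := Real.rpow_nonneg (by linarith) _
    have hC := abs_nonneg C
    have hroot : 5 * κ * |C| + 30 * |C| + 1 ≤ N ^ ((1 : ℝ) / 2) := by
      refine (sq_le_sq₀ (by positivity) hp).1 ?_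
      rw [hsq]
      exact hNN
    set R := N ^ ((1 : ℝ) / 2) with hR
    have hsC : (s : ℝ) ≤ |C| * R := q4.trans (mul_le_mul_of_nonneg_right (le_abs_self C) hp)
    have h1R : 1 ≤ R := by
      have : 0 ≤ 5 * (κ : ℝ) * |C| + 30 * |C| := by positivity
      linarith
    constructor
    · have : (5 : ℝ) * κ * s ≤ (w.length : ℝ) + 1 := by
        calc (5 : ℝ) * κ * s ≤ 5 * κ * (|C| * R) := by gcongr
          _ = (5 * κ * |C|) * R := by ring
          _ ≤ R * R := by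
            have : 5 * (κ : ℝ) * |C| ≤ R := by linarith
            gcongr
          _ = N := by rw [← sq, hsq]
      exact_mod_cast this
    · have : (30 : ℝ) * s ≤ (w.length : ℝ) := by
        have k1 : (30 : ℝ) * s ≤ (30 * |C|) * R := by
          calc (30 : ℝ) * s ≤ 30 * (|C| * R) := by gcongr
            _ = (30 * |C|) * R := by ring
        have k2 : (30 * |C| + 1) * R ≤ N := by
          calc (30 * |C| + 1) * R ≤ R * R := by
                have : 0 ≤ 5 * (κ : ℝ) * |C| := by positivity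
                have : 30 * |C| + 1 ≤ R := by linarith
                gcongr
            _ = N := by rw [← sq, hsq]
        have k3 : (w.length : ℝ) = N - 1 := by rw [hNdef]; ring
        rw [k3]
        nlinarith
      exact_mod_cast this
  have hκs : 65 * (s * (bd P + 1)) = κ * s := by
    rw [hκ]
    ring
  refine ⟨gF (8 * s) G, τ + 2 * cntF P (F w) y (parM P G) T + 1, κ * s, a', τ + (r + 1),
    κ * (h₁ + 1), 0, 0, 1,
    fun i => if i = 0 then 0 else τ + 2 * cntF P (F w) y (parM P G) T + 1, fun _ => [],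
    H.accepts, ?_, ?_, ?_, Nat.one_pos, le_rfl, ?_, ?_, ?_, ?_, ?_, ?_⟩
  · rw [← hκs]
    exact hfits
  · simp
  · simp
  · intro i hi
    have hi0 : i = 0 := by omega
    subst hi0
    simp only [if_true, Nat.zero_add, one_ne_zero, if_false]
    refine ⟨Nat.zero_le _, ?_, ?_, ?_⟩
    · refine (H.guesses 0 le_rfl).trans ?_
      calc τ ≤ 30 * s := hτ
        _ ≤ 1 * w.length := by omega
        _ ≤ c' * w.length := Nat.mul_le_mul_right _ hc
    · intro u _ _
      exact Or.inl rfl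
    · intro t t' _ htt ht' hns
      obtain ⟨u, v, k1, k2, k3, k4, k5⟩ := stretch (P := P) (x := F w) (y := y)
        (m := parM P G) (T := T) htt ht'
      have hno : ∀ k, u < k → k < v → ¬Sh k := by
        intro k hk1 hk2 hk
        have hkT : k ≤ T := by omega
        obtain ⟨p1, p2⟩ := k3 k hk1 hk2
        refine hns _ p1 p2 ?_
        have hcl : cell P F w y G l' k < 2 ^ (2 * (s * M) + 1) :=
          (H.cell_lt hkT).trans_le (Nat.pow_le_pow_right (by norm_num) (by omega))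
        obtain ⟨d, hd1, hd2⟩ := hSh k hkT hk (cell P F w y G l' k) (cell_pos k) hcl
        refine ⟨d, hd1, fun i v' hi hi0 => ?_⟩
        have hd3 := hd2 i (by rw [hκs]; exact hi) hi0
        have hmem := H.mem hkT
        rw [hpM] at hmem
        rw [hpM, hmem]
        constructor
        · exact fun hs => ⟨Or.inl rfl, says_fun hd3 hs⟩
        · rintro ⟨-, hv⟩
          rw [hv] at hd3
          exact hd3
      obtain ⟨c1, c2⟩ := hsus u v k1 k2 hno
      constructor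
      · have hcost := msgs_le_cost (P := P) (x := F w) (y := y) (m := parM P G) (bd_lt P G)
          (ms := m) (by omega) u v
        have hfin : {k : ℕ | u ≤ k ∧ k < v ∧ MsgAt P (F w) y (parM P G) k}.Finite :=
          (Set.finite_lt_nat v).subset fun k hk => hk.2.1
        have hsub : {k : ℕ | k < T ∧ MsgAt P (F w) y (parM P G) k ∧
            t < τ + 2 * cntF P (F w) y (parM P G) k + 1 ∧
            τ + 2 * cntF P (F w) y (parM P G) k + 1 ≤ t'} ⊆
            {k : ℕ | u ≤ k ∧ k < v ∧ MsgAt P (F w) y (parM P G) k} := by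
          rintro k ⟨o1, o2, o3, o4⟩
          obtain ⟨o5, o6⟩ := k4 k o1 o2.1 o3 o4
          exact ⟨o5, o6, o2⟩
        have hnc := Set.ncard_le_ncard hsub hfin
        have hmsg := H.msgs (t := t) ht'
        omega
      · exact time_bound hκ1 k1 k5 c2
  · intro i hi0 hi
    omega
  · push_cast
    exact q1
  · push_cast
    exact q2
  · push_cast [ha']
    exact q3
  · have hle : κ * (h₁ + 1) ≤ κ * (s + 2) := Nat.mul_le_mul_left _ (by
      have : h₁ ≤ s + 1 := min_le_right _ _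
      omega)
    have hk2 : κ * (s + 2) = κ * s + κ * 2 := by ring
    have hk3 : κ * 4 ≤ κ * s := Nat.mul_le_mul_left _ hs4
    have hk4 : s ≤ κ * s := Nat.le_mul_of_pos_left _ (by omega)
    calc (0 + 1) * (0 + κ * s + (κ * (h₁ + 1) + (Nat.log 2 w.length + 1))) ≤ 5 * κ * s := by
          have : 5 * κ * s = 5 * (κ * s) := by ring
          omega
      _ ≤ 1 * (w.length + 1) := by omega
      _ ≤ c' * (w.length + 1) := Nat.mul_le_mul_right _ hc

end Pool.Agent.Helper92.RF
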