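import Pool.Agent.Helper92.RF.Cost

/-!
# Programs with few costly accesses as machines with messages: the first phases
-/

namespace Pool.Agent.Helper92.RF

open Pool.Agent.Helper65.LinSpace Pool.Agent.Helper78.Mpc Pool.Agent.Helper28.Ram Finset
open Pool.Agent.Helper81.Sus2
open Pool.Agent.Helper81.RP (Ins lett step AcceptsAt conf wd wf num_wd wd_num bd conf_succ)
open Pool.Agent.Helper92.RE (LD sto pO nO uO vO sto_pos pO_sto nO_sto uO_sto vO_sto nconf_succ)

/-- The guessed letters. -/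
noncomputable def gF (L G t : ℕ) : Bool :=
  decide (t < 2 * L ∧ (t % 2 = 0 ∨ G / 2 ^ (L - t / 2 - 1) % 2 = 1))

theorem gF_even {L : ℕ} (G : ℕ) {i : ℕ} (h : i < L) : gF L G (2 * i) = true := by
  unfold gF
  exact decide_eq_true ⟨by omega, Or.inl (by omega)⟩

theorem gF_odd {L : ℕ} (G : ℕ) {i : ℕ} (h : i < L) :
    (gF L G (2 * i + 1)).toNat = G / 2 ^ (L - (i + 1)) % 2 := by
  unfold gF
  rw [show (2 * i + 1) / 2 = i by omega, show L - i - 1 = L - (i + 1) by omega]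
  have h2 : G / 2 ^ (L - (i + 1)) % 2 < 2 := Nat.mod_lt _ (by norm_num)
  by_cases h1 : G / 2 ^ (L - (i + 1)) % 2 = 1
  · rw [decide_eq_true ⟨by omega, Or.inr h1⟩, h1]
    rfl
  · rw [decide_eq_false (by
      rintro ⟨-, h3 | h3⟩
      · omega
      · exact h1 h3)]
    show 0 = _
    omega

theorem gF_end (L G : ℕ) : gF L G (2 * L) = false := by
  unfold gF
  exact decide_eq_false (by omega)

section

variable (D : LD) (P : List Ins) (w y : List Bool)

theorem conf_guess {L G : ℕ} (hG : G < 2 ^ L) {i : ℕ} (hi : i ≤ L) :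
    (mach D P).conf w y (gF L G) (2 * i) =
      (wd (sto 0 0 0 (G / 2 ^ (L - i)) 0), (mach D P).mem0 w y) := by
  induction i with
  | zero =>
    rw [Nat.sub_zero, Nat.div_eq_of_lt hG]
    rfl
  | succ i ih =>
    rw [show 2 * (i + 1) = 2 * i + 1 + 1 by ring, nconf_succ, nconf_succ, ih (by omega), step_p0,
      gF_even G (by omega)]
    simp only [if_true]
    rw [step_p1, gF_odd G (by omega)]
    have e1 : G / 2 ^ (L - i) = G / 2 ^ (L - (i + 1)) / 2 := by
      rw [Nat.div_div_eq_div_mul, ← pow_succ, show L - (i + 1) + 1 = L - i by omega]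
    rw [e1]
    have e2 : 2 * (G / 2 ^ (L - (i + 1)) / 2) + G / 2 ^ (L - (i + 1)) % 2 =
        G / 2 ^ (L - (i + 1)) := by omega
    rw [e2]

theorem conf_guess1 {L G : ℕ} (hG : G < 2 ^ L) {i : ℕ} (hi : i < L) :
    (mach D P).conf w y (gF L G) (2 * i + 1) =
      (wd (sto 0 1 0 (G / 2 ^ (L - i)) 0), (mach D P).mem0 w y) := by
  rw [nconf_succ, conf_guess D P w y hG hi.le, step_p0, gF_even G hi]
  simp only [if_true]

theorem conf_guessE {L G : ℕ} (hG : G < 2 ^ L) :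
    (mach D P).conf w y (gF L G) (2 * L + 1) =
      (wd (sto 0 2 G 0 0), (mach D P).mem0 w y) := by
  rw [nconf_succ, conf_guess D P w y hG le_rfl, step_p0, gF_end, Nat.sub_self, pow_zero,
    Nat.div_one]
  simp

/-- The states of the first phases. -/
def Early (G B : ℕ) (c : List Bool × (List Bool → List Bool)) : Prop :=
  ∃ ph p u l, ph ≤ 5 ∧ p ≤ G ∧ u ≤ G ∧ l ≤ B ∧ c = (wd (sto 0 ph p u 0),
    memF w y (parM P G) (2 ^ l) fun _ => 0) ∧ (2 ≤ ph → p = G ∧ u = 0)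

theorem early_guess {L G : ℕ} (B : ℕ) (hG : G < 2 ^ L) {t : ℕ} (ht : t ≤ 2 * L + 1) :
    Early P w y G B ((mach D P).conf w y (gF L G) t) := by
  have h0 : (mach D P).mem0 w y = memF w y (parM P G) (2 ^ 0) fun _ => 0 := mem0_eq D P w y _
  rcases Nat.even_or_odd' t with ⟨i, rfl | rfl⟩
  · rw [conf_guess D P w y hG (by omega), h0]
    exact ⟨0, 0, _, 0, by omega, by omega, Nat.div_le_self _ _, by omega, rfl, by omega⟩
  · rcases Nat.lt_or_ge i L with h | h
    · rw [conf_guess1 D P w y hG h, h0]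
      exact ⟨1, 0, _, 0, by omega, by omega, Nat.div_le_self _ _, by omega, rfl, by omega⟩
    · rw [show i = L by omega, conf_guessE D P w y hG, h0]
      exact ⟨2, G, 0, 0, by omega, le_rfl, by omega, by omega, rfl, fun _ => ⟨rfl, rfl⟩⟩

/-- The state after the verification of the length. -/
theorem conf_ver {L G : ℕ} (B : ℕ) (hG : G < 2 ^ L) (hn : parN G = w.length) :
    ∃ τ ≤ 2 * L + 3, (mach D P).conf w y (gF L G) τ =
      (wd (sto 0 4 G 0 0), memF w y (parM P G) (2 ^ 0) fun _ => 0) ∧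
      ∀ t < τ, Early P w y G B ((mach D P).conf w y (gF L G) t) := by
  have h0 : (mach D P).mem0 w y = memF w y (parM P G) (2 ^ 0) fun _ => 0 := mem0_eq D P w y _
  have h1 := conf_guessE D P w y hG
  rw [h0] at h1
  by_cases hn0 : parN G = 0
  · refine ⟨2 * L + 2, by omega, ?_, fun t ht => early_guess D P w y B hG (by omega)⟩
    rw [nconf_succ, h1, step_p2, if_pos (by omega), if_pos hn0]
  · have h2 : (mach D P).conf w y (gF L G) (2 * L + 2) =
        (wd (sto 0 3 G 0 0), memF w y (parM P G) (2 ^ 0) fun _ => 0) := by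
      rw [nconf_succ, h1, step_p2, if_pos (by omega), if_neg hn0]
    refine ⟨2 * L + 3, by omega, ?_, fun t ht => ?_⟩
    · rw [nconf_succ, h2, step_p3, if_pos (by omega)]
    · rcases Nat.lt_or_ge t (2 * L + 2) with h | h
      · exact early_guess D P w y B hG (by omega)
      · rw [show t = 2 * L + 2 by omega, h2]
        exact ⟨3, G, 0, 0, by omega, le_rfl, by omega, by omega, rfl, fun _ => ⟨rfl, rfl⟩⟩

theorem conf_dbl {g : ℕ → Bool} {G τ : ℕ} (h0 : (mach D P).conf w y g τ =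
      (wd (sto 0 4 G 0 0), memF w y (parM P G) (2 ^ 0) fun _ => 0)) {j : ℕ}
    (hj : ∀ i < j, okN P G (2 ^ (2 ^ i - 1)) = 0) :
    (mach D P).conf w y g (τ + 2 * j) =
      (wd (sto 0 4 G 0 0), memF w y (parM P G) (2 ^ (2 ^ j - 1)) fun _ => 0) := by
  induction j with
  | zero => exact h0
  | succ j ih =>
    have h1 := ih fun i hi => hj i (by omega)
    rw [show τ + 2 * (j + 1) = τ + 2 * j + 1 + 1 by ring, nconf_succ, nconf_succ, h1,
      step_p4 D P w y _ _ _ (by positivity), if_pos (hj j (by omega)), step_p5]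
    have h2 : 1 ≤ 2 ^ j := Nat.one_le_two_pow
    rw [show 2 * (2 ^ (2 ^ j - 1)) ^ 2 = 2 ^ (2 ^ (j + 1) - 1) by
      rw [← pow_mul, ← pow_succ']
      congr 1
      rw [pow_succ]
      omega]

theorem conf_dbl1 {g : ℕ → Bool} {G τ : ℕ} (h0 : (mach D P).conf w y g τ =
      (wd (sto 0 4 G 0 0), memF w y (parM P G) (2 ^ 0) fun _ => 0)) {j : ℕ}
    (hj : ∀ i ≤ j, okN P G (2 ^ (2 ^ i - 1)) = 0) :
    (mach D P).conf w y g (τ + 2 * j + 1) =
      (wd (sto 0 5 G 0 0), memF w y (parM P G) (2 ^ (2 ^ (j + 1) - 1)) fun _ => 0) := by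
  rw [nconf_succ, conf_dbl D P w y h0 fun i hi => hj i hi.le,
    step_p4 D P w y _ _ _ (by positivity), if_pos (hj j le_rfl)]
  have h2 : 1 ≤ 2 ^ j := Nat.one_le_two_pow
  rw [show 2 * (2 ^ (2 ^ j - 1)) ^ 2 = 2 ^ (2 ^ (j + 1) - 1) by
    rw [← pow_mul, ← pow_succ']
    congr 1
    rw [pow_succ]
    omega]

/-- **The first phases.** -/
theorem exists_init {L G B : ℕ} (hG : G < 2 ^ L) (hn : parN G = w.length) (hW : 4 ≤ parW G)
    (hB : parW G ^ parM P G ≤ 2 ^ B) (hB0 : 0 < B) :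
    ∃ τ l, (mach D P).conf w y (gF L G) τ =
      (wd (sto 0 6 G 0 0), memF w y (parM P G) (2 ^ l) fun _ => 0) ∧
      okN P G (2 ^ l) ≠ 0 ∧ l ≤ 2 * B ∧ τ ≤ 2 * L + 2 * Nat.log 2 B + 6 ∧
      ∀ t < τ, Early P w y G (2 * B) ((mach D P).conf w y (gF L G) t) := by
  obtain ⟨τ, h1, h2, h3⟩ := conf_ver D P w y (2 * B) hG hn
  have hex : okN P G (2 ^ (2 ^ (Nat.log 2 B + 1) - 1)) ≠ 0 := by
    rw [okN_ne, top_pow]
    refine ⟨hW, hB.trans (Nat.pow_le_pow_right (by norm_num) ?_)⟩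
    have := Nat.lt_pow_succ_log_self (b := 2) (by norm_num) B
    omega
  have hE : ∃ j, okN P G (2 ^ (2 ^ j - 1)) ≠ 0 := ⟨_, hex⟩
  classical
  set J := Nat.find hE with hJ
  have hJ1 : okN P G (2 ^ (2 ^ J - 1)) ≠ 0 := Nat.find_spec hE
  have hJ2 : ∀ i < J, okN P G (2 ^ (2 ^ i - 1)) = 0 := fun i hi =>
    not_not.1 (Nat.find_min hE hi)
  have hJ3 : J ≤ Nat.log 2 B + 1 := Nat.find_min' hE hex
  have hpow : ∀ j ≤ J, 2 ^ j ≤ 2 * B := by
    intro j hj
    calc 2 ^ j ≤ 2 ^ (Nat.log 2 B + 1) := Nat.pow_le_pow_right (by norm_num) (by omega)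
      _ = 2 * 2 ^ Nat.log 2 B := by rw [pow_succ]; ring
      _ ≤ 2 * B := Nat.mul_le_mul_left _ (Nat.pow_log_le_self 2 hB0.ne')
  refine ⟨τ + 2 * J + 1, 2 ^ J - 1, ?_, hJ1, ?_, by omega, fun t ht => ?_⟩
  · rw [nconf_succ, conf_dbl D P w y h2 hJ2, step_p4 D P w y _ _ _ (by positivity),
      if_neg hJ1]
  · have := hpow J le_rfl
    omega
  · rcases Nat.lt_or_ge t τ with h | h
    · exact h3 t h
    · obtain ⟨i, hi⟩ : ∃ i, t = τ + 2 * i ∨ t = τ + 2 * i + 1 := ⟨(t - τ) / 2, by omega⟩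
      rcases hi with rfl | rfl
      · rw [conf_dbl D P w y h2 fun j hj => hJ2 j (by omega)]
        have := hpow i (by omega)
        exact ⟨4, G, 0, _, by omega, le_rfl, by omega, by omega, rfl, fun _ => ⟨rfl, rfl⟩⟩
      · rw [conf_dbl1 D P w y h2 fun j hj => hJ2 j (by omega)]
        have := hpow (i + 1) (by omega)
        exact ⟨5, G, 0, _, by omega, le_rfl, by omega, by omega, rfl, fun _ => ⟨rfl, rfl⟩⟩

end

end Pool.Agent.Helper92.RF
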