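import Pool.Agent.Helper92.RF.Near

/-!
# Programs with few costly accesses as machines with messages: the machine

Phases: `0`, `1`: the numbers `n`, `m`, `W` are guessed; `2`, `3`: `n = |w|` is verified; `4`, `5`: the
register `[]` is made long enough; `6`: the near steps of the program are computed; `7`, `8`: a far
access, with or without a message; `9`: accepted; `10`: dead.
-/

namespace Pool.Agent.Helper92.RF

open Pool.Agent.Helper65.LinSpace Pool.Agent.Helper78.Mpc Pool.Agent.Helper28.Ram Finset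
open Pool.Agent.Helper81.Sus2
open Pool.Agent.Helper81.RP (Ins lett step AcceptsAt conf wd wf num_wd wd_num wf_eq linComp_wf
  length_wd ls_pair hd tl ls_hd ls_tl hd_eq tl_eq a0 a1 dst npc uu ls_a1 ls_dst
  ls_npc selF selF_eq ls_selF isA accF accF_le accF_eq_one ls_accF bd pc_le a0_le a1_le npc_le cst
  cst_le)
open Pool.Agent.Helper92.RE (LD inpL valL vvL step_eqL ls_valL lett_le lett_none lt_eq adr1 ls_adr1
  sto pO nO uO vO sto_pos pO_sto nO_sto uO_sto vO_sto ls_sto ls_pO ls_nO ls_uO ls_vO)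

/-! ### Parameters -/

/-- The guessed length. -/
def parN (p : ℕ) : ℕ := p.unpair.1

/-- The number of near registers. -/
def parM (P : List Ins) (p : ℕ) : ℕ := p.unpair.2.unpair.1 + (bd P + 1)

/-- The base. -/
def parW (p : ℕ) : ℕ := p.unpair.2.unpair.2 - 1 + 1

/-- The largest power of `2` which is at most `c`. -/
def top (c : ℕ) : ℕ := 2 ^ Nat.log 2 c

/-- `1` if the cell `c` is long enough for the near registers. -/
def okN (P : List Ins) (p c : ℕ) : ℕ :=
  lt01 3 (parW p) * (1 - lt01 (top c) (capPow (parW p) (parM P p) (top c)))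

/-- The base, or `1`. -/
def gW (P : List Ins) (p c : ℕ) : ℕ := ifz (okN P p c) 1 (parW p)

/-- The number of near registers, or `0`. -/
def gM (P : List Ins) (p c : ℕ) : ℕ := ifz (okN P p c) 0 (parM P p)

theorem parW_pos (p : ℕ) : 0 < parW p := Nat.succ_pos _

theorem top_pos (c : ℕ) : 0 < top c := by
  unfold top
  positivity

theorem gW_pos (P : List Ins) (p c : ℕ) : 0 < gW P p c := by
  unfold gW ifz
  split_ifs
  · exact Nat.one_pos
  · exact parW_pos p

theorem okN_ne {P : List Ins} {p c : ℕ} :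
    okN P p c ≠ 0 ↔ 4 ≤ parW p ∧ parW p ^ parM P p ≤ top c := by
  have h0 := top_pos c
  have h1 : capPow (parW p) (parM P p) (top c) ≤ top c ↔ parW p ^ parM P p ≤ top c := by
    unfold capPow
    omega
  unfold okN
  by_cases h3 : 3 < parW p
  · have e1 : lt01 3 (parW p) = 1 := by
      unfold lt01
      rw [if_pos h3]
    by_cases h4 : capPow (parW p) (parM P p) (top c) ≤ top c
    · have e2 : lt01 (top c) (capPow (parW p) (parM P p) (top c)) = 0 := by
        unfold lt01
        rw [if_neg (by omega)]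
      rw [e1, e2]
      exact ⟨fun _ => ⟨by omega, h1.1 h4⟩, fun _ => by norm_num⟩
    · have e2 : lt01 (top c) (capPow (parW p) (parM P p) (top c)) = 1 := by
        unfold lt01
        rw [if_pos (by omega)]
      rw [e1, e2]
      exact ⟨fun h => absurd rfl h, fun h => absurd (h1.2 h.2) h4⟩
  · have e1 : lt01 3 (parW p) = 0 := by
      unfold lt01
      rw [if_neg h3]
    rw [e1, zero_mul]
    exact ⟨fun h => absurd rfl h, fun h => absurd h.1 (by omega)⟩

theorem gpow (P : List Ins) (p c : ℕ) : gW P p c ^ gM P p c ≤ top c := by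
  unfold gW gM
  by_cases h : okN P p c = 0
  · rw [h, ifz_zero, ifz_zero, pow_zero]
    exact top_pos c
  · rw [ifz_ne h, ifz_ne h]
    exact (okN_ne.1 h).2

/-- The near registers, `N` being the number of the named registers and `c` the cell. -/
def iniN (P : List Ins) (p N c : ℕ) : ℕ :=
  tab (gW P p c) (gM P p c) fun i =>
    (ifz (lt01 i (bd P + 1)) (dig (gW P p c) (c - top c) i) (dig (gW P p c) N i)) % gW P p c

/-- The code at the end of the run. -/
def finN (P : List Ins) (p pc N c : ℕ) : ℕ :=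
  endN P (gW P p c) (gM P p c) (Nat.pair pc (iniN P p N c)) (top c)

/-- Not `0` if near registers which are not named have changed. -/
def dirty (P : List Ins) (W m V V' : ℕ) : ℕ :=
  ∑ i ∈ range m, lt01 (bd P) i * (1 - eq01 (dig W V i) (dig W V' i))

theorem dirty_eq_zero {P : List Ins} {W m V V' : ℕ} :
    dirty P W m V V' = 0 ↔ ∀ i < m, bd P < i → dig W V i = dig W V' i := by
  unfold dirty
  rw [sum_eq_zero_iff]
  refine forall_congr' fun i => ?_
  rw [mem_range]
  refine imp_congr_right fun _ => ?_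
  unfold lt01 eq01
  split_ifs <;> simp_all

/-- The named registers. -/
def namN (P : List Ins) (W V : ℕ) : ℕ := V % W ^ (bd P + 1)

/-- The state after the run: `acc` if the program accepts, phase `7` or `8` if it has a far access. -/
def resO (P : List Ins) (p pc N c κ : ℕ) (o : Option Ins) : ℕ :=
  ifz (isA o) (ifz (farN o (gM P p c) (uN o (gW P p c) κ.unpair.2)) (sto 0 10 0 0 0)
    (sto 0 (ifz (lt01 (dst o (uN o (gW P p c) κ.unpair.2)) (gM P p c)) 7
        (ifz (dirty P (gW P p c) (gM P p c) κ.unpair.2 (c - top c)) 8 7))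
      p (Nat.pair pc N) (Nat.pair κ.unpair.1 (namN P (gW P p c) κ.unpair.2))))
    (sto 1 9 0 0 0)

/-- The state after phase `6`. -/
def resN (P : List Ins) (p pc N c : ℕ) : ℕ :=
  selF (fun o (_ : ℕ) => resO P p pc N c (finN P p pc N c) o) P (finN P p pc N c).unpair.1 0

theorem resN_eq (P : List Ins) (p pc N c : ℕ) :
    resN P p pc N c = resO P p pc N c (finN P p pc N c) P[(finN P p pc N c).unpair.1]? := by
  unfold resN
  rw [selF_eq]

/-! ### The functions of the machine -/

/-- The name of the register which is read in a far access. -/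
def farA (D : LD) (o : Option Ins) (n u : ℕ) : ℕ :=
  ifz (inpL o) (2 * a1 o u + 1) (2 * bitsN (ifz (inpL o - 1) (adr1 D n u) u))

/-- The name of the register which is read. -/
def addrF (D : LD) (P : List Ins) (x : ℕ) : ℕ :=
  ifz (pO x - 1) 1 (ifz (pO x - 2) (2 * bitsN (parN (nO x))) (ifz (pO x - 3)
    (2 * bitsN (parN (nO x) - 1)) (ifz (pO x - 6) 1 (ifz (pO x - 8)
      (selF (fun o x => farA D o (parN (nO x)) (uN o (parW (nO x)) (vO x).unpair.2)) P
        (vO x).unpair.1 x) 1))))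

/-- The value which is read in a far access. -/
def farV (D : LD) (o : Option Ins) (n u t : ℕ) : ℕ :=
  ifz (inpL o) t (ifz (inpL o - 1) (D.lt n u (t % 3)) (t / 3))

/-- The state after a far access; `t + 1` is the number of the cell which is read. -/
def farR (D : LD) (P : List Ins) (p pc N t : ℕ) (o : Option Ins) : ℕ :=
  sto 0 6 p (npc o pc (uN o (parW p) N)) (setN (parW p) (bd P + 1) N (dst o (uN o (parW p) N))
    (valL o (uN o (parW p) N) (farV D o (parN p) (uN o (parW p) N) t)))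

/-- The new state, `x` being the number of the state, `b` the letter and `t` the number of the cell. -/
def nextG (D : LD) (P : List Ins) (x b t : ℕ) : ℕ :=
  ifz (pO x) (ifz b (sto 0 2 (uO x) 0 0) (sto 0 1 0 (uO x) 0))
  (ifz (pO x - 1) (sto 0 0 0 (2 * uO x + b) 0)
  (ifz (pO x - 2) (ifz ((t - 1) % 3) (sto 0 (ifz (parN (nO x)) 4 3) (nO x) 0 0) (sto 0 10 0 0 0))
  (ifz (pO x - 3) (ifz ((t - 1) % 3) (sto 0 10 0 0 0) (sto 0 4 (nO x) 0 0))
  (ifz (pO x - 4) (ifz (okN P (nO x) t) (sto 0 5 (nO x) 0 0) (sto 0 6 (nO x) 0 0))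
  (ifz (pO x - 5) (sto 0 4 (nO x) 0 0)
  (ifz (pO x - 6) (resN P (nO x) (uO x) (vO x) t)
  (ifz (pO x - 8) (selF (fun o (z : ℕ × ℕ) => farR D P (nO z.1) (vO z.1).unpair.1
    (vO z.1).unpair.2 (z.2 - 1) o) P (vO x).unpair.1 (x, t)) (sto 0 10 0 0 0))))))))

/-- The new state. -/
def nextF (D : LD) (P : List Ins) (x : ℕ) : ℕ := nextG D P (hd x) (tl x % 2) (tl x / 2)

/-- The new content of the far register with the name `i`. -/
def farW (P : List Ins) (p N i c : ℕ) (o : Option Ins) : ℕ :=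
  ifz (eq01 i (2 * dst o (uN o (parW p) N) + 1) * (1 - lt01 (dst o (uN o (parW p) N)) (parM P p)))
    c (rN o (parW p) N + 1)

/-- The new content, `x` being the number of the state, `i` that of the name, `c` that of the old
content. -/
def writeG (P : List Ins) (x i c : ℕ) : ℕ :=
  ifz (pO x - 5) (ifz (i - 1) (2 * c ^ 2) c)
    (ifz (i - 1) (top c + (finN P (nO x) (uO x).unpair.1 (uO x).unpair.2 c).unpair.2)
      (selF (fun o (z : ℕ × ℕ × ℕ) => farW P (nO z.1) (vO z.1).unpair.2 z.2.1 z.2.2 o) P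
        (vO x).unpair.1 (x, i, c)))

/-- The new content. -/
def writeF (P : List Ins) (x : ℕ) : ℕ := writeG P (hd x) (hd (tl x)) (tl (tl x))

section ls

variable {α : Type} [Ctx α]

theorem ls_parN {p : α → ℕ} (hp : LS p) : LS (fun a => parN (p a)) := by
  unfold parN
  fun_prop

theorem ls_parM (P : List Ins) {p : α → ℕ} (hp : LS p) : LS (fun a => parM P (p a)) := by
  unfold parM
  fun_prop

theorem ls_parW {p : α → ℕ} (hp : LS p) : LS (fun a => parW (p a)) := by
  unfold parW
  fun_prop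

theorem ls_top {c : α → ℕ} (hc : LS c) : LS (fun a => top (c a)) := LS.pow_log hc

theorem ls_okN (P : List Ins) {p c : α → ℕ} (hp : LS p) (hc : LS c) :
    LS (fun a => okN P (p a) (c a)) := by
  unfold okN
  have h1 := ls_parW hp
  have h2 := ls_parM P hp
  have h3 := ls_top hc
  have h4 := LS.capPow h1 h2 h3
  have h5 := LS.lt01 h3 h4
  have h6 := LS.lt01 (LS.const (α := α) 3) h1
  exact LS.mul h6 (LS.sub (LS.const 1) h5)

theorem ls_gW (P : List Ins) {p c : α → ℕ} (hp : LS p) (hc : LS c) :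
    LS (fun a => gW P (p a) (c a)) := by
  unfold gW
  exact LS.ifz (ls_okN P hp hc) (LS.const 1) (ls_parW hp)

theorem ls_gM (P : List Ins) {p c : α → ℕ} (hp : LS p) (hc : LS c) :
    LS (fun a => gM P (p a) (c a)) := by
  unfold gM
  exact LS.ifz (ls_okN P hp hc) (LS.const 0) (ls_parM P hp)

theorem ls_iniN (P : List Ins) {p N c : α → ℕ} (hp : LS p) (hN : LS N) (hc : LS c) :
    LS (fun a => iniN P (p a) (N a) (c a)) := by
  refine LS.tab (q := fun a => gW P (p a) (c a)) (m := fun a => gM P (p a) (c a))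
    (C := fun a => top (c a))
    (d := fun a i => (ifz (lt01 i (bd P + 1)) (dig (gW P (p a) (c a)) (c a - top (c a)) i)
      (dig (gW P (p a) (c a)) (N a) i)) % gW P (p a) (c a)) ?_ (ls_gW P hp hc) (ls_gM P hp hc)
    (ls_top hc) (fun a i _ => Nat.mod_lt _ (gW_pos P _ _)) fun a => gpow P _ _
  have e1 : LS (fun z : α × ℕ => gW P (p z.1) (c z.1)) :=
    LS.comp (g := fun a => gW P (p a) (c a)) (ls_gW P hp hc) (by fun_prop)
  have e2 : LS (fun z : α × ℕ => c z.1 - top (c z.1)) :=
    LS.comp (g := fun a => c a - top (c a)) (LS.sub hc (ls_top hc)) (by fun_prop)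
  have e3 : LS (fun z : α × ℕ => N z.1) := LS.comp (g := N) hN (by fun_prop)
  have e4 : LS (fun z : α × ℕ => z.2) := by fun_prop
  exact LS.mod (LS.ifz (LS.lt01 e4 (LS.const _)) (LS.dig e1 e2 e4) (LS.dig e1 e3 e4)) e1

theorem ls_finN (P : List Ins) {p pc N c : α → ℕ} (hp : LS p) (hpc : LS pc) (hN : LS N)
    (hc : LS c) : LS (fun a => finN P (p a) (pc a) (N a) (c a)) :=
  ls_endN P (ls_gW P hp hc) (ls_gM P hp hc) (ls_pair hpc (ls_iniN P hp hN hc)) (ls_top hc)
    (fun a => gW_pos P _ _) fun a => gpow P _ _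

theorem ls_dirty (P : List Ins) {W m V V' : α → ℕ} (hW : LS W) (hm : LS m) (hV : LS V)
    (hV' : LS V') : LS (fun a => dirty P (W a) (m a) (V a) (V' a)) := by
  refine LS.sum_le (N := m) (B := fun _ => 1)
    (f := fun a i => lt01 (bd P) i * (1 - eq01 (dig (W a) (V a) i) (dig (W a) (V' a) i))) ?_ hm
    (LS.const 1) fun a i _ => ?_
  · have e1 : LS (fun z : α × ℕ => W z.1) := LS.comp (g := W) hW (by fun_prop)
    have e2 : LS (fun z : α × ℕ => V z.1) := LS.comp (g := V) hV (by fun_prop)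
    have e3 : LS (fun z : α × ℕ => V' z.1) := LS.comp (g := V') hV' (by fun_prop)
    have e4 : LS (fun z : α × ℕ => z.2) := by fun_prop
    exact LS.mul (LS.lt01 (LS.const _) e4) (LS.sub (LS.const 1)
      (LS.eq01 (LS.dig e1 e2 e4) (LS.dig e1 e3 e4)))
  · unfold lt01 eq01
    split_ifs <;> norm_num

theorem ls_namN (P : List Ins) {W V : α → ℕ} (hW : LS W) (hV : LS V) :
    LS (fun a => namN P (W a) (V a)) := by
  unfold namN
  exact LS.mod hV (LS.pow_const hW _)

theorem ls_resO (P : List Ins) {p pc N c κ : α → ℕ} (hp : LS p) (hpc : LS pc) (hN : LS N)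
    (hc : LS c) (hκ : LS κ) (o : Option Ins) :
    LS (fun a => resO P (p a) (pc a) (N a) (c a) (κ a) o) := by
  unfold resO
  have hW := ls_gW P hp hc
  have hM := ls_gM P hp hc
  have hV : LS (fun a => (κ a).unpair.2) := by fun_prop
  have hq : LS (fun a => (κ a).unpair.1) := by fun_prop
  have hu := ls_uN o hW hV
  have hd1 := ls_dst o hu
  have hd2 := ls_dirty P hW hM hV (LS.sub hc (ls_top hc))
  have hph : LS (fun a => ifz (lt01 (dst o (uN o (gW P (p a) (c a)) (κ a).unpair.2))
      (gM P (p a) (c a))) 7 (ifz (dirty P (gW P (p a) (c a)) (gM P (p a) (c a)) (κ a).unpair.2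
        (c a - top (c a))) 8 7)) :=
    LS.ifz (LS.lt01 hd1 hM) (LS.const 7) (LS.ifz hd2 (LS.const 8) (LS.const 7))
  exact LS.ifz (LS.const _) (LS.ifz (ls_farN o hM hu) (LS.const _)
    (ls_sto (LS.const 0) hph hp (ls_pair hpc hN) (ls_pair hq (ls_namN P hW hV)))) (LS.const _)

theorem ls_resN (P : List Ins) {p pc N c : α → ℕ} (hp : LS p) (hpc : LS pc) (hN : LS N)
    (hc : LS c) : LS (fun a => resN P (p a) (pc a) (N a) (c a)) := by
  have hκ := ls_finN P hp hpc hN hc
  have h := ls_selF (α := α)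
    (G := fun o a => resO P (p a) (pc a) (N a) (c a) (finN P (p a) (pc a) (N a) (c a)) o)
    (fun o => ls_resO P hp hpc hN hc hκ o) P
    (pc := fun a => (finN P (p a) (pc a) (N a) (c a)).unpair.1) (by fun_prop)
  refine LS.congr h fun a => ?_
  rw [resN_eq, selF_eq]

theorem ls_farA (D : LD) (o : Option Ins) {n u : α → ℕ} (hn : LS n) (hu : LS u) :
    LS (fun a => farA D o (n a) (u a)) := by
  unfold farA
  have h1 := ls_a1 o hu
  have h2 := LS.bitsN (LS.ifz (LS.const (α := α) (inpL o - 1)) (ls_adr1 D hn hu) hu)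
  exact LS.ifz (LS.const _) (by fun_prop) (LS.mul (LS.const 2) h2)

theorem ls_farV (D : LD) (o : Option Ins) {n u t : α → ℕ} (hn : LS n) (hu : LS u) (ht : LS t) :
    LS (fun a => farV D o (n a) (u a) (t a)) := by
  unfold farV
  have h1 := D.ls_lt' hn hu (x := fun a => t a % 3) (by fun_prop)
  exact LS.ifz (LS.const _) ht (LS.ifz (LS.const _) h1 (by fun_prop))

theorem ls_farR (D : LD) (P : List Ins) {p pc N t : α → ℕ} (hp : LS p) (hpc : LS pc) (hN : LS N)
    (ht : LS t) (o : Option Ins) : LS (fun a => farR D P (p a) (pc a) (N a) (t a) o) := by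
  unfold farR
  have hW := ls_parW hp
  have hu := ls_uN o hW hN
  have hv := ls_farV D o (ls_parN hp) hu ht
  have hs := ls_setN hW (LS.const (α := α) (bd P + 1)) hN (ls_dst o hu) (ls_valL o hu hv)
    (B := fun a => parW (p a) ^ (bd P + 1)) (LS.pow_const hW _) (fun a => parW_pos _)
    fun a => le_rfl
  exact ls_sto (LS.const 0) (LS.const 6) hp (ls_npc o hpc hu) hs

theorem ls_farW (P : List Ins) {p N i c : α → ℕ} (hp : LS p) (hN : LS N) (hi : LS i) (hc : LS c)
    (o : Option Ins) : LS (fun a => farW P (p a) (N a) (i a) (c a) o) := by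
  unfold farW
  have hW := ls_parW hp
  have hM := ls_parM P hp
  have hd := ls_dst o (ls_uN o hW hN)
  have hr := ls_rN o hW hN
  exact LS.ifz (LS.mul (LS.eq01 hi (by fun_prop)) (LS.sub (LS.const 1) (LS.lt01 hd hM))) hc
    (by fun_prop)

end ls

theorem ls_addrF (D : LD) (P : List Ins) : LS (addrF D P) := by
  have hp : LS (fun x : ℕ => pO x) := ls_pO (by fun_prop)
  have hn : LS (fun x : ℕ => parN (nO x)) := ls_parN (ls_nO (by fun_prop))
  have hW : LS (fun x : ℕ => parW (nO x)) := ls_parW (ls_nO (by fun_prop))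
  have hv : LS (fun x : ℕ => vO x) := ls_vO (by fun_prop)
  have hv1 : LS (fun x : ℕ => (vO x).unpair.1) := by fun_prop
  have hv2 : LS (fun x : ℕ => (vO x).unpair.2) := by fun_prop
  have h1 : LS (fun x : ℕ => 2 * bitsN (parN (nO x))) := LS.mul (LS.const 2) (LS.bitsN hn)
  have h2 : LS (fun x : ℕ => 2 * bitsN (parN (nO x) - 1)) :=
    LS.mul (LS.const 2) (LS.bitsN (by fun_prop))
  have h3 := ls_selF (α := ℕ)
    (G := fun o x => farA D o (parN (nO x)) (uN o (parW (nO x)) (vO x).unpair.2))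
    (fun o => ls_farA D o hn (ls_uN o hW hv2)) P hv1
  exact LS.ifz (by fun_prop) (LS.const 1) (LS.ifz (by fun_prop) h1 (LS.ifz (by fun_prop) h2
    (LS.ifz (by fun_prop) (LS.const 1) (LS.ifz (by fun_prop) h3 (LS.const 1)))))

theorem ls_nextF (D : LD) (P : List Ins) : LS (nextF D P) := by
  have hh := ls_hd
  have ht := ls_tl
  have hp : LS (fun x : ℕ => pO (hd x)) := ls_pO hh
  have hn : LS (fun x : ℕ => nO (hd x)) := ls_nO hh
  have hu : LS (fun x : ℕ => uO (hd x)) := ls_uO hh
  have hv : LS (fun x : ℕ => vO (hd x)) := ls_vO hh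
  have hb : LS (fun x : ℕ => tl x % 2) := LS.mod ht (LS.const 2)
  have hc : LS (fun x : ℕ => tl x / 2) := LS.div ht (LS.const 2)
  have hr : LS (fun x : ℕ => (tl x / 2 - 1) % 3) := by fun_prop
  have hv1 : LS (fun x : ℕ => (vO (hd x)).unpair.1) := by fun_prop
  have z : LS (fun _ : ℕ => 0) := LS.const 0
  have dd : LS (fun _ : ℕ => sto 0 10 0 0 0) := LS.const _
  have k0 := LS.ifz hb (ls_sto z (LS.const 2) hu z z) (ls_sto z (LS.const 1) z hu z)
  have k1 := ls_sto z z z (LS.add (LS.mul (LS.const 2) hu) hb) z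
  have k2 := LS.ifz hr (ls_sto z (LS.ifz (ls_parN hn) (LS.const 4) (LS.const 3)) hn z z) dd
  have k3 := LS.ifz hr dd (ls_sto z (LS.const 4) hn z z)
  have k4 := LS.ifz (ls_okN P hn hc) (ls_sto z (LS.const 5) hn z z)
    (ls_sto z (LS.const 6) hn z z)
  have k5 := ls_sto z (LS.const 4) hn z z
  have k6 := ls_resN P hn hu hv hc
  have hz1 : LS (fun q : ℕ × ℕ => nO q.1) := ls_nO (by fun_prop)
  have hz2 : LS (fun q : ℕ × ℕ => (vO q.1).unpair.1) := by
    have := ls_vO (f := fun q : ℕ × ℕ => q.1) (by fun_prop)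
    fun_prop
  have hz3 : LS (fun q : ℕ × ℕ => (vO q.1).unpair.2) := by
    have := ls_vO (f := fun q : ℕ × ℕ => q.1) (by fun_prop)
    fun_prop
  have k7 := ls_selF (α := ℕ × ℕ) (G := fun o z => farR D P (nO z.1) (vO z.1).unpair.1
    (vO z.1).unpair.2 (z.2 - 1) o) (fun o => ls_farR D P hz1 hz2 hz3 (by fun_prop) o) P hz2
  have k8 : LS (fun x : ℕ => selF (fun o (z : ℕ × ℕ) => farR D P (nO z.1) (vO z.1).unpair.1
      (vO z.1).unpair.2 (z.2 - 1) o) P (vO (hd x)).unpair.1 (hd x, tl x / 2)) :=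
    LS.comp (g := fun z : ℕ × ℕ => selF (fun o (z : ℕ × ℕ) => farR D P (nO z.1)
      (vO z.1).unpair.1 (vO z.1).unpair.2 (z.2 - 1) o) P (vO z.1).unpair.1 z)
      (f := fun x : ℕ => (hd x, tl x / 2)) k7 (by fun_prop)
  exact LS.ifz hp k0 (LS.ifz (by fun_prop) k1 (LS.ifz (by fun_prop) k2 (LS.ifz (by fun_prop) k3
    (LS.ifz (by fun_prop) k4 (LS.ifz (by fun_prop) k5 (LS.ifz (by fun_prop) k6
      (LS.ifz (by fun_prop) k8 dd)))))))

theorem ls_writeF (P : List Ins) : LS (writeF P) := by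
  have hh := ls_hd
  have ht := ls_tl
  have hi : LS (fun x : ℕ => hd (tl x)) := LS.comp (g := hd) hh ht
  have hc : LS (fun x : ℕ => tl (tl x)) := LS.comp (g := tl) ht ht
  have hp : LS (fun x : ℕ => pO (hd x)) := ls_pO hh
  have hn : LS (fun x : ℕ => nO (hd x)) := ls_nO hh
  have hu : LS (fun x : ℕ => uO (hd x)) := ls_uO hh
  have k1 : LS (fun x : ℕ => 2 * (tl (tl x)) ^ 2) := LS.mul (LS.const 2) (LS.pow_const hc 2)
  have hf := ls_finN P hn (pc := fun x => (uO (hd x)).unpair.1) (by fun_prop)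
    (N := fun x => (uO (hd x)).unpair.2) (by fun_prop) hc
  have hf2 : LS (fun x : ℕ => (finN P (nO (hd x)) (uO (hd x)).unpair.1 (uO (hd x)).unpair.2
    (tl (tl x))).unpair.2) := by fun_prop
  have k2 := LS.add (ls_top hc) hf2
  have hz1 : LS (fun q : ℕ × ℕ × ℕ => nO q.1) := ls_nO (by fun_prop)
  have hz2 : LS (fun q : ℕ × ℕ × ℕ => (vO q.1).unpair.1) := by
    have := ls_vO (f := fun q : ℕ × ℕ × ℕ => q.1) (by fun_prop)
    fun_prop
  have hz3 : LS (fun q : ℕ × ℕ × ℕ => (vO q.1).unpair.2) := by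
    have := ls_vO (f := fun q : ℕ × ℕ × ℕ => q.1) (by fun_prop)
    fun_prop
  have k7 := ls_selF (α := ℕ × ℕ × ℕ)
    (G := fun o z => farW P (nO z.1) (vO z.1).unpair.2 z.2.1 z.2.2 o)
    (fun o => ls_farW P hz1 hz3 (by fun_prop) (by fun_prop) o) P hz2
  have k8 : LS (fun x : ℕ => selF (fun o (z : ℕ × ℕ × ℕ) => farW P (nO z.1) (vO z.1).unpair.2
      z.2.1 z.2.2 o) P (vO (hd x)).unpair.1 (hd x, hd (tl x), tl (tl x))) :=
    LS.comp (g := fun z : ℕ × ℕ × ℕ => selF (fun o (z : ℕ × ℕ × ℕ) => farW P (nO z.1)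
      (vO z.1).unpair.2 z.2.1 z.2.2 o) P (vO z.1).unpair.1 z)
      (f := fun x : ℕ => (hd x, hd (tl x), tl (tl x))) k7 (by fun_prop)
  have hi1 : LS (fun x : ℕ => hd (tl x) - 1) := LS.sub hi (LS.const 1)
  exact LS.ifz (by fun_prop) (LS.ifz hi1 k1 hc) (LS.ifz hi1 k2 k8)

/-- The machine with messages which runs the program on the words `F w` and `y`. -/
noncomputable def mach (D : LD) (P : List Ins) : NBM where
  start := wd (sto 0 0 0 0 0)
  init a b := wd (1 + lett a + 3 * lett b)
  addr := wf (addrF D P)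
  next := wf (nextF D P)
  write := wf (writeF P)
  ask u := decide (pO (num u) < 2)
  msg u := decide (pO (num u) = 5 ∨ pO (num u) = 7)
  reset _ := false
  addr_lin := linComp_wf (ls_addrF D P)
  next_lin := linComp_wf (ls_nextF D P)
  write_lin := linComp_wf (ls_writeF P)
  ask_lin := by
    have hp : LS (fun x : ℕ => pO x) := ls_pO (by fun_prop)
    refine Pool.Agent.Helper31.TMS.linComp_of_ls (F := fun x => 2 + lt01 (pO x) 2)
      (by fun_prop) fun u => ?_
    unfold lt01
    by_cases h : pO (num u) < 2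
    · simp [h, num]
    · simp [h, num]
  msg_lin := by
    have hp : LS (fun x : ℕ => pO x) := ls_pO (by fun_prop)
    refine Pool.Agent.Helper31.TMS.linComp_of_ls
      (F := fun x => 2 + (eq01 (pO x) 5 + eq01 (pO x) 7)) (by fun_prop) fun u => ?_
    unfold eq01
    by_cases h : pO (num u) = 5
    · simp [h, num]
    · by_cases h' : pO (num u) = 7
      · simp [h', num]
      · simp [h, h', num]
  reset_lin := Pool.Agent.Helper31.TMS.linComp_of_ls (F := fun _ => 2) (LS.const 2) fun _ => rfl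

end Pool.Agent.Helper92.RF
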