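import Pool.Agent.Helper92.RE.Sim

/-!
# The memory of the machine
-/

namespace Pool.Agent.Helper92.RF

open Pool.Agent.Helper65.LinSpace Pool.Agent.Helper78.Mpc Pool.Agent.Helper28.Ram
open Pool.Agent.Helper81.RP (lett wd wd_one head_name num_wd wd_num wd_cons_false)

/-- The memory of the machine: the register `[]` contains the word with the number `cw` (the near
registers of the program), the register `1 u` contains the register `num u ≥ m` of the program, or
nothing. -/
noncomputable def memF (w y : List Bool) (m cw : ℕ) (R : ℕ → ℕ) : List Bool → List Bool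
  | [] => wd cw
  | false :: u => wd (1 + lett w[bval u]? + 3 * lett y[bval u]?)
  | true :: u => if num u < m then [] else wd (R (num u) + 1)

theorem memF_one (w y : List Bool) (m cw : ℕ) (R : ℕ → ℕ) : memF w y m cw R (wd 1) = wd cw := by
  rw [wd_one]
  rfl

theorem memF_letter (w y : List Bool) (m cw : ℕ) (R : ℕ → ℕ) (u : ℕ) :
    num (memF w y m cw R (wd (2 * bitsN u))) = lett w[u]? + 3 * lett y[u]? + 1 := by
  rw [wd_cons_false _ (by rw [bitsN_eq]; exact num_pos _), bitsN_eq, wd_num]
  show num (wd (1 + lett w[bval u.bits]? + 3 * lett y[bval u.bits]?)) = _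
  rw [Pool.Agent.Helper31.TMS.bval_bits, num_wd (by omega)]
  ring

theorem memF_num (w y : List Bool) {m : ℕ} (cw : ℕ) (R : ℕ → ℕ) {i : List Bool}
    (hi : i.head? ≠ some false) : memF w y m cw R i = if num i = 1 then wd cw else
      if num i / 2 < m then [] else wd (R (num i / 2) + 1) := by
  rcases i with _ | ⟨b, u⟩
  · rfl
  · cases b
    · exact absurd rfl hi
    · have h0 : num (true :: u) = 1 + 2 * num u := by
        show true.toNat + 2 * num u = _
        rw [Bool.toNat_true]
      have h1 := num_pos u
      rw [if_neg (by omega), show num (true :: u) / 2 = num u by omega]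
      rfl

theorem memF_far (w y : List Bool) {m : ℕ} (hm : 0 < m) (cw : ℕ) (R : ℕ → ℕ) {i : ℕ}
    (hi : m ≤ i) : memF w y m cw R (wd (2 * i + 1)) = wd (R i + 1) := by
  rw [memF_num w y cw R (head_name i), num_wd (by omega), if_neg (by omega),
    show (2 * i + 1) / 2 = i by omega, if_neg (by omega)]

theorem memF_congr (w y : List Bool) {m : ℕ} (cw : ℕ) {R R' : ℕ → ℕ}
    (h : ∀ i, m ≤ i → R i = R' i) : memF w y m cw R = memF w y m cw R' := by
  funext i
  rcases i with _ | ⟨b, u⟩
  · rfl
  · cases b
    · rfl
    · show (if num u < m then [] else wd (R (num u) + 1)) =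
        if num u < m then [] else wd (R' (num u) + 1)
      by_cases h1 : num u < m
      · rw [if_pos h1, if_pos h1]
      · rw [if_neg h1, if_neg h1, h _ (by omega)]

/-- The memory at the start. -/
theorem memF_zero (w y : List Bool) (m : ℕ) (i : List Bool) : memF w y m 1 (fun _ => 0) i =
    match i with
    | false :: u => wd (1 + lett w[bval u]? + 3 * lett y[bval u]?)
    | _ => [] := by
  rcases i with _ | ⟨b, u⟩
  · exact wd_one
  · cases b
    · rfl
    · show (if num u < m then [] else wd (0 + 1)) = []
      rw [zero_add, wd_one, ite_self]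

end Pool.Agent.Helper92.RF
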