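import Pool.Agent.Helper92.RF.Mach
import Pool.Agent.Helper92.RF.Mem

/-!
# Programs with few costly accesses as machines with messages: one step
-/

namespace Pool.Agent.Helper92.RF

open Pool.Agent.Helper65.LinSpace Pool.Agent.Helper78.Mpc Pool.Agent.Helper28.Ram Finset
open Pool.Agent.Helper81.Sus2
open Pool.Agent.Helper81.RP (Ins lett step AcceptsAt conf wd wf num_wd wd_num wf_eq linComp_wf
  length_wd ls_pair hd tl ls_hd ls_tl hd_eq tl_eq a0 a1 dst npc uu ls_a1 ls_dst
  ls_npc selF selF_eq ls_selF isA accF accF_le accF_eq_one ls_accF bd pc_le a0_le a1_le npc_le cst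
  cst_le wd_one head_name wd_cons_false hd_read step_of head_wd conf_succ)
open Pool.Agent.Helper92.RE (LD inpL valL vvL step_eqL ls_valL lett_le lett_none lt_eq adr1 ls_adr1
  sto pO nO uO vO sto_pos pO_sto nO_sto uO_sto vO_sto ls_sto ls_pO ls_nO ls_uO ls_vO)

/-! ### Positivity -/

theorem ifz_pos {a b c : ℕ} (hb : 0 < b) (hc : 0 < c) : 0 < ifz a b c := by
  unfold ifz
  split_ifs
  · exact hb
  · exact hc

theorem resO_pos (P : List Ins) (p pc N c κ : ℕ) (o : Option Ins) : 0 < resO P p pc N c κ o :=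
  ifz_pos (ifz_pos (sto_pos _ _ _ _ _) (sto_pos _ _ _ _ _)) (sto_pos _ _ _ _ _)

theorem nextG_pos (D : LD) (P : List Ins) (x b t : ℕ) : 0 < nextG D P x b t := by
  unfold nextG
  refine ifz_pos (ifz_pos (sto_pos _ _ _ _ _) (sto_pos _ _ _ _ _)) (ifz_pos (sto_pos _ _ _ _ _)
    (ifz_pos (ifz_pos (sto_pos _ _ _ _ _) (sto_pos _ _ _ _ _))
    (ifz_pos (ifz_pos (sto_pos _ _ _ _ _) (sto_pos _ _ _ _ _))
    (ifz_pos (ifz_pos (sto_pos _ _ _ _ _) (sto_pos _ _ _ _ _))
    (ifz_pos (sto_pos _ _ _ _ _) (ifz_pos ?_ (ifz_pos ?_ (sto_pos _ _ _ _ _))))))))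
  · rw [resN_eq]
    exact resO_pos _ _ _ _ _ _ _
  · rw [selF_eq]
    exact sto_pos _ _ _ _ _

theorem bitsN_pos (u : ℕ) : 0 < bitsN u := by
  rw [bitsN_eq]
  exact num_pos _

theorem addrF_pos (D : LD) (P : List Ins) (x : ℕ) : 0 < addrF D P x := by
  unfold addrF
  refine ifz_pos Nat.one_pos (ifz_pos (Nat.mul_pos (by norm_num) (bitsN_pos _))
    (ifz_pos (Nat.mul_pos (by norm_num) (bitsN_pos _)) (ifz_pos Nat.one_pos (ifz_pos ?_
      Nat.one_pos))))
  rw [selF_eq]
  exact ifz_pos (Nat.succ_pos _) (Nat.mul_pos (by norm_num) (bitsN_pos _))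

section

variable (D : LD) (P : List Ins)

theorem ask_wd {x : ℕ} (hx : 0 < x) : (mach D P).ask (wd x) = decide (pO x < 2) := by
  show decide (pO (num (wd x)) < 2) = _
  rw [num_wd hx]

theorem msg_wd {x : ℕ} (hx : 0 < x) : (mach D P).msg (wd x) = decide (pO x = 5 ∨ pO x = 7) := by
  show decide (pO (num (wd x)) = 5 ∨ pO (num (wd x)) = 7) = _
  rw [num_wd hx]

/-- One step. -/
theorem step_gen {x : ℕ} (hx : 0 < x) (b : Bool) (M : List Bool → List Bool) :
    (mach D P).step b (wd x, M) =
      (wd (nextG D P x (decide (pO x < 2) && b).toNat (num (M (wd (addrF D P x))))), fun i =>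
        (mach D P).upd (wd (nextG D P x (decide (pO x < 2) && b).toNat
          (num (M (wd (addrF D P x)))))) i (M i)) := by
  have haddr : (mach D P).addr (wd x) = wd (addrF D P x) :=
    wf_eq (by rw [num_wd hx]) (addrF_pos D P x)
  refine step_of ?_
  rw [haddr, ask_wd D P hx]
  refine wf_eq ?_ (nextG_pos _ _ _ _ _)
  unfold nextF
  have h1 : tl (num (sd (wd x) ++ (decide (pO x < 2) && b) :: M (wd (addrF D P x)))) =
      (decide (pO x < 2) && b).toNat + 2 * num (M (wd (addrF D P x))) := tl_eq _ _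
  have h2 : (decide (pO x < 2) && b).toNat ≤ 1 := toNat_le_one _
  rw [hd_read hx, h1]
  generalize (decide (pO x < 2) && b).toNat = b' at h2 ⊢
  congr 1 <;> omega

/-- One step without guessed letter. -/
theorem step_det {x : ℕ} (hx : 0 < x) (hp : 2 ≤ pO x) (b : Bool) (M : List Bool → List Bool) :
    (mach D P).step b (wd x, M) =
      (wd (nextG D P x 0 (num (M (wd (addrF D P x))))), fun i =>
        (mach D P).upd (wd (nextG D P x 0 (num (M (wd (addrF D P x)))))) i (M i)) := by
  rw [step_gen D P hx]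
  have h1 : decide (pO x < 2) = false := by
    rw [decide_eq_false_iff_not]
    omega
  rw [h1]
  rfl

/-- A state which is no message does not change the memory. -/
theorem upd_silent {x : ℕ} (hx : 0 < x) (h5 : pO x ≠ 5) (h7 : pO x ≠ 7)
    (M : List Bool → List Bool) : (fun i => (mach D P).upd (wd x) i (M i)) = M := by
  funext i
  unfold NBM.upd
  rw [msg_wd D P hx]
  simp [h5, h7]

theorem upd_read {x : ℕ} (u c : List Bool) :
    (mach D P).upd (wd x) (false :: u) c = c := by
  unfold NBM.upd
  simp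

theorem upd_msg {x : ℕ} (hx : 0 < x) (h : pO x = 5 ∨ pO x = 7) {i : List Bool}
    (hi : i.head? ≠ some false) (c : List Bool) :
    (mach D P).upd (wd x) i c = wd (writeG P x (num i) (num c) - 1 + 1) := by
  unfold NBM.upd
  rw [msg_wd D P hx, if_pos ⟨decide_eq_true h, hi⟩]
  show wf (writeF P) (sd (wd x) ++ (sd i ++ c)) = _
  unfold wf writeF
  rw [hd_read hx, tl_eq, hd_eq, tl_eq]

end

/-! ### The cell -/

theorem log_top_add {c V : ℕ} (h : V < top c) : Nat.log 2 (top c + V) = Nat.log 2 c := by
  unfold top at h ⊢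
  rw [Nat.log_eq_iff (Or.inr ⟨by norm_num, by positivity⟩)]
  exact ⟨Nat.le_add_right _ _, by rw [pow_succ]; omega⟩

theorem top_top_add {c V : ℕ} (h : V < top c) : top (top c + V) = top c := by
  unfold top at h ⊢
  rw [show Nat.log 2 (2 ^ Nat.log 2 c + V) = Nat.log 2 c from log_top_add h]

theorem top_pow (k : ℕ) : top (2 ^ k) = 2 ^ k := by
  unfold top
  rw [Nat.log_pow (by norm_num)]

theorem okN_congr {P : List Ins} {p c c' : ℕ} (h : top c = top c') : okN P p c = okN P p c' := by
  unfold okN
  rw [h]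

/-! ### The two messages -/

section

variable (D : LD) (P : List Ins) (w y : List Bool)

theorem upd_five (p m : ℕ) {cw : ℕ} (hc : 0 < cw) (R : ℕ → ℕ) :
    (fun i => (mach D P).upd (wd (sto 0 5 p 0 0)) i (memF w y m cw R i)) =
      memF w y m (2 * cw ^ 2) R := by
  funext i
  by_cases hi : i.head? = some false
  · rcases i with _ | ⟨b, u⟩
    · simp at hi
    · simp only [List.head?_cons, Option.some.injEq] at hi
      subst hi
      exact upd_read D P _ _
  · have e1 := pO_sto (f := 0) (by omega) 5 p 0 0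
    rw [upd_msg D P (sto_pos _ _ _ _ _) (Or.inl e1) hi, memF_num w y (2 * cw ^ 2) R hi]
    unfold writeG
    have h1 := num_pos i
    rw [e1, Nat.sub_self, ifz_zero]
    by_cases h : num i = 1
    · rw [h, Nat.sub_self, ifz_zero, if_pos rfl, memF_num w y cw R hi, if_pos h, num_wd hc]
      have : 0 < 2 * cw ^ 2 := by positivity
      rw [Nat.sub_add_cancel this]
    · rw [ifz_ne (by omega), if_neg h, Nat.sub_add_cancel (num_pos _), wd_num,
        memF_num w y cw R hi, if_neg h]

theorem upd_seven (p a b pc N m : ℕ) {cw : ℕ} (hm : m = parM P p) (hm0 : 0 < m) (hc : 0 < cw)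
    (R : ℕ → ℕ) :
    (fun i => (mach D P).upd (wd (sto 0 7 p (Nat.pair a b) (Nat.pair pc N))) i
      (memF w y m cw R i)) = memF w y m (top cw + (finN P p a b cw).unpair.2)
        (if m ≤ dst P[pc]? (uN P[pc]? (parW p) N) then
          Function.update R (dst P[pc]? (uN P[pc]? (parW p) N)) (rN P[pc]? (parW p) N) else R) := by
  funext i
  by_cases hi : i.head? = some false
  · rcases i with _ | ⟨b, u⟩
    · simp at hi
    · simp only [List.head?_cons, Option.some.injEq] at hi
      subst hi
      exact upd_read D P _ _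
  · have e1 := pO_sto (f := 0) (by omega) 7 p (Nat.pair a b) (Nat.pair pc N)
    have e2 := nO_sto (f := 0) (by omega) 7 p (Nat.pair a b) (Nat.pair pc N)
    have e3 := uO_sto (f := 0) (by omega) 7 p (Nat.pair a b) (Nat.pair pc N)
    have e4 := vO_sto (f := 0) (by omega) 7 p (Nat.pair a b) (Nat.pair pc N)
    rw [upd_msg D P (sto_pos _ _ _ _ _) (Or.inr e1) hi]
    unfold writeG
    have h1 := num_pos i
    have hodd : num i % 2 = 1 := by
      rcases i with _ | ⟨b', u'⟩
      · rfl
      · cases b'
        · exact absurd rfl hi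
        · show (true.toNat + 2 * num u') % 2 = 1
          rw [Bool.toNat_true]
          omega
    rw [e1, e2, e3, e4, Nat.unpair_pair, Nat.unpair_pair, ifz_ne (by norm_num)]
    dsimp only
    rw [selF_eq]
    rw [memF_num w y cw R hi, memF_num w y _ _ hi]
    by_cases h : num i = 1
    · rw [if_pos h, if_pos h, h, Nat.sub_self, ifz_zero, num_wd hc]
      have := top_pos cw
      rw [Nat.sub_add_cancel (by omega)]
    · rw [ifz_ne (by omega), if_neg h, if_neg h]
      unfold farW
      rw [e2, e4, Nat.unpair_pair]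
      dsimp only
      rw [← hm]
      set d := dst P[pc]? (uN P[pc]? (parW p) N) with hd'
      by_cases hd1 : num i = 2 * d + 1
      · by_cases hd2 : m ≤ d
        · have e5 : eq01 (num i) (2 * d + 1) * (1 - lt01 d m) = 1 := by
            unfold eq01 lt01
            rw [if_pos hd1, if_neg (by omega)]
          rw [e5, ifz_ne one_ne_zero, if_pos hd2, if_neg (by omega),
            show num i / 2 = d by omega, Function.update_self, Nat.add_sub_cancel]
        · have e5 : eq01 (num i) (2 * d + 1) * (1 - lt01 d m) = 0 := by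
            unfold lt01
            rw [if_pos (by omega)]
            simp
          rw [e5, ifz_zero, Nat.sub_add_cancel (num_pos _), wd_num, if_neg hd2]
      · have e5 : eq01 (num i) (2 * d + 1) * (1 - lt01 d m) = 0 := by
          unfold eq01
          rw [if_neg hd1, zero_mul]
        rw [e5, ifz_zero, Nat.sub_add_cancel (num_pos _), wd_num]
        by_cases hd2 : m ≤ d
        · rw [if_pos hd2, Function.update_of_ne (by omega)]
        · rw [if_neg hd2]

end

end Pool.Agent.Helper92.RF
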