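import Pool.Agent.Helper92.RF.Sim

/-!
# Programs with few costly accesses as machines with messages: the phases
-/

namespace Pool.Agent.Helper92.RF

open Pool.Agent.Helper65.LinSpace Pool.Agent.Helper78.Mpc Pool.Agent.Helper28.Ram Finset
open Pool.Agent.Helper81.Sus2
open Pool.Agent.Helper81.RP (Ins lett step AcceptsAt conf wd wf num_wd wd_num wf_eq linComp_wf
  length_wd ls_pair hd tl ls_hd ls_tl hd_eq tl_eq a0 a1 dst npc uu ls_a1 ls_dst
  ls_npc selF selF_eq ls_selF isA accF accF_le accF_eq_one ls_accF bd pc_le a0_le a1_le npc_le cst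
  cst_le wd_one head_name wd_cons_false hd_read step_of head_wd conf_succ)
open Pool.Agent.Helper92.RE (LD inpL valL vvL step_eqL ls_valL lett_le lett_none lt_eq adr1 ls_adr1
  sto pO nO uO vO sto_pos pO_sto nO_sto uO_sto vO_sto ls_sto ls_pO ls_nO ls_uO ls_vO)

section phases

variable (D : LD) (P : List Ins) (w y : List Bool)

theorem nextG_0 (b G t : ℕ) : nextG D P (sto 0 0 0 G 0) b t =
    ifz b (sto 0 2 G 0 0) (sto 0 1 0 G 0) := by
  unfold nextG
  rw [pO_sto (by omega), uO_sto (by omega), ifz_zero]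

theorem nextG_1 (b G t : ℕ) : nextG D P (sto 0 1 0 G 0) b t = sto 0 0 0 (2 * G + b) 0 := by
  unfold nextG
  rw [pO_sto (by omega), uO_sto (by omega), ifz_ne (by omega), ifz_zero]

theorem nextG_2 (b G t : ℕ) : nextG D P (sto 0 2 G 0 0) b t =
    ifz ((t - 1) % 3) (sto 0 (ifz (parN G) 4 3) G 0 0) (sto 0 10 0 0 0) := by
  unfold nextG
  rw [pO_sto (by omega), nO_sto (by omega), ifz_ne (by omega), ifz_ne (by omega), ifz_zero]

theorem nextG_3 (b G t : ℕ) : nextG D P (sto 0 3 G 0 0) b t =
    ifz ((t - 1) % 3) (sto 0 10 0 0 0) (sto 0 4 G 0 0) := by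
  unfold nextG
  rw [pO_sto (by omega), nO_sto (by omega), ifz_ne (by omega), ifz_ne (by omega),
    ifz_ne (by omega), ifz_zero]

theorem nextG_4 (b G t : ℕ) : nextG D P (sto 0 4 G 0 0) b t =
    ifz (okN P G t) (sto 0 5 G 0 0) (sto 0 6 G 0 0) := by
  unfold nextG
  rw [pO_sto (by omega), nO_sto (by omega), ifz_ne (by omega), ifz_ne (by omega),
    ifz_ne (by omega), ifz_ne (by omega), ifz_zero]

theorem nextG_5 (b G t : ℕ) : nextG D P (sto 0 5 G 0 0) b t = sto 0 4 G 0 0 := by
  unfold nextG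
  rw [pO_sto (by omega), nO_sto (by omega), ifz_ne (by omega), ifz_ne (by omega),
    ifz_ne (by omega), ifz_ne (by omega), ifz_ne (by omega), ifz_zero]

theorem nextG_6 (b G pc N t : ℕ) : nextG D P (sto 0 6 G pc N) b t = resN P G pc N t := by
  unfold nextG
  rw [pO_sto (by omega), nO_sto (by omega), uO_sto (by omega), vO_sto (by omega),
    ifz_ne (by omega), ifz_ne (by omega), ifz_ne (by omega), ifz_ne (by omega), ifz_ne (by omega),
    ifz_ne (by omega), ifz_zero]

theorem nextG_78 {ph : ℕ} (hph : ph = 7 ∨ ph = 8) (b G q pc N t : ℕ) :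
    nextG D P (sto 0 ph G q (Nat.pair pc N)) b t = farR D P G pc N (t - 1) P[pc]? := by
  unfold nextG
  rw [pO_sto (by omega), ifz_ne (by omega), ifz_ne (by omega), ifz_ne (by omega),
    ifz_ne (by omega), ifz_ne (by omega), ifz_ne (by omega), ifz_ne (by omega),
    show ph - 8 = 0 by omega, ifz_zero, selF_eq, nO_sto (by omega), vO_sto (by omega),
    Nat.unpair_pair]

theorem nextG_9 {f ph : ℕ} (hf : f ≤ 1) (hph : 9 ≤ ph) (b p u v t : ℕ) :
    nextG D P (sto f ph p u v) b t = sto 0 10 0 0 0 := by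
  unfold nextG
  rw [pO_sto hf, ifz_ne (by omega), ifz_ne (by omega), ifz_ne (by omega),
    ifz_ne (by omega), ifz_ne (by omega), ifz_ne (by omega), ifz_ne (by omega),
    ifz_ne (by omega)]

theorem addrF_2 (G : ℕ) : addrF D P (sto 0 2 G 0 0) = 2 * bitsN (parN G) := by
  unfold addrF
  rw [pO_sto (by omega), nO_sto (by omega), ifz_ne (by omega), ifz_zero]

theorem addrF_3 (G : ℕ) : addrF D P (sto 0 3 G 0 0) = 2 * bitsN (parN G - 1) := by
  unfold addrF
  rw [pO_sto (by omega), nO_sto (by omega), ifz_ne (by omega), ifz_ne (by omega), ifz_zero]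

theorem addrF_456 {ph : ℕ} (h : ph = 4 ∨ ph = 5 ∨ ph = 6) (G u v : ℕ) :
    addrF D P (sto 0 ph G u v) = 1 := by
  unfold addrF
  rw [pO_sto (by omega), ifz_ne (by omega), ifz_ne (by omega), ifz_ne (by omega),
    show ph - 6 = 0 by omega, ifz_zero]

theorem addrF_78 {ph : ℕ} (hph : ph = 7 ∨ ph = 8) (G q pc N : ℕ) :
    addrF D P (sto 0 ph G q (Nat.pair pc N)) = farA D P[pc]? (parN G) (uN P[pc]? (parW G) N) := by
  unfold addrF
  rw [pO_sto (by omega), ifz_ne (by omega), ifz_ne (by omega), ifz_ne (by omega),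
    ifz_ne (by omega), show ph - 8 = 0 by omega, ifz_zero, selF_eq, nO_sto (by omega),
    vO_sto (by omega), Nat.unpair_pair]

theorem step_p0 (b : Bool) (G : ℕ) (M : List Bool → List Bool) :
    (mach D P).step b (wd (sto 0 0 0 G 0), M) =
      (wd (if b then sto 0 1 0 G 0 else sto 0 2 G 0 0), M) := by
  rw [step_gen D P (sto_pos _ _ _ _ _), nextG_0, pO_sto (by omega)]
  cases b
  · rw [show (decide (0 < 2) && false).toNat = 0 from rfl, ifz_zero]
    rw [upd_silent D P (sto_pos _ _ _ _ _) (by rw [pO_sto (by omega)]; omega)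
      (by rw [pO_sto (by omega)]; omega)]
    rfl
  · rw [show (decide (0 < 2) && true).toNat = 1 from rfl, ifz_ne one_ne_zero]
    rw [upd_silent D P (sto_pos _ _ _ _ _) (by rw [pO_sto (by omega)]; omega)
      (by rw [pO_sto (by omega)]; omega)]
    rfl

theorem step_p1 (b : Bool) (G : ℕ) (M : List Bool → List Bool) :
    (mach D P).step b (wd (sto 0 1 0 G 0), M) = (wd (sto 0 0 0 (2 * G + b.toNat) 0), M) := by
  rw [step_gen D P (sto_pos _ _ _ _ _), nextG_1, pO_sto (by omega),
    upd_silent D P (sto_pos _ _ _ _ _) (by rw [pO_sto (by omega)]; omega)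
      (by rw [pO_sto (by omega)]; omega)]
  cases b <;> rfl

theorem step_silent {x x' : ℕ} (hx : 0 < x) (hp : 2 ≤ pO x) (b : Bool) {M : List Bool → List Bool}
    (h : nextG D P x 0 (num (M (wd (addrF D P x)))) = x') (hx' : 0 < x') (h5 : pO x' ≠ 5)
    (h7 : pO x' ≠ 7) : (mach D P).step b (wd x, M) = (wd x', M) := by
  rw [step_det D P hx hp, h, upd_silent D P hx' h5 h7]

theorem step_p2 (b : Bool) (G m cw : ℕ) (R : ℕ → ℕ) :
    (mach D P).step b (wd (sto 0 2 G 0 0), memF w y m cw R) =
      (wd (if w.length ≤ parN G then (if parN G = 0 then sto 0 4 G 0 0 else sto 0 3 G 0 0)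
        else sto 0 10 0 0 0), memF w y m cw R) := by
  refine step_silent D P (sto_pos _ _ _ _ _) (by rw [pO_sto (by omega)]) b ?_ ?_ ?_ ?_
  · rw [addrF_2, memF_letter, nextG_2]
    have h1 := lett_le w[parN G]?
    rw [show (lett w[parN G]? + 3 * lett y[parN G]? + 1 - 1) % 3 = lett w[parN G]? by omega]
    by_cases h : w.length ≤ parN G
    · rw [lett_none.2 h, ifz_zero, if_pos h]
      by_cases h0 : parN G = 0
      · rw [if_pos h0, h0, ifz_zero]
      · rw [if_neg h0, ifz_ne h0]
    · rw [ifz_ne (fun h2 => h (lett_none.1 h2)), if_neg h]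
  all_goals
    split_ifs <;> first | exact sto_pos _ _ _ _ _ | (rw [pO_sto (by omega)]; omega)

theorem step_p3 (b : Bool) (G m cw : ℕ) (R : ℕ → ℕ) :
    (mach D P).step b (wd (sto 0 3 G 0 0), memF w y m cw R) =
      (wd (if parN G - 1 < w.length then sto 0 4 G 0 0 else sto 0 10 0 0 0),
        memF w y m cw R) := by
  refine step_silent D P (sto_pos _ _ _ _ _) (by rw [pO_sto (by omega)]; omega) b ?_ ?_ ?_ ?_
  · rw [addrF_3, memF_letter, nextG_3]
    have h1 := lett_le w[parN G - 1]?
    rw [show (lett w[parN G - 1]? + 3 * lett y[parN G - 1]? + 1 - 1) % 3 =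
      lett w[parN G - 1]? by omega]
    by_cases h : parN G - 1 < w.length
    · rw [ifz_ne (fun h2 => absurd (lett_none.1 h2) (by omega)), if_pos h]
    · rw [lett_none.2 (by omega), ifz_zero, if_neg h]
  all_goals
    split_ifs <;> first | exact sto_pos _ _ _ _ _ | (rw [pO_sto (by omega)]; omega)

theorem step_p4 (b : Bool) (G m : ℕ) {cw : ℕ} (hc : 0 < cw) (R : ℕ → ℕ) :
    (mach D P).step b (wd (sto 0 4 G 0 0), memF w y m cw R) =
      if okN P G cw = 0 then (wd (sto 0 5 G 0 0), memF w y m (2 * cw ^ 2) R)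
      else (wd (sto 0 6 G 0 0), memF w y m cw R) := by
  rw [step_det D P (sto_pos _ _ _ _ _) (by rw [pO_sto (by omega)]; omega),
    addrF_456 D P (Or.inl rfl), memF_one, num_wd hc, nextG_4]
  by_cases h : okN P G cw = 0
  · rw [h, ifz_zero, if_pos rfl, upd_five D P w y G m hc R]
  · rw [ifz_ne h, if_neg h, upd_silent D P (sto_pos _ _ _ _ _) (by rw [pO_sto (by omega)]; omega)
      (by rw [pO_sto (by omega)]; omega)]

theorem step_p5 (b : Bool) (G : ℕ) (M : List Bool → List Bool) :
    (mach D P).step b (wd (sto 0 5 G 0 0), M) = (wd (sto 0 4 G 0 0), M) :=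
  step_silent D P (sto_pos _ _ _ _ _) (by rw [pO_sto (by omega)]; omega) b (nextG_5 D P _ _ _)
    (sto_pos _ _ _ _ _) (by rw [pO_sto (by omega)]; omega) (by rw [pO_sto (by omega)]; omega)

theorem step_p9 {f ph : ℕ} (hf : f ≤ 1) (hph : 9 ≤ ph) (b : Bool) (p u v : ℕ)
    (M : List Bool → List Bool) :
    (mach D P).step b (wd (sto f ph p u v), M) = (wd (sto 0 10 0 0 0), M) :=
  step_silent D P (sto_pos _ _ _ _ _) (by rw [pO_sto hf]; omega) b (nextG_9 D P hf hph _ _ _ _ _)
    (sto_pos _ _ _ _ _) (by rw [pO_sto (by omega)]; omega) (by rw [pO_sto (by omega)]; omega)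

end phases

/-! ### The main phase -/

theorem far_cases {P : List Ins} {c : ℕ × (ℕ → ℕ)} {m : ℕ} (hm : bd P < m)
    (hf : farN P[c.1]? m (uu P c) ≠ 0) :
    (∃ i j, P[c.1]? = some (.load i j) ∧ m ≤ c.2 j) ∨
    (∃ i j, P[c.1]? = some (.store i j) ∧ m ≤ c.2 i) ∨
    (∃ i j, P[c.1]? = some (.input i j)) ∨ ∃ i j, P[c.1]? = some (.advice i j) := by
  have h1 : ¬(inpL P[c.1]? = 0 ∧ a1 P[c.1]? (uu P c) < m ∧ dst P[c.1]? (uu P c) < m) :=
    fun h => hf (farN_eq_zero.2 h)
  unfold uu at h1
  rcases h : P[c.1]? with _ | o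
  · rw [h] at h1
    refine absurd ⟨rfl, ?_, ?_⟩ h1 <;> simp only [a1, dst] <;> omega
  · have h2 := cst_le h
    have h3 : (P.map cst).sum ≤ bd P := Nat.le_add_left _ _
    rw [h] at h1
    cases o with
    | load i j =>
      refine Or.inl ⟨i, j, rfl, ?_⟩
      by_contra hcon
      refine h1 ⟨rfl, ?_, ?_⟩
      · simp only [a1, a0]
        omega
      · simp only [dst, cst] at h2 ⊢
        omega
    | store i j =>
      refine Or.inr (Or.inl ⟨i, j, rfl, ?_⟩)
      by_contra hcon
      refine h1 ⟨rfl, ?_, ?_⟩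
      · simp only [a1, cst] at h2 ⊢
        omega
      · simp only [dst, a0]
        omega
    | input i j => exact Or.inr (Or.inr (Or.inl ⟨i, j, rfl⟩))
    | advice i j => exact Or.inr (Or.inr (Or.inr ⟨i, j, rfl⟩))
    | const i k =>
      exact absurd ⟨rfl, by simp only [a1, cst] at h2 ⊢; omega, by simp only [dst, cst] at h2 ⊢; omega⟩ h1
    | add i j k =>
      exact absurd ⟨rfl, by simp only [a1, cst] at h2 ⊢; omega, by simp only [dst, cst] at h2 ⊢; omega⟩ h1
    | sub i j k =>
      exact absurd ⟨rfl, by simp only [a1, cst] at h2 ⊢; omega, by simp only [dst, cst] at h2 ⊢; omega⟩ h1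
    | mul i j k =>
      exact absurd ⟨rfl, by simp only [a1, cst] at h2 ⊢; omega, by simp only [dst, cst] at h2 ⊢; omega⟩ h1
    | div i j k =>
      exact absurd ⟨rfl, by simp only [a1, cst] at h2 ⊢; omega, by simp only [dst, cst] at h2 ⊢; omega⟩ h1
    | jump i l =>
      exact absurd ⟨rfl, by simp only [a1]; omega, by simp only [dst]; omega⟩ h1
    | accept =>
      exact absurd ⟨rfl, by simp only [a1]; omega, by simp only [dst]; omega⟩ h1

theorem dst_le (P : List Ins) (pc u : ℕ) : dst P[pc]? u ≤ bd P ∨ ∃ i j, P[pc]? = some (.store i j) ∧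
    dst P[pc]? u = u := by
  rcases h : P[pc]? with _ | o
  · exact Or.inl (Nat.zero_le _)
  · have h2 := cst_le h
    have h3 : (P.map cst).sum ≤ bd P := Nat.le_add_left _ _
    cases o with
    | store i j => exact Or.inr ⟨i, j, rfl, rfl⟩
    | _ => exact Or.inl (by simp only [dst, cst] at h2 ⊢; omega)

/-- The machine follows the program: at the time `k` of the program, the cell is `cw`, with the digits
`Rc`. -/
structure St (P : List Ins) (F : List Bool → List Bool) (w y : List Bool) (G k cw : ℕ)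
    (Rc : ℕ → ℕ) : Prop where
  ok : okN P G cw ≠ 0
  len : parN G = w.length
  lt : ∀ i, (conf P (F w) y k).2 i < parW G
  cell : cw = top cw + tab (parW G) (parM P G) Rc
  dg : ∀ i < parM P G, Rc i < parW G
  near : ∀ i < parM P G, bd P < i → Rc i = (conf P (F w) y k).2 i

theorem bd_lt (P : List Ins) (G : ℕ) : bd P < parM P G := by
  unfold parM
  omega

section main

variable {P : List Ins} {F : List Bool → List Bool} {w y : List Bool} {G k cw : ℕ} {Rc : ℕ → ℕ}

theorem St.gW (h : St P F w y G k cw Rc) : gW P G cw = parW G := by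
  unfold RF.gW
  rw [ifz_ne h.ok]

theorem St.gM (h : St P F w y G k cw Rc) : gM P G cw = parM P G := by
  unfold RF.gM
  rw [ifz_ne h.ok]

theorem St.pos (h : St P F w y G k cw Rc) : 0 < cw := by
  have := top_pos cw
  have := h.cell
  omega

theorem St.sub (h : St P F w y G k cw Rc) : cw - top cw = tab (parW G) (parM P G) Rc := by
  have := h.cell
  omega

theorem St.ini (h : St P F w y G k cw Rc) :
    iniN P G (tab (parW G) (bd P + 1) (conf P (F w) y k).2) cw =
      tab (parW G) (parM P G) (conf P (F w) y k).2 := by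
  unfold iniN
  rw [h.gW, h.gM, h.sub]
  refine tab_congr fun i hi => ?_
  by_cases h1 : i < bd P + 1
  · have e1 : lt01 i (bd P + 1) = 1 := by
      unfold lt01
      rw [if_pos h1]
    rw [e1, ifz_ne one_ne_zero, dig_tab (fun j _ => h.lt j) h1, Nat.mod_eq_of_lt (h.lt i)]
  · have e1 : lt01 i (bd P + 1) = 0 := by
      unfold lt01
      rw [if_neg h1]
    rw [e1, ifz_zero, dig_tab h.dg hi, h.near i hi (by omega), Nat.mod_eq_of_lt (h.lt i)]

theorem St.fin (h : St P F w y G k cw Rc) :
    finN P G (conf P (F w) y k).1 (tab (parW G) (bd P + 1) (conf P (F w) y k).2) cw =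
      endN P (parW G) (parM P G) (cod (parW G) (parM P G) (conf P (F w) y k)) (top cw) := by
  unfold finN
  rw [h.ini, h.gW, h.gM]
  rfl

theorem namN_tab {W m : ℕ} {R : ℕ → ℕ} (hW : 0 < W) (hm : bd P < m) (hR : ∀ i, R i < W) :
    namN P W (tab W m R) = tab W (bd P + 1) R := by
  unfold namN
  rw [← tab_dig_mod hW]
  exact tab_congr fun i hi => dig_tab (fun j _ => hR j) (by omega)

/-- The state after the run, if the program accepts. -/
theorem St.res_acc (h : St P F w y G k cw Rc) {k' : ℕ}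
    (hf : endN P (parW G) (parM P G) (cod (parW G) (parM P G) (conf P (F w) y k)) (top cw) =
      cod (parW G) (parM P G) (conf P (F w) y k'))
    (ha : P[(conf P (F w) y k').1]? = some .accept) :
    resN P G (conf P (F w) y k).1 (tab (parW G) (bd P + 1) (conf P (F w) y k).2) cw =
      sto 1 9 0 0 0 := by
  rw [resN_eq, h.fin, hf, cod_pc, ha]
  unfold resO
  rw [ifz_ne (show isA (some .accept) ≠ 0 from one_ne_zero)]

/-- The state after the run, if there is no instruction. -/
theorem St.res_dead (h : St P F w y G k cw Rc)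
    (hf : Dead P (endN P (parW G) (parM P G) (cod (parW G) (parM P G) (conf P (F w) y k))
      (top cw))) :
    resN P G (conf P (F w) y k).1 (tab (parW G) (bd P + 1) (conf P (F w) y k).2) cw =
      sto 0 10 0 0 0 := by
  rw [resN_eq, h.fin]
  have e1 : P[(endN P (parW G) (parM P G) (cod (parW G) (parM P G) (conf P (F w) y k))
      (top cw)).unpair.1]? = none := by
    rw [show (endN P (parW G) (parM P G) (cod (parW G) (parM P G) (conf P (F w) y k))
      (top cw)).unpair.1 = P.length from hf]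
    simp
  rw [e1]
  unfold resO
  have h2 : 0 < RF.gM P G cw := by
    rw [h.gM]
    exact (Nat.zero_le _).trans_lt (bd_lt P G)
  rw [show isA none = 0 from rfl, ifz_zero, farN_eq_zero.2 ⟨rfl, h2, h2⟩, ifz_zero]

/-- The state after the run, if it ends with a far access. -/
theorem St.res_far (h : St P F w y G k cw Rc) {k' : ℕ}
    (hf : endN P (parW G) (parM P G) (cod (parW G) (parM P G) (conf P (F w) y k)) (top cw) =
      cod (parW G) (parM P G) (conf P (F w) y k'))
    (hlt : ∀ i, (conf P (F w) y k').2 i < parW G)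
    (ha : farN P[(conf P (F w) y k').1]? (parM P G) (uu P (conf P (F w) y k')) ≠ 0) :
    resN P G (conf P (F w) y k).1 (tab (parW G) (bd P + 1) (conf P (F w) y k).2) cw =
      sto 0 (ifz (lt01 (dst P[(conf P (F w) y k').1]? (uu P (conf P (F w) y k'))) (parM P G)) 7
        (ifz (dirty P (parW G) (parM P G) (tab (parW G) (parM P G) (conf P (F w) y k').2)
          (tab (parW G) (parM P G) Rc)) 8 7)) G
        (Nat.pair (conf P (F w) y k).1 (tab (parW G) (bd P + 1) (conf P (F w) y k).2))
        (Nat.pair (conf P (F w) y k').1 (tab (parW G) (bd P + 1) (conf P (F w) y k').2)) := by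
  have hW := parW_pos G
  have h0 : isA P[(conf P (F w) y k').1]? = 0 := by
    rcases far_cases (bd_lt P G) ha with ⟨i, j, e, -⟩ | ⟨i, j, e, -⟩ | ⟨i, j, e⟩ | ⟨i, j, e⟩ <;>
      rw [e] <;> rfl
  rw [resN_eq, h.fin, hf]
  unfold resO
  rw [cod_pc, cod_reg, h.gM, h.gW, h.sub, uN_tab (bd_lt P G) (fun i _ => hlt i), h0, ifz_zero,
    ifz_ne ha, namN_tab hW (bd_lt P G) hlt]

/-- The state after the run, if it ends with another configuration. -/
theorem St.res_near (h : St P F w y G k cw Rc) {k' : ℕ}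
    (hf : endN P (parW G) (parM P G) (cod (parW G) (parM P G) (conf P (F w) y k)) (top cw) =
      cod (parW G) (parM P G) (conf P (F w) y k'))
    (hlt : ∀ i, (conf P (F w) y k').2 i < parW G)
    (h0 : P[(conf P (F w) y k').1]? ≠ some .accept)
    (ha : farN P[(conf P (F w) y k').1]? (parM P G) (uu P (conf P (F w) y k')) = 0) :
    resN P G (conf P (F w) y k).1 (tab (parW G) (bd P + 1) (conf P (F w) y k).2) cw =
      sto 0 10 0 0 0 := by
  have h1 : isA P[(conf P (F w) y k').1]? = 0 := by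
    unfold isA
    split
    · rename_i h2
      exact absurd h2 h0
    · rfl
  rw [resN_eq, h.fin, hf]
  unfold resO
  rw [cod_pc, cod_reg, h.gM, h.gW, uN_tab (bd_lt P G) (fun i _ => hlt i), h1, ifz_zero, ha,
    ifz_zero]

end main

end Pool.Agent.Helper92.RF
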