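import Pool.Agent.Helper92.RF.Time

/-!
# Programs with few costly accesses as machines with messages: the number of messages
-/

namespace Pool.Agent.Helper92.RF

open Pool.Agent.Helper65.LinSpace Pool.Agent.Helper78.Mpc Pool.Agent.Helper28.Ram Finset
open Pool.Agent.Helper81.RP (Ins lett step AcceptsAt conf a0 a1 dst npc uu bd cst cst_le conf_succ)
open Pool.Agent.Helper92.RE (inpL valL vvL step_eqL)
open scoped Classical

theorem exists_last {p : ℕ → Prop} {a b : ℕ} (h : ∃ q, a ≤ q ∧ q < b ∧ p q) :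
    ∃ q, a ≤ q ∧ q < b ∧ p q ∧ ∀ q', q < q' → q' < b → ¬p q' := by
  induction b with
  | zero =>
    obtain ⟨q, -, h2, -⟩ := h
    omega
  | succ b ih =>
    by_cases hb : a ≤ b ∧ p b
    · exact ⟨b, hb.1, Nat.lt_succ_self _, hb.2, fun q' h1 h2 => by omega⟩
    · obtain ⟨q, h1, h2, h3⟩ := h
      have h4 : q ≠ b := fun h => hb ⟨h ▸ h1, h ▸ h3⟩
      obtain ⟨q', g1, g2, g3, g4⟩ := ih ⟨q, h1, by omega, h3⟩
      refine ⟨q', g1, by omega, g3, fun q'' k1 k2 => ?_⟩
      rcases Nat.lt_succ_iff_lt_or_eq.1 k2 with k3 | rfl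
      · exact g4 q'' k1 k3
      · exact fun k3 => hb ⟨by omega, k3⟩

theorem exists_first {p : ℕ → Prop} {a b : ℕ} (h : ∃ q, a < q ∧ q < b ∧ p q) :
    ∃ q, a < q ∧ q < b ∧ p q ∧ ∀ q', a < q' → q' < q → ¬p q' := by
  obtain ⟨h1, h2, h3⟩ := Nat.find_spec h
  refine ⟨Nat.find h, h1, h2, h3, fun q' h4 h5 h6 => ?_⟩
  exact Nat.find_min h h5 ⟨h4, by omega, h6⟩

section

variable {P : List Ins} {x y : List Bool} {m : ℕ}

/-- A far step changes no near register which is not named. -/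
theorem far_near (hm : bd P < m) {k : ℕ} (h : FarAt P x y m k) {i : ℕ} (hi : i < m)
    (hi2 : bd P < i) : (conf P x y (k + 1)).2 i = (conf P x y k).2 i := by
  rw [conf_succ, step_eqL]
  show Function.update (conf P x y k).2 _ _ i = _
  rw [Function.update_of_ne]
  rcases dst_le P (conf P x y k).1 (uu P (conf P x y k)) with h1 | ⟨i', j', e', h1⟩
  · omega
  · rw [h1]
    rcases far_cases hm h with ⟨i, j, e, h1⟩ | ⟨i, j, e, h1⟩ | ⟨i, j, e⟩ |
      ⟨i, j, e⟩ <;> rw [e'] at e <;> simp only [Option.some.injEq, reduceCtorEq] at e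
    obtain ⟨rfl, rfl⟩ := Ins.store.inj e
    have hu : uu P (conf P x y k) = (conf P x y k).2 i' := by
      unfold uu
      rw [e']
      rfl
    omega

/-- The digits of the cell are the near registers after the last far step. -/
theorem rcF_near (hm : bd P < m) (k : ℕ) {i : ℕ} (hi : i < m) (hi2 : bd P < i) :
    rcF P x y m k i = (conf P x y (stF P x y m k)).2 i := by
  induction k with
  | zero => rfl
  | succ k ih =>
    by_cases hp : FarAt P x y m k
    · have e1 : stF P x y m (k + 1) = k + 1 := if_pos hp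
      rw [e1, far_near hm hp hi hi2]
      by_cases hn : Needs P x y m k (rcF P x y m k)
      · have e2 : rcF P x y m (k + 1) = (conf P x y k).2 := if_pos ⟨hp, hn⟩
        rw [e2]
      · have e2 : rcF P x y m (k + 1) = rcF P x y m k := if_neg fun h => hn h.2
        rw [e2]
        by_contra hcon
        exact hn (Or.inr ⟨i, hi, hi2, fun h => hcon h.symm⟩)
    · have e1 : stF P x y m (k + 1) = stF P x y m k := if_neg hp
      have e2 : rcF P x y m (k + 1) = rcF P x y m k := if_neg fun h => hp h.1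
      rw [e1, e2, ih]

/-- If a register which is not named changes, then there is a `store`. -/
theorem exists_store {a b i : ℕ} (hi : bd P < i) (hab : a ≤ b)
    (h : (conf P x y b).2 i ≠ (conf P x y a).2 i) :
    ∃ q, a ≤ q ∧ q < b ∧ ∃ i' j', P[(conf P x y q).1]? = some (.store i' j') := by
  by_contra hcon
  push Not at hcon
  refine h ?_
  obtain ⟨c, rfl⟩ := Nat.exists_eq_add_of_le hab
  clear h hab
  induction c with
  | zero => rfl
  | succ c ih =>
    rw [← Nat.add_assoc, conf_succ, step_eqL]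
    show Function.update (conf P x y (a + c)).2 _ _ i = _
    rw [Function.update_of_ne]
    · exact ih fun q h1 h2 => hcon q h1 (by omega)
    · rcases dst_le P (conf P x y (a + c)).1 (uu P (conf P x y (a + c))) with h1 | ⟨i', j', e', -⟩
      · omega
      · exact absurd e' (hcon (a + c) (by omega) (by omega) i' j')

/-- A message comes with a costly step. -/
theorem costly_of_msg (hm : bd P < m) {ms : ℕ} (hms : ms ≤ m) {k : ℕ} (h : MsgAt P x y m k) :
    ∃ j ≤ k, Costly P x y ms j ∧ ∀ i, j ≤ i → i < k → ¬FarAt P x y m i := by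
  obtain ⟨hf, hn⟩ := h
  have hread : FarRead P ms (conf P x y k) →
      (∀ i j, P[(conf P x y k).1]? ≠ some (.store i j)) →
      ∃ j ≤ k, Costly P x y ms j ∧ ∀ i, j ≤ i → i < k → ¬FarAt P x y m i := by
    intro hr hns
    rcases hn with ⟨i, j, e⟩ | ⟨i, hi, hi2, hi3⟩
    · exact absurd e (hns i j)
    rw [rcF_near hm k hi hi2] at hi3
    obtain ⟨q, h1, h2, ⟨i', j', e⟩, h4⟩ := exists_last (exists_store hi2 (stF_le k) hi3)
    have hnf : ∀ i, q ≤ i → i < k → ¬FarAt P x y m i := fun i h5 h6 =>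
      stF_near (by omega) h6
    rcases lt_or_ge ((conf P x y q).2 i') ms with h5 | h5
    · have hns' : ∀ i, q < i → i < k → ¬FarStore P ms (conf P x y i) := by
        rintro i g1 g2 ⟨a, b, g3, -⟩
        exact h4 i g1 g2 ⟨a, b, g3⟩
      by_cases h6 : ∃ i, q < i ∧ i < k ∧ FarRead P ms (conf P x y i)
      · obtain ⟨j, g1, g2, g3, g4⟩ := exists_first h6
        refine ⟨j, by omega, Or.inr ⟨g3, q, g1, ⟨i', j', e, h5⟩, fun i g5 g6 => ⟨?_, ?_⟩⟩,
          fun i g5 g6 => hnf i (by omega) g6⟩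
        · exact hns' i g5 (by omega)
        · exact g4 i g5 g6
      · refine ⟨k, le_rfl, Or.inr ⟨hr, q, h2, ⟨i', j', e, h5⟩, fun i g5 g6 => ⟨?_, ?_⟩⟩,
          fun i g5 g6 => by omega⟩
        · exact hns' i g5 g6
        · exact fun g7 => h6 ⟨i, g5, g6, g7⟩
    · exact ⟨q, by omega, Or.inl ⟨i', j', e, h5⟩, hnf⟩
  rcases far_cases hm hf with ⟨i, j, e, h1⟩ | ⟨i, j, e, h1⟩ | ⟨i, j, e⟩ | ⟨i, j, e⟩
  · exact hread (Or.inl ⟨i, j, e, by omega⟩) fun i' j' e' => by
      rw [e] at e'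
      simp at e'
  · exact ⟨k, le_rfl, Or.inl ⟨i, j, e, by omega⟩, fun i g5 g6 => by omega⟩
  · exact hread (Or.inr (Or.inl ⟨i, j, e⟩)) fun i' j' e' => by
      rw [e] at e'
      simp at e'
  · exact hread (Or.inr (Or.inr ⟨i, j, e⟩)) fun i' j' e' => by
      rw [e] at e'
      simp at e'

/-- The number of messages. -/
theorem msgs_le_cost (hm : bd P < m) {ms : ℕ} (hms : ms ≤ m) (u v : ℕ) :
    {k : ℕ | u ≤ k ∧ k < v ∧ MsgAt P x y m k}.ncard ≤ cost P x y ms u v + 1 := by
  set A : Set ℕ := {k : ℕ | u ≤ k ∧ k < v ∧ MsgAt P x y m k} with hA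
  have hfin : A.Finite := (Set.finite_lt_nat v).subset fun k hk => hk.2.1
  rcases Set.eq_empty_or_nonempty A with h0 | h0
  · rw [h0, Set.ncard_empty]
    omega
  have hk0 : sInf A ∈ A := Nat.sInf_mem h0
  have hle : ∀ k ∈ A, sInf A ≤ k := fun k hk => Nat.sInf_le hk
  choose! φ h1 h2 h3 using fun k (hk : MsgAt P x y m k) => costly_of_msg hm hms hk
  have h4 : (A \ {sInf A}).ncard ≤ {k : ℕ | u ≤ k ∧ k < v ∧ Costly P x y ms k}.ncard := by
    refine Set.ncard_le_ncard_of_injOn φ ?_ ?_ ((Set.finite_lt_nat v).subset fun k hk => hk.2.1)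
    · rintro k ⟨hk, hne⟩
      have h5 : sInf A ≤ k := hle k hk
      have h6 : sInf A ≠ k := fun h => hne (by rw [h]; exact Set.mem_singleton _)
      refine ⟨?_, (h1 k hk.2.2).trans_lt hk.2.1, h2 k hk.2.2⟩
      by_contra hcon
      exact h3 k hk.2.2 (sInf A) (by have := hk0.1; omega) (by omega) hk0.2.2.1
    · rintro k ⟨hk, -⟩ k' ⟨hk', -⟩ he
      rcases lt_trichotomy k k' with h5 | h5 | h5
      · exact absurd hk.2.2.1 (h3 k' hk'.2.2 k (he ▸ h1 k hk.2.2) h5)
      · exact h5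
      · exact absurd hk'.2.2.1 (h3 k hk.2.2 k' (he.symm ▸ h1 k' hk'.2.2) h5)
  have h5 := Set.ncard_sdiff_singleton_add_one hk0 hfin
  unfold cost
  omega

end

end Pool.Agent.Helper92.RF
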