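import Pool.Agent.Helper81.RP.Defs

/-!
# Programs of random access machines with few costly accesses to the memory: definitions

The registers with numbers less than `m` are near, the other registers and the letters of the words
are far.
-/

namespace Pool.Agent.Helper92.RF

open Pool.Agent.Helper81.RP (Ins AcceptsAt conf word)
open Pool.Agent.Helper81.Sus2 (Decomp)

/-- The next instruction is `store`, and it stores into a register with a number less than `m`. -/
def NearStore (P : List Ins) (m : ℕ) (c : ℕ × (ℕ → ℕ)) : Prop :=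
  ∃ i j, P[c.1]? = some (.store i j) ∧ c.2 i < m

/-- The next instruction is `store`, and it stores into a register with a number `≥ m`. -/
def FarStore (P : List Ins) (m : ℕ) (c : ℕ × (ℕ → ℕ)) : Prop :=
  ∃ i j, P[c.1]? = some (.store i j) ∧ m ≤ c.2 i

/-- The next instruction is `input` or `advice`, or it is `load` and loads from a register with a
number `≥ m`. -/
def FarRead (P : List Ins) (m : ℕ) (c : ℕ × (ℕ → ℕ)) : Prop :=
  (∃ i j, P[c.1]? = some (.load i j) ∧ m ≤ c.2 j) ∨ (∃ i j, P[c.1]? = some (.input i j)) ∨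
    ∃ i j, P[c.1]? = some (.advice i j)

/-- The step after the time `k` is costly: it stores into a far register, or it reads a far register or
a letter after a `store` into a near register, and there was no access to a far register or to a
letter between them. -/
def Costly (P : List Ins) (w y : List Bool) (m k : ℕ) : Prop :=
  FarStore P m (conf P w y k) ∨ FarRead P m (conf P w y k) ∧
    ∃ j < k, NearStore P m (conf P w y j) ∧
      ∀ i, j < i → i < k → ¬FarStore P m (conf P w y i) ∧ ¬FarRead P m (conf P w y i)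

/-- The number of costly steps from the time `u` to the time `v`. -/
noncomputable def cost (P : List Ins) (w y : List Bool) (m u v : ℕ) : ℕ :=
  {k : ℕ | u ≤ k ∧ k < v ∧ Costly P w y m k}.ncard

/-- The program `P` accepts the word `x` of length `n`, with the second word `y`, after `t` steps, at
most `r` of which are costly for some `m`, with numbers less than `2 ^ s` in the registers up to this
time, where `⌊log₂ n⌋ + 1 ≤ s` and, for `l = ⌊log₂ n⌋ + 1 + min ⌊log₂ t⌋ s`,
`r s l ^ 2 ≤ C (n + 1) ^ (3 / 2)`, `s l ^ 2 ≤ C (n + 1) ^ (1 / 2)` and `m s l ^ 2 ≤ C (n + 1)`. For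
example, `P` accepts `x`, at any time, with numbers of `O(log n)` bits and `C n ^ (3 / 2) / log ^ 3 n`
costly steps for `m = C n / log ^ 3 n`. -/
def Fast (P : List Ins) (C : ℝ) (x y : List Bool) : Prop :=
  ∃ t s m r : ℕ, Nat.log 2 x.length + 1 ≤ s ∧ AcceptsAt P x y t ∧
    (∀ u ≤ t, ∀ i, (conf P x y u).2 i < 2 ^ s) ∧ cost P x y m 0 t ≤ r ∧
    (r : ℝ) * s * ((Nat.log 2 x.length : ℝ) + 1 + min (Nat.log 2 t : ℝ) s) ^ 2 ≤
      C * ((x.length : ℝ) + 1) ^ ((3 : ℝ) / 2) ∧
    (s : ℝ) * ((Nat.log 2 x.length : ℝ) + 1 + min (Nat.log 2 t : ℝ) s) ^ 2 ≤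
      C * ((x.length : ℝ) + 1) ^ ((1 : ℝ) / 2) ∧
    (m : ℝ) * s * ((Nat.log 2 x.length : ℝ) + 1 + min (Nat.log 2 t : ℝ) s) ^ 2 ≤
      C * ((x.length : ℝ) + 1)

/-- At the time `k` the memory has a description of at most `z` bits for the decompressor `E`: from a
word `d` of at most `z` bits (and the two given words) it computes the contents of all registers with
numbers less than `2 ^ s`; the register `i` is given by the word `word (i + 1)`, the content `x` by the
word `word (x + 1)`, and the states of the decompressor have at most `a` bits. -/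
def Short (P : List Ins) (E : Decomp) (w y : List Bool) (s a z k : ℕ) : Prop :=
  ∃ d : List Bool, d.length ≤ z ∧ ∀ i x : ℕ, i < 2 ^ s →
    (E.Says w y a d (word (i + 1)) (word (x + 1)) ↔ (conf P w y k).2 i = x)

/-- The program `P` accepts the word `w` of length `n`, with the second word `y`, after `t` steps, for
some `m` with the following bounds. All numbers in the registers are less than `2 ^ s`. If the memory
has no description of at most `c n` bits at the times strictly between `u` and `v ≤ t`, then there are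
at most `r` costly steps from `u` to `v`, and `v - u` is at most `2 ^ h (r + 1)` or `s < h`. For
`l = h + ⌊log₂ n⌋ + 1`: `⌊log₂ n⌋ + 1 ≤ s`, `r s l ^ 2 ≤ C (n + 1) ^ (3 / 2)`,
`s (h + 1) l ≤ C (n + 1) ^ (1 / 2)`, `a l ^ 2 ≤ C (n + 1)`, and `m s l ^ 2 ≤ C (n + 1)`. -/
def Within (P : List Ins) (E : Decomp) (c : ℕ) (C : ℝ) (w y : List Bool) : Prop :=
  ∃ t s a r m h : ℕ, Nat.log 2 w.length + 1 ≤ s ∧ AcceptsAt P w y t ∧
    (∀ u ≤ t, ∀ i, (conf P w y u).2 i < 2 ^ s) ∧
    (∀ u v : ℕ, u ≤ v → v ≤ t →
      (∀ k, u < k → k < v → ¬Short P E w y s a (c * w.length) k) →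
        cost P w y m u v ≤ r ∧ (v ≤ u + 2 ^ h * (r + 1) ∨ s < h)) ∧
    (r : ℝ) * s * ((h : ℝ) + ((Nat.log 2 w.length : ℝ) + 1)) ^ 2 ≤
      C * ((w.length : ℝ) + 1) ^ ((3 : ℝ) / 2) ∧
    (s : ℝ) * ((h : ℝ) + 1) * ((h : ℝ) + ((Nat.log 2 w.length : ℝ) + 1)) ≤
      C * ((w.length : ℝ) + 1) ^ ((1 : ℝ) / 2) ∧
    (a : ℝ) * ((h : ℝ) + ((Nat.log 2 w.length : ℝ) + 1)) ^ 2 ≤ C * ((w.length : ℝ) + 1) ∧
    (m : ℝ) * s * ((h : ℝ) + ((Nat.log 2 w.length : ℝ) + 1)) ^ 2 ≤ C * ((w.length : ℝ) + 1)

end Pool.Agent.Helper92.RF
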