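import Pool.Agent.Helper92.RF.Defs
import Pool.Agent.Helper92.RF.Mem
import Pool.Agent.Helper81.RP.Final

/-!
# Programs of random access machines with few costly accesses: two goals
-/

namespace Pool.Agent.Helper92.RF

open Pool.Agent.Helper65.LinSpace Pool.Agent.Helper78.Mpc Pool.Agent.Helper28.Ram
open Pool.Agent.Helper81.Sus2 (NBM Decomp)
open Pool.Agent.Helper81.RP (Ins lett word wd)
open Pool.Agent.Helper81.Gen4 (Q)
open Pool.Agent.Helper31.Gen5 (Hard)

/-- From a description of the registers of the program which are less than `2 ^ s` (the others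
contain `0`), a description of the memory `memF` is obtained. -/
def ShortGoal : Prop :=
  ∀ E : Decomp, ∃ (E' : Decomp) (K : ℕ), ∀ (w y d : List Bool) (R : ℕ → ℕ) (s a m cw L s' : ℕ),
    (∀ i, 2 ^ s ≤ i → R i = 0) →
    (∀ i x : ℕ, i < 2 ^ s → (E.Says w y a d (word (i + 1)) (word (x + 1)) ↔ R i = x)) →
    0 < m → m < 2 ^ L → 0 < cw → cw < 2 ^ L →
    ∃ D : List Bool, D.length ≤ 2 * d.length + K * (L + s + 1) ∧
      ∀ j : List Bool, j.length ≤ s' → j.head? ≠ some false →
        E'.Says w y (a + K * (L + s + s' + Nat.log 2 (d.length + 1) + 1)) D j (memF w y m cw R j)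

/-- Hardness for machines with messages, with different constants. -/
def HardGoal : Prop :=
  ∀ c c' : ℕ, 0 < c → ∃ L : Set (List Bool), DLINSPACE L ∧
    (∀ (A : NBM) (E : Decomp) (C : ℝ),
      Hard L c (fun w α => Q (c * w.length) fun v => ∃ g r, A.AcceptsAt w (α ++ v) g r)
        (fun w α => Q (c * w.length) fun v => A.Good E c' C w (α ++ v))) ∧
    ∀ (A : NBM) (E : Decomp) (C : ℝ),
      Hard L c (fun w α => ∃ g r, A.AcceptsAt w α g r) (fun w α => A.Good E c' C w α)

end Pool.Agent.Helper92.RF
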