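import Pool.Agent.Helper92.RF.Steps

/-!
# Programs with few costly accesses as machines with messages: the main phase
-/

namespace Pool.Agent.Helper92.RF

open Pool.Agent.Helper65.LinSpace Pool.Agent.Helper78.Mpc Pool.Agent.Helper28.Ram Finset
open Pool.Agent.Helper81.Sus2
open Pool.Agent.Helper81.RP (Ins lett step AcceptsAt conf wd wf num_wd wd_num wf_eq linComp_wf
  length_wd ls_pair hd tl ls_hd ls_tl hd_eq tl_eq a0 a1 dst npc uu ls_a1 ls_dst
  ls_npc selF selF_eq ls_selF isA accF accF_le accF_eq_one ls_accF bd pc_le a0_le a1_le npc_le cst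
  cst_le wd_one head_name wd_cons_false hd_read step_of head_wd conf_succ)
open Pool.Agent.Helper92.RE (LD inpL valL vvL step_eqL ls_valL lett_le lett_none lt_eq adr1 ls_adr1
  sto pO nO uO vO sto_pos pO_sto nO_sto uO_sto vO_sto ls_sto ls_pO ls_nO ls_uO ls_vO)

/-- The step after the time `k` needs a message, `Rc` being the digits of the cell. -/
def Needs (P : List Ins) (x y : List Bool) (m k : ℕ) (Rc : ℕ → ℕ) : Prop :=
  (∃ i j, P[(conf P x y k).1]? = some (.store i j)) ∨
    ∃ i < m, bd P < i ∧ (conf P x y k).2 i ≠ Rc i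

section main

variable {D : LD} {P : List Ins} {F : List Bool → List Bool} {w y : List Bool} {G k cw : ℕ}
  {Rc : ℕ → ℕ}

theorem uN_nam (hlt : ∀ i, (conf P (F w) y k).2 i < parW G) :
    uN P[(conf P (F w) y k).1]? (parW G) (tab (parW G) (bd P + 1) (conf P (F w) y k).2) =
      uu P (conf P (F w) y k) :=
  uN_tab (Nat.lt_succ_self _) fun i _ => hlt i

theorem St.new (h : St P F w y G k cw Rc) {k' : ℕ}
    (hlt : ∀ i, (conf P (F w) y k').2 i < parW G) :
    St P F w y G k' (top cw + tab (parW G) (parM P G) (conf P (F w) y k').2)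
      (conf P (F w) y k').2 := by
  have h1 : tab (parW G) (parM P G) (conf P (F w) y k').2 < top cw :=
    (tab_lt fun i _ => hlt i).trans_le (okN_ne.1 h.ok).2
  exact ⟨by rw [okN_congr (top_top_add h1)]; exact h.ok, h.len, hlt, by rw [top_top_add h1],
    fun i _ => hlt i, fun _ _ _ => rfl⟩

theorem St.old (h : St P F w y G k cw Rc) {k' : ℕ}
    (hlt : ∀ i, (conf P (F w) y k').2 i < parW G)
    (hn : ∀ i < parM P G, bd P < i → Rc i = (conf P (F w) y k').2 i) :
    St P F w y G k' cw Rc :=
  ⟨h.ok, h.len, hlt, h.cell, h.dg, hn⟩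

/-- The message after a run. -/
theorem St.step_msg (D : LD) (h : St P F w y G k cw Rc) {k' : ℕ}
    (hf : endN P (parW G) (parM P G) (cod (parW G) (parM P G) (conf P (F w) y k)) (top cw) =
      cod (parW G) (parM P G) (conf P (F w) y k'))
    (hlt : ∀ i, (conf P (F w) y k').2 i < parW G)
    (hfar : ∀ i, parM P G ≤ i → (conf P (F w) y k').2 i = (conf P (F w) y k).2 i)
    (ha : farN P[(conf P (F w) y k').1]? (parM P G) (uu P (conf P (F w) y k')) ≠ 0)
    (hn : Needs P (F w) y (parM P G) k' Rc) (b : Bool) :
    (mach D P).step b (wd (sto 0 6 G (conf P (F w) y k).1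
        (tab (parW G) (bd P + 1) (conf P (F w) y k).2)),
        memF w y (parM P G) cw (conf P (F w) y k).2) =
      (wd (sto 0 7 G
        (Nat.pair (conf P (F w) y k).1 (tab (parW G) (bd P + 1) (conf P (F w) y k).2))
        (Nat.pair (conf P (F w) y k').1 (tab (parW G) (bd P + 1) (conf P (F w) y k').2))),
        memF w y (parM P G) (top cw + tab (parW G) (parM P G) (conf P (F w) y k').2)
          (conf P (F w) y (k' + 1)).2) := by
  have hm := bd_lt P G
  have hph : ifz (lt01 (dst P[(conf P (F w) y k').1]? (uu P (conf P (F w) y k'))) (parM P G)) 7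
        (ifz (dirty P (parW G) (parM P G) (tab (parW G) (parM P G) (conf P (F w) y k').2)
          (tab (parW G) (parM P G) Rc)) 8 7) = 7 := by
    rcases hn with ⟨i, j, e⟩ | ⟨i, hi, hi2, hi3⟩
    · rcases far_cases hm ha with ⟨i', j', e', h1⟩ | ⟨i', j', e', h1⟩ | ⟨i', j', e'⟩ |
        ⟨i', j', e'⟩ <;> rw [e] at e' <;> simp only [Option.some.injEq, reduceCtorEq] at e'
      obtain ⟨rfl, rfl⟩ := Ins.store.inj e'
      have e1 : dst P[(conf P (F w) y k').1]? (uu P (conf P (F w) y k')) =
          (conf P (F w) y k').2 i := by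
        unfold uu
        rw [e]
        rfl
      rw [e1]
      have e2 : lt01 ((conf P (F w) y k').2 i) (parM P G) = 0 := by
        unfold lt01
        rw [if_neg (by omega)]
      rw [e2, ifz_zero]
    · have e1 : dirty P (parW G) (parM P G) (tab (parW G) (parM P G) (conf P (F w) y k').2)
          (tab (parW G) (parM P G) Rc) ≠ 0 := by
        intro h0
        have h1 := dirty_eq_zero.1 h0 i hi hi2
        rw [dig_tab (fun j _ => hlt j) hi, dig_tab h.dg hi] at h1
        exact hi3 h1
      rw [ifz_ne e1]
      unfold ifz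
      split_ifs <;> rfl
  have hres := h.res_far hf hlt ha
  rw [hph] at hres
  rw [step_det D P (sto_pos _ _ _ _ _) (by rw [pO_sto (by omega)]; omega),
    addrF_456 D P (Or.inr (Or.inr rfl)), memF_one, num_wd h.pos, nextG_6, hres]
  refine Prod.ext rfl ?_
  show (fun i => (mach D P).upd (wd (sto 0 7 G _ _)) i (memF w y (parM P G) cw
    (conf P (F w) y k).2 i)) = _
  rw [upd_seven D P w y G _ _ _ _ _ rfl (by omega) h.pos, h.fin, hf, cod_reg, uN_nam hlt]
  refine memF_congr w y _ fun i hi => ?_
  rw [conf_succ, step_eqL]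
  show _ = Function.update (conf P (F w) y k').2 _ _ i
  rcases dst_le P (conf P (F w) y k').1 (uu P (conf P (F w) y k')) with h1 | ⟨i', j', e', h1⟩
  · rw [if_neg (by omega), Function.update_of_ne (by omega)]
    exact (hfar i hi).symm
  · rw [h1]
    have h2 : parM P G ≤ uu P (conf P (F w) y k') := by
      rcases far_cases hm ha with ⟨i, j, e, h1⟩ | ⟨i, j, e, h1⟩ | ⟨i, j, e⟩ |
        ⟨i, j, e⟩ <;> rw [e'] at e <;> simp only [Option.some.injEq, reduceCtorEq] at e
      obtain ⟨rfl, rfl⟩ := Ins.store.inj e
      unfold uu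
      rw [e']
      exact h1
    rw [if_pos h2]
    have hc := cst_le e'
    have hb : (P.map cst).sum ≤ bd P := Nat.le_add_left _ _
    have e1 : rN P[(conf P (F w) y k').1]? (parW G)
        (tab (parW G) (bd P + 1) (conf P (F w) y k').2) =
        valL P[(conf P (F w) y k').1]? (uu P (conf P (F w) y k'))
          (vvL P (F w) y (conf P (F w) y k')) := by
      unfold rN vvL
      rw [uN_nam hlt, e']
      simp only [a1, inpL, valL, ifz_zero]
      refine dig_tab (fun j _ => hlt j) ?_
      simp only [cst] at hc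
      omega
    rw [e1]
    by_cases hi' : i = uu P (conf P (F w) y k')
    · subst hi'
      rw [Function.update_self, Function.update_self]
    · rw [Function.update_of_ne hi', Function.update_of_ne hi', hfar i hi]

/-- The silent step after a run. -/
theorem St.step_sil (D : LD) (h : St P F w y G k cw Rc) {k' : ℕ}
    (hf : endN P (parW G) (parM P G) (cod (parW G) (parM P G) (conf P (F w) y k)) (top cw) =
      cod (parW G) (parM P G) (conf P (F w) y k'))
    (hlt : ∀ i, (conf P (F w) y k').2 i < parW G)
    (hfar : ∀ i, parM P G ≤ i → (conf P (F w) y k').2 i = (conf P (F w) y k).2 i)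
    (ha : farN P[(conf P (F w) y k').1]? (parM P G) (uu P (conf P (F w) y k')) ≠ 0)
    (hn : ¬Needs P (F w) y (parM P G) k' Rc) (b : Bool) :
    (mach D P).step b (wd (sto 0 6 G (conf P (F w) y k).1
        (tab (parW G) (bd P + 1) (conf P (F w) y k).2)),
        memF w y (parM P G) cw (conf P (F w) y k).2) =
      (wd (sto 0 8 G
        (Nat.pair (conf P (F w) y k).1 (tab (parW G) (bd P + 1) (conf P (F w) y k).2))
        (Nat.pair (conf P (F w) y k').1 (tab (parW G) (bd P + 1) (conf P (F w) y k').2))),
        memF w y (parM P G) cw (conf P (F w) y (k' + 1)).2) := by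
  have hm := bd_lt P G
  have hn1 : ∀ i j, P[(conf P (F w) y k').1]? ≠ some (.store i j) :=
    fun i j e => hn (Or.inl ⟨i, j, e⟩)
  have hn2 : ∀ i < parM P G, bd P < i → (conf P (F w) y k').2 i = Rc i := by
    intro i hi hi2
    by_contra hcon
    exact hn (Or.inr ⟨i, hi, hi2, hcon⟩)
  have hd1 : dst P[(conf P (F w) y k').1]? (uu P (conf P (F w) y k')) ≤ bd P := by
    rcases dst_le P (conf P (F w) y k').1 (uu P (conf P (F w) y k')) with h1 | ⟨i', j', e', -⟩
    · exact h1
    · exact absurd e' (hn1 i' j')
  have hph : ifz (lt01 (dst P[(conf P (F w) y k').1]? (uu P (conf P (F w) y k'))) (parM P G)) 7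
        (ifz (dirty P (parW G) (parM P G) (tab (parW G) (parM P G) (conf P (F w) y k').2)
          (tab (parW G) (parM P G) Rc)) 8 7) = 8 := by
    have e1 : dirty P (parW G) (parM P G) (tab (parW G) (parM P G) (conf P (F w) y k').2)
        (tab (parW G) (parM P G) Rc) = 0 := by
      refine dirty_eq_zero.2 fun i hi hi2 => ?_
      rw [dig_tab (fun j _ => hlt j) hi, dig_tab h.dg hi]
      exact hn2 i hi hi2
    have e2 : lt01 (dst P[(conf P (F w) y k').1]? (uu P (conf P (F w) y k'))) (parM P G) = 1 := by
      unfold lt01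
      rw [if_pos (by omega)]
    rw [e1, e2, ifz_zero, ifz_ne one_ne_zero]
  have hres := h.res_far hf hlt ha
  rw [hph] at hres
  have hmem : memF w y (parM P G) cw (conf P (F w) y k).2 =
      memF w y (parM P G) cw (conf P (F w) y (k' + 1)).2 := by
    refine memF_congr w y _ fun i hi => ?_
    rw [conf_succ, step_eqL]
    show _ = Function.update (conf P (F w) y k').2 _ _ i
    rw [Function.update_of_ne (by omega)]
    exact (hfar i hi).symm
  rw [← hmem]
  refine step_silent D P (sto_pos _ _ _ _ _) (by rw [pO_sto (by omega)]; omega) b ?_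
    (sto_pos _ _ _ _ _) (by rw [pO_sto (by omega)]; omega) (by rw [pO_sto (by omega)]; omega)
  rw [addrF_456 D P (Or.inr (Or.inr rfl)), memF_one, num_wd h.pos, nextG_6, hres]

/-- The last step. -/
theorem St.step_acc (D : LD) (h : St P F w y G k cw Rc) {k' : ℕ}
    (hf : endN P (parW G) (parM P G) (cod (parW G) (parM P G) (conf P (F w) y k)) (top cw) =
      cod (parW G) (parM P G) (conf P (F w) y k'))
    (ha : P[(conf P (F w) y k').1]? = some .accept) (b : Bool) :
    (mach D P).step b (wd (sto 0 6 G (conf P (F w) y k).1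
        (tab (parW G) (bd P + 1) (conf P (F w) y k).2)),
        memF w y (parM P G) cw (conf P (F w) y k).2) =
      (wd (sto 1 9 0 0 0), memF w y (parM P G) cw (conf P (F w) y k).2) := by
  refine step_silent D P (sto_pos _ _ _ _ _) (by rw [pO_sto (by omega)]; omega) b ?_
    (sto_pos _ _ _ _ _) (by rw [pO_sto (by omega)]; omega) (by rw [pO_sto (by omega)]; omega)
  rw [addrF_456 D P (Or.inr (Or.inr rfl)), memF_one, num_wd h.pos, nextG_6, h.res_acc hf ha]

theorem St.lt_succ (hlt : ∀ i, (conf P (F w) y k).2 i < parW G)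
    (hv : valL P[(conf P (F w) y k).1]? (uu P (conf P (F w) y k))
      (vvL P (F w) y (conf P (F w) y k)) < parW G) :
    ∀ i, (conf P (F w) y (k + 1)).2 i < parW G := by
  intro i
  rw [conf_succ, step_eqL]
  show Function.update (conf P (F w) y k).2 _ _ i < parW G
  by_cases h1 : i = dst P[(conf P (F w) y k).1]? (uu P (conf P (F w) y k))
  · rw [h1, Function.update_self]
    exact hv
  · rw [Function.update_of_ne h1]
    exact hlt i

theorem vvL_lt (h : St P F w y G k cw Rc)
    (ha : farN P[(conf P (F w) y k).1]? (parM P G) (uu P (conf P (F w) y k)) ≠ 0) :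
    valL P[(conf P (F w) y k).1]? (uu P (conf P (F w) y k))
      (vvL P (F w) y (conf P (F w) y k)) < parW G := by
  have h4 := (okN_ne.1 h.ok).1
  have h5 : ∀ a : Option Bool, lett a < parW G := fun a => by
    have := lett_le a
    omega
  rcases far_cases (bd_lt P G) ha with ⟨i, j, e, -⟩ | ⟨i, j, e, -⟩ | ⟨i, j, e⟩ | ⟨i, j, e⟩ <;>
    unfold vvL <;> rw [e] <;> simp only [valL, inpL, ifz_zero]
  · exact h.lt _
  · exact h.lt _
  · rw [ifz_ne one_ne_zero, Nat.sub_self, ifz_zero]
    exact h5 _
  · rw [ifz_ne two_ne_zero, ifz_ne (by norm_num)]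
    exact h5 _

/-- The step after a far access. -/
theorem St.step78 (hF : D.Is F) (h : St P F w y G k cw Rc)
    (ha : farN P[(conf P (F w) y k).1]? (parM P G) (uu P (conf P (F w) y k)) ≠ 0) {ph : ℕ}
    (hph : ph = 7 ∨ ph = 8) (b : Bool) (q : ℕ) :
    (mach D P).step b (wd (sto 0 ph G q (Nat.pair (conf P (F w) y k).1
        (tab (parW G) (bd P + 1) (conf P (F w) y k).2))),
        memF w y (parM P G) cw (conf P (F w) y (k + 1)).2) =
      (wd (sto 0 6 G (conf P (F w) y (k + 1)).1
        (tab (parW G) (bd P + 1) (conf P (F w) y (k + 1)).2)),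
        memF w y (parM P G) cw (conf P (F w) y (k + 1)).2) ∧
      St P F w y G (k + 1) cw Rc := by
  have hm := bd_lt P G
  have hv := vvL_lt h ha
  have hb : (P.map cst).sum ≤ bd P := Nat.le_add_left _ _
  constructor
  · refine step_silent D P (sto_pos _ _ _ _ _) (by rw [pO_sto (by omega)]; omega) b ?_
      (sto_pos _ _ _ _ _) (by rw [pO_sto (by omega)]; omega) (by rw [pO_sto (by omega)]; omega)
    rw [addrF_78 D P hph, nextG_78 D P hph, uN_nam h.lt]
    unfold farR
    rw [uN_nam h.lt, h.len]
    have hN : tab (parW G) (bd P + 1) (conf P (F w) y (k + 1)).2 = tab (parW G) (bd P + 1)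
        (Function.update (conf P (F w) y k).2 (dst P[(conf P (F w) y k).1]?
          (uu P (conf P (F w) y k))) (valL P[(conf P (F w) y k).1]? (uu P (conf P (F w) y k))
            (vvL P (F w) y (conf P (F w) y k)))) := by
      rw [conf_succ, step_eqL]
    have hpc : (conf P (F w) y (k + 1)).1 = npc P[(conf P (F w) y k).1]? (conf P (F w) y k).1
        (uu P (conf P (F w) y k)) := by
      rw [conf_succ, step_eqL]
    rw [hN, hpc]
    congr 1
    rcases far_cases hm ha with ⟨i, j, e, h1⟩ | ⟨i, j, e, h1⟩ | ⟨i, j, e⟩ | ⟨i, j, e⟩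
    · -- load
      have hc := cst_le e
      simp only [cst] at hc
      have hu : uu P (conf P (F w) y k) = (conf P (F w) y k).2 j := by
        unfold uu
        rw [e]
        rfl
      have hnext : (conf P (F w) y (k + 1)).2 ((conf P (F w) y k).2 j) =
          (conf P (F w) y k).2 ((conf P (F w) y k).2 j) := by
        rw [conf_succ]
        unfold step
        rw [e]
        exact Function.update_of_ne (by omega) _ _
      unfold farA farV vvL at *
      rw [e, hu] at hv ⊢
      simp only [inpL, a1, dst, valL, ifz_zero] at hv ⊢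
      rw [memF_far w y (by omega) cw _ h1, num_wd (Nat.succ_pos _), Nat.succ_sub_one, hnext,
        setN_tab (fun i _ => h.lt i) hv]
    · -- store
      have hc := cst_le e
      simp only [cst] at hc
      have hu : uu P (conf P (F w) y k) = (conf P (F w) y k).2 i := by
        unfold uu
        rw [e]
        rfl
      rw [e, hu]
      simp only [dst]
      refine tab_congr fun l hl => ?_
      have h2 : l ≠ (conf P (F w) y k).2 i := by omega
      have e1 : eq01 l ((conf P (F w) y k).2 i) = 0 := by
        unfold eq01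
        rw [if_neg h2]
      rw [e1, ifz_zero, dig_tab (fun j _ => h.lt j) hl, Nat.mod_eq_of_lt (h.lt l),
        Function.update_of_ne h2]
    · -- input
      unfold farA farV vvL at *
      rw [e] at hv ⊢
      simp only [inpL, dst, valL, ifz_ne one_ne_zero, Nat.sub_self, ifz_zero] at hv ⊢
      rw [memF_letter, Nat.add_sub_cancel]
      have h2 := lett_le w[adr1 D w.length (uu P (conf P (F w) y k))]?
      rw [show ∀ z, (lett w[adr1 D w.length (uu P (conf P (F w) y k))]? + 3 * z) % 3 =
        lett w[adr1 D w.length (uu P (conf P (F w) y k))]? from fun z => by omega, lt_eq hF,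
        setN_tab (fun i _ => h.lt i) hv]
    · -- advice
      unfold farA farV vvL at *
      rw [e] at hv ⊢
      simp only [inpL, dst, valL] at hv ⊢
      rw [ifz_ne two_ne_zero, ifz_ne (by norm_num)] at hv
      rw [ifz_ne two_ne_zero, ifz_ne (by norm_num), ifz_ne two_ne_zero, ifz_ne (by norm_num),
        ifz_ne two_ne_zero, ifz_ne (by norm_num)]
      rw [memF_letter, Nat.add_sub_cancel]
      have h2 := lett_le w[uu P (conf P (F w) y k)]?
      rw [show ∀ z, (lett w[uu P (conf P (F w) y k)]? + 3 * z) / 3 = z from fun z => by omega,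
        setN_tab (fun i _ => h.lt i) hv]
  · refine h.old (St.lt_succ h.lt hv) fun i hi hi2 => ?_
    rw [h.near i hi hi2, conf_succ, step_eqL]
    show (conf P (F w) y k).2 i = Function.update (conf P (F w) y k).2 _ _ i
    rw [Function.update_of_ne]
    rcases dst_le P (conf P (F w) y k).1 (uu P (conf P (F w) y k)) with h1 | ⟨i', j', e', h1⟩
    · omega
    · rw [h1]
      rcases far_cases hm ha with ⟨i, j, e, h1⟩ | ⟨i, j, e, h1⟩ | ⟨i, j, e⟩ |
        ⟨i, j, e⟩ <;> rw [e'] at e <;> simp only [Option.some.injEq, reduceCtorEq] at e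
      obtain ⟨rfl, rfl⟩ := Ins.store.inj e
      have hu : uu P (conf P (F w) y k) = (conf P (F w) y k).2 i' := by
        unfold uu
        rw [e']
        rfl
      omega

end main

end Pool.Agent.Helper92.RF
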