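import Pool.Agent.Helper92.KR.Final
import Pool.Agent.Helper92.RF.Fast
import Pool.Agent.Helper31.Ink.Fast

/-!
# Random words: sequential machines
-/

namespace Pool.Agent.Helper92.RF

open Pool.Agent.Helper65.LinSpace Pool.Agent.Helper78.Mpc
open Pool.Agent.Helper81.RP (Ins)
open Pool.Agent.Helper81.Gen4 (Q)
open Pool.Agent.Helper31.Ink (Sparing sim_ink)
open Pool.Agent.Helper92.KR (Desc Rand KHard sim_kr sim_tm sim_tm1 ncard_rand idLD_is)
open Pool.Agent.Helper92.RE (InTime)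

/-- **Random words**, for programs of random access machines and Turing machines. -/
theorem random_words (c : ℕ) (hc : 0 < c) :
    ∃ D₀ : List Bool → List Bool, LinComp D₀ ∧ ∀ D : List Bool → List Bool, LinComp D →
      (∃ b : ℕ, ∀ w k, Desc D₀ w k → Desc D w (k + b)) →
      (∀ g : ℚ, DLINSPACE (Rand D g) ∧ ∀ n : ℕ,
        ({w : List Bool | w.length = n ∧ w ∉ Rand D g}.ncard : ℝ) < 2 ^ ((g : ℝ) * n + 1)) ∧
      (∀ (P : List Ins) (C : ℝ),
        KHard D (fun w α => ∃ t, Pool.Agent.Helper81.RP.AcceptsAt P w α t)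
          (fun w α => Fast P C w α) ∧
        KHard D (fun w α => Q (c * w.length) fun v =>
            ∃ t, Pool.Agent.Helper81.RP.AcceptsAt P w (α ++ v) t)
          fun w α => Q (c * w.length) fun v => Fast P C w (α ++ v)) ∧
      (∀ (k : ℕ) (M : TM k) (C : ℝ),
        KHard D (fun w α => ∃ t, Pool.Agent.Helper31.TMS.AcceptsAt M (w ++ α) t)
          (fun w α => Sparing M C w α) ∧
        KHard D (fun w α => Q (c * w.length) fun v =>
            ∃ t, Pool.Agent.Helper31.TMS.AcceptsAt M (w ++ (α ++ v)) t)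
          fun w α => Q (c * w.length) fun v => Sparing M C w (α ++ v)) ∧
      (∀ (k : ℕ), 0 < k → ∀ (M : TM k) (C : ℝ),
        KHard D (fun w α => ∃ t, Pool.Agent.Helper31.TMS.AcceptsAt M (w ++ α) t)
          (fun w α => InTime M (fun n => C * ((n : ℝ) + 1) ^ (2 : ℝ) /
            ((Nat.log 2 n : ℝ) + 1) ^ 5) (w ++ α)) ∧
        KHard D (fun w α => Q (c * w.length) fun v =>
            ∃ t, Pool.Agent.Helper31.TMS.AcceptsAt M (w ++ (α ++ v)) t)
          fun w α => Q (c * w.length) fun v =>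
            InTime M (fun n => C * ((n : ℝ) + 1) ^ (2 : ℝ) /
              ((Nat.log 2 n : ℝ) + 1) ^ 5) (w ++ (α ++ v))) ∧
      ∀ (M : TM 1) (C : ℝ),
        KHard D (fun w α => ∃ t, Pool.Agent.Helper31.TMS.AcceptsAt M (w ++ α) t)
          (fun w α => InTime M (fun n => C * ((n : ℝ) + 1) ^ ((5 : ℝ) / 2) /
            ((Nat.log 2 n : ℝ) + 1) ^ 6) (w ++ α)) ∧
        KHard D (fun w α => Q (c * w.length) fun v =>
            ∃ t, Pool.Agent.Helper31.TMS.AcceptsAt M (w ++ (α ++ v)) t)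
          fun w α => Q (c * w.length) fun v =>
            InTime M (fun n => C * ((n : ℝ) + 1) ^ ((5 : ℝ) / 2) /
              ((Nat.log 2 n : ℝ) + 1) ^ 6) (w ++ (α ++ v)) := by
  obtain ⟨D₀, h1, -, h2⟩ := sim_kr c hc
  have hlen : ∀ w : List Bool, w.length ≤ 1 * (w.length + 1) := fun w => by omega
  refine ⟨D₀, h1, fun D hD hb => ?_⟩
  obtain ⟨h3, h4⟩ := h2 D hD hb
  refine ⟨fun g => ⟨h3 g, ncard_rand D g⟩, fun P C => ?_, fun k M C => ?_, fun k hk M C => ?_,
    fun M C => ?_⟩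
  · exact (h4 _ _ (sim_ram hc idLD_is hlen (fun _ => le_rfl) P C)).symm
  · exact (h4 _ _ (sim_ink hc idLD_is hlen (fun _ => le_rfl) M C)).symm
  · exact (h4 _ _ (sim_tm hk idLD_is hlen (fun _ => le_rfl) M C)).symm
  · exact (h4 _ _ (sim_tm1 idLD_is hlen (fun _ => le_rfl) M C)).symm

end Pool.Agent.Helper92.RF
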