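import Pool.Agent.Helper92.RE.Final
import Pool.Agent.Helper92.RF.Fast
import Pool.Agent.Helper31.Ink.Fast

/-!
# Regular expressions: sequential machines
-/

namespace Pool.Agent.Helper92.RF

open Pool.Agent.Helper65.LinSpace Pool.Agent.Helper78.Mpc
open Pool.Agent.Helper81.RP (Ins)
open Pool.Agent.Helper81.Gen4 (Q)
open Pool.Agent.Helper31.Gen5 (Hard)
open Pool.Agent.Helper31.Ink (Sparing sim_ink)
open Pool.Agent.Helper92.KR (sim_hard sim_tm sim_tm1)
open Pool.Agent.Helper92.RE (enc Universal NonUniversal LD InTime exists_code redB exists_red Loc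
  loc_redB le_redB finite_of_hard half_of_hard)

/-- **Regular expressions.** -/
theorem regex (c : ℕ) (hc : 0 < c) :
    ∃ (L : Set (List Bool)) (f : List Bool → RegularExpression Bool) (b : ℕ), DLINSPACE L ∧
      LinComp (fun w => enc (f w)) ∧
      (∀ w, w.length ≤ (enc (f w)).length ∧ (enc (f w)).length ≤ b * (w.length + 1)) ∧
      (∀ w, (f w).matches' = ⊤ ↔ w ∉ L) ∧
      (∃ c' : ℝ, ∀ n : ℕ, |({w : List Bool | w.length = n ∧ w ∈ L}.ncard : ℝ) - 2 ^ n / 2| ≤
        c' * 2 ^ ((n : ℝ) / 2)) ∧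
      (∀ (P : List Ins) (C : ℝ),
        Hard L c (fun w α => ∃ t, Pool.Agent.Helper81.RP.AcceptsAt P (enc (f w)) α t)
          (fun w α => Fast P C (enc (f w)) α) ∧
        Hard L c (fun w α => Q (c * w.length) fun v =>
            ∃ t, Pool.Agent.Helper81.RP.AcceptsAt P (enc (f w)) (α ++ v) t)
          (fun w α => Q (c * w.length) fun v => Fast P C (enc (f w)) (α ++ v))) ∧
      (∀ (k : ℕ) (M : TM k) (C : ℝ),
        Hard L c (fun w α => ∃ t, Pool.Agent.Helper31.TMS.AcceptsAt M (enc (f w) ++ α) t)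
          (fun w α => Sparing M C (enc (f w)) α) ∧
        Hard L c (fun w α => Q (c * w.length) fun v =>
            ∃ t, Pool.Agent.Helper31.TMS.AcceptsAt M (enc (f w) ++ (α ++ v)) t)
          (fun w α => Q (c * w.length) fun v => Sparing M C (enc (f w)) (α ++ v))) ∧
      (∀ (k : ℕ), 0 < k → ∀ (M : TM k) (C : ℝ),
        Hard L c (fun w α => ∃ t, Pool.Agent.Helper31.TMS.AcceptsAt M (enc (f w) ++ α) t)
          (fun w α => InTime M (fun n => C * ((n : ℝ) + 1) ^ (2 : ℝ) /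
            ((Nat.log 2 n : ℝ) + 1) ^ 5) (enc (f w) ++ α)) ∧
        Hard L c (fun w α => Q (c * w.length) fun v =>
            ∃ t, Pool.Agent.Helper31.TMS.AcceptsAt M (enc (f w) ++ (α ++ v)) t)
          (fun w α => Q (c * w.length) fun v =>
            InTime M (fun n => C * ((n : ℝ) + 1) ^ (2 : ℝ) /
              ((Nat.log 2 n : ℝ) + 1) ^ 5) (enc (f w) ++ (α ++ v)))) ∧
      (∀ (M : TM 1) (C : ℝ),
        Hard L c (fun w α => ∃ t, Pool.Agent.Helper31.TMS.AcceptsAt M (enc (f w) ++ α) t)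
          (fun w α => InTime M (fun n => C * ((n : ℝ) + 1) ^ ((5 : ℝ) / 2) /
            ((Nat.log 2 n : ℝ) + 1) ^ 6) (enc (f w) ++ α)) ∧
        Hard L c (fun w α => Q (c * w.length) fun v =>
            ∃ t, Pool.Agent.Helper31.TMS.AcceptsAt M (enc (f w) ++ (α ++ v)) t)
          (fun w α => Q (c * w.length) fun v =>
            InTime M (fun n => C * ((n : ℝ) + 1) ^ ((5 : ℝ) / 2) /
              ((Nat.log 2 n : ℝ) + 1) ^ 6) (enc (f w) ++ (α ++ v)))) ∧
      ∀ U : Set (List Bool), U = Universal ∨ U = NonUniversal →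
        (∀ (P : List Ins) (C : ℝ),
          (∀ x, (∃ t, Pool.Agent.Helper81.RP.AcceptsAt P x [] t) → x ∈ U) →
          {w | Fast P C (enc (f w)) []}.Finite) ∧
        (∀ (k : ℕ) (M : TM k) (C : ℝ),
          (∀ x, (∃ t, Pool.Agent.Helper31.TMS.AcceptsAt M x t) → x ∈ U) →
          {w | Sparing M C (enc (f w)) []}.Finite) ∧
        (∀ (k : ℕ), 0 < k → ∀ (M : TM k) (C : ℝ),
          (∀ x, (∃ t, Pool.Agent.Helper31.TMS.AcceptsAt M x t) → x ∈ U) →
          {w | InTime M (fun n => C * ((n : ℝ) + 1) ^ (2 : ℝ) /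
            ((Nat.log 2 n : ℝ) + 1) ^ 5) (enc (f w))}.Finite) ∧
        ∀ (M : TM 1) (C : ℝ),
          (∀ x, (∃ t, Pool.Agent.Helper31.TMS.AcceptsAt M x t) → x ∈ U) →
          {w | InTime M (fun n => C * ((n : ℝ) + 1) ^ ((5 : ℝ) / 2) /
            ((Nat.log 2 n : ℝ) + 1) ^ 6) (enc (f w))}.Finite := by
  obtain ⟨L, hL, hH⟩ := sim_hard c hc
  refine ⟨L, ?_⟩
  obtain ⟨k₀, M₀, a, hM⟩ := id hL
  obtain ⟨b₀, code, hb₀, hcode⟩ := Pool.Agent.Helper92.RE.exists_code M₀
  obtain ⟨f, hfdef⟩ : ∃ f : List Bool → RegularExpression Bool,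
      f = fun w => redB code w ((a + 1) * (w.length + 1)) := ⟨_, rfl⟩
  have hf : ∀ w, (f w).matches' = ⊤ ↔ w ∉ L := fun w => by
    rw [hfdef]
    exact exists_red hM hb₀ hcode w
  have hloc : Loc fun w => enc (f w) := by
    rw [hfdef]
    exact loc_redB code (o := fun n => (a + 1) * (n + 1)) (by fun_prop) (a := a + 1)
      fun n => le_rfl
  have hle : ∀ w : List Bool, w.length ≤ (enc (f w)).length := fun w => by
    rw [hfdef]
    refine le_trans ?_ (le_redB code w ((a + 1) * (w.length + 1)))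
    nlinarith [Nat.zero_le a, Nat.zero_le w.length]
  obtain ⟨D, hD, b, hlen⟩ := hloc.exists_ld
  have hR := fun (P : List Ins) (C : ℝ) => hH _ _ (sim_ram hc hD hlen hle P C)
  have hI := fun (k : ℕ) (M : TM k) (C : ℝ) => hH _ _ (sim_ink hc hD hlen hle M C)
  have hT := fun (k : ℕ) (hk : 0 < k) (M : TM k) (C : ℝ) =>
    hH _ _ (sim_tm (c := c) hk hD hlen hle M C)
  have hT1 := fun (M : TM 1) (C : ℝ) => hH _ _ (sim_tm1 (c := c) hD hlen hle M C)
  have hnil : ∀ w, enc (f w) ++ [] = enc (f w) := fun w => List.append_nil _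
  refine ⟨f, b, hL, hloc.linComp, fun w => ⟨hle w, hlen w⟩, hf, ?_, fun P C => (hR P C).symm,
    fun k M C => (hI k M C).symm, fun k hk M C => (hT k hk M C).symm, fun M C => (hT1 M C).symm,
    fun U hU => ⟨?_, ?_, ?_, ?_⟩⟩
  · refine half_of_hard (c := c) ((hR [] 0).2.mono ?_ ?_)
    · rintro w α ⟨t, ht⟩
      have h1 : (none : Option Ins) = some .accept := ht
      exact absurd h1 (by simp)
    · exact fun w α h => h.elim
  · intro P C hA
    exact finite_of_hard (hR P C).2 hf hU fun w hw => hA _ hw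
  · intro k M C hA
    exact finite_of_hard (hI k M C).2 hf hU fun w ⟨t, ht⟩ => by
      rw [hnil] at ht
      exact hA _ ⟨t, ht⟩
  · intro k hk M C hA
    have h1 := finite_of_hard (hT k hk M C).2 hf hU fun w ⟨t, ht⟩ => by
      rw [hnil] at ht
      exact hA _ ⟨t, ht⟩
    simpa only [hnil] using h1
  · intro M C hA
    have h1 := finite_of_hard (hT1 M C).2 hf hU fun w ⟨t, ht⟩ => by
      rw [hnil] at ht
      exact hA _ ⟨t, ht⟩
    simpa only [hnil] using h1

end Pool.Agent.Helper92.RF
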