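import Pool.Agent.Helper92.RF.Main

/-!
# Programs with few costly accesses as machines with messages: soundness
-/

namespace Pool.Agent.Helper92.RF

open Pool.Agent.Helper65.LinSpace Pool.Agent.Helper78.Mpc Pool.Agent.Helper28.Ram Finset
open Pool.Agent.Helper81.Sus2
open Pool.Agent.Helper81.RP (Ins lett step AcceptsAt conf wd wf num_wd wd_num wf_eq linComp_wf
  length_wd ls_pair hd tl ls_hd ls_tl hd_eq tl_eq a0 a1 dst npc uu ls_a1 ls_dst
  ls_npc selF selF_eq ls_selF isA accF accF_le accF_eq_one ls_accF bd pc_le a0_le a1_le npc_le cst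
  cst_le wd_one head_name wd_cons_false hd_read step_of head_wd conf_succ)
open Pool.Agent.Helper92.RE (LD inpL valL vvL step_eqL ls_valL lett_le lett_none lt_eq adr1 ls_adr1
  sto pO nO uO vO sto_pos pO_sto nO_sto uO_sto vO_sto ls_sto ls_pO ls_nO ls_uO ls_vO head_st
  nconf_succ)

theorem conf_add (P : List Ins) (x y : List Bool) (k j : ℕ) :
    conf P x y (k + j) = (step P x y)^[j] (conf P x y k) := by
  unfold conf
  rw [Nat.add_comm, Function.iterate_add_apply]

theorem mem0_eq (D : LD) (P : List Ins) (w y : List Bool) (m : ℕ) :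
    (mach D P).mem0 w y = memF w y m 1 fun _ => 0 := by
  funext i
  rw [memF_zero]
  rcases i with _ | ⟨b, u⟩
  · rfl
  · cases b <;> rfl

theorem tab_const_zero (W m : ℕ) : tab W m (fun _ => 0) = 0 := by
  unfold tab
  simp

/-- The configurations of the machine. -/
def Inv (P : List Ins) (F : List Bool → List Bool) (w y : List Bool)
    (c : List Bool × (List Bool → List Bool)) : Prop :=
  (∃ G, (c.1 = wd (sto 0 0 0 G 0) ∨ c.1 = wd (sto 0 1 0 G 0) ∨ c.1 = wd (sto 0 2 G 0 0)) ∧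
    ∀ m, c.2 = memF w y m 1 fun _ => 0) ∨
  (∃ G, c.1 = wd (sto 0 3 G 0 0) ∧ w.length ≤ parN G ∧ parN G ≠ 0 ∧
    ∀ m, c.2 = memF w y m 1 fun _ => 0) ∨
  (∃ G l, (c.1 = wd (sto 0 4 G 0 0) ∨ c.1 = wd (sto 0 5 G 0 0)) ∧ parN G = w.length ∧
    c.2 = memF w y (parM P G) (2 ^ l) fun _ => 0) ∨
  (∃ G k cw Rc, St P F w y G k cw Rc ∧ c = (wd (sto 0 6 G (conf P (F w) y k).1
    (tab (parW G) (bd P + 1) (conf P (F w) y k).2)),
      memF w y (parM P G) cw (conf P (F w) y k).2)) ∨
  (∃ G k cw Rc q ph, St P F w y G k cw Rc ∧ (ph = 7 ∨ ph = 8) ∧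
    farN P[(conf P (F w) y k).1]? (parM P G) (uu P (conf P (F w) y k)) ≠ 0 ∧
      c = (wd (sto 0 ph G q (Nat.pair (conf P (F w) y k).1
        (tab (parW G) (bd P + 1) (conf P (F w) y k).2))),
        memF w y (parM P G) cw (conf P (F w) y (k + 1)).2)) ∨
  (c.1 = wd (sto 1 9 0 0 0) ∧ ∃ t, AcceptsAt P (F w) y t) ∨ c.1 = wd (sto 0 10 0 0 0)

section

variable {D : LD} {P : List Ins} {F : List Bool → List Bool} {w y : List Bool}

/-- The beginning of the main phase. -/
theorem St.start {G l : ℕ} (hn : parN G = w.length) (hok : okN P G (2 ^ l) ≠ 0) :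
    St P F w y G 0 (2 ^ l) fun _ => 0 := by
  have h4 := (okN_ne.1 hok).1
  refine ⟨hok, hn, fun i => ?_, ?_, fun _ _ => by omega, fun _ _ _ => rfl⟩
  · show 0 < parW G
    omega
  · rw [top_pow, tab_const_zero, add_zero]

/-- A run from a configuration of the program. -/
theorem St.run {G k cw : ℕ} {Rc : ℕ → ℕ} (h : St P F w y G k cw Rc) :
    Dead P (endN P (parW G) (parM P G) (cod (parW G) (parM P G) (conf P (F w) y k)) (top cw)) ∨
    ∃ k', k ≤ k' ∧ endN P (parW G) (parM P G) (cod (parW G) (parM P G) (conf P (F w) y k))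
      (top cw) = cod (parW G) (parM P G) (conf P (F w) y k') ∧
      (∀ i, (conf P (F w) y k').2 i < parW G) ∧
      ∀ i, parM P G ≤ i → (conf P (F w) y k').2 i = (conf P (F w) y k).2 i := by
  rcases runN_sound (W := parW G) (m := parM P G) (F w) y (bd_lt P G)
    (c := conf P (F w) y k) (fun i _ => h.lt i)
    (capN P (cod (parW G) (parM P G) (conf P (F w) y k)) (top cw) + 1) with h1 | ⟨j, h1, h2, h3⟩
  · exact Or.inl h1
  · rw [← conf_add] at h1 h2 h3
    refine Or.inr ⟨k + j, Nat.le_add_right _ _, h1, fun i => ?_, h3⟩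
    rcases lt_or_ge i (parM P G) with hi | hi
    · exact h2 i hi
    · rw [h3 i hi]
      exact h.lt i

/-- The invariant. -/
theorem inv_step (hF : D.Is F) {c : List Bool × (List Bool → List Bool)} (b : Bool)
    (h : Inv P F w y c) : Inv P F w y ((mach D P).step b c) := by
  rcases h with ⟨G, h1, h2⟩ | ⟨G, h1, h2, h3, h4⟩ | ⟨G, l, h1, h2, h3⟩ | ⟨G, k, cw, Rc, h1, h2⟩ |
    ⟨G, k, cw, Rc, q, ph, h1, h2, h3, h4⟩ | ⟨h1, h2⟩ | h1
  · obtain ⟨c1, c2⟩ := c
    rcases h1 with h1 | h1 | h1 <;> dsimp only at h1 h2 <;> subst h1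
    · rw [step_p0]
      refine Or.inl ?_
      cases b
      · exact ⟨G, Or.inr (Or.inr rfl), h2⟩
      · exact ⟨G, Or.inr (Or.inl rfl), h2⟩
    · rw [step_p1]
      exact Or.inl ⟨_, Or.inl rfl, h2⟩
    · rw [h2 (parM P G), step_p2]
      by_cases h3 : w.length ≤ parN G
      · rw [if_pos h3]
        by_cases h4 : parN G = 0
        · rw [if_pos h4]
          refine Or.inr (Or.inr (Or.inl ⟨G, 0, Or.inl rfl, by omega, ?_⟩))
          rw [pow_zero]
        · rw [if_neg h4]
          refine Or.inr (Or.inl ⟨G, rfl, h3, h4, fun m => ?_⟩)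
          dsimp only
          rw [← h2 m, ← h2 (parM P G)]
      · rw [if_neg h3]
        exact Or.inr (Or.inr (Or.inr (Or.inr (Or.inr (Or.inr rfl)))))
  · obtain ⟨c1, c2⟩ := c
    dsimp only at h1 h4
    subst h1
    rw [h4 (parM P G), step_p3]
    by_cases h5 : parN G - 1 < w.length
    · rw [if_pos h5]
      refine Or.inr (Or.inr (Or.inl ⟨G, 0, Or.inl rfl, by omega, ?_⟩))
      rw [pow_zero]
    · rw [if_neg h5]
      exact Or.inr (Or.inr (Or.inr (Or.inr (Or.inr (Or.inr rfl)))))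
  · obtain ⟨c1, c2⟩ := c
    rcases h1 with h1 | h1 <;> dsimp only at h1 h3 <;> subst h1 h3
    · rw [step_p4 D P w y b G _ (by positivity)]
      by_cases h4 : okN P G (2 ^ l) = 0
      · rw [if_pos h4]
        refine Or.inr (Or.inr (Or.inl ⟨G, 2 * l + 1, Or.inr rfl, h2, ?_⟩))
        dsimp only
        rw [show 2 * (2 ^ l) ^ 2 = 2 ^ (2 * l + 1) by rw [← pow_mul, pow_succ, mul_comm l]; ring]
      · rw [if_neg h4]
        have h5 := St.start (F := F) (w := w) (y := y) h2 h4
        refine Or.inr (Or.inr (Or.inr (Or.inl ⟨G, 0, _, _, h5, ?_⟩)))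
        rw [show (conf P (F w) y 0).2 = fun _ => 0 from rfl, tab_const_zero]
        rfl
    · rw [step_p5]
      exact Or.inr (Or.inr (Or.inl ⟨G, l, Or.inl rfl, h2, rfl⟩))
  · subst h2
    rcases h1.run with hd | ⟨k', hk, he, hlt, hfar⟩
    · refine Or.inr (Or.inr (Or.inr (Or.inr (Or.inr (Or.inr ?_)))))
      rw [step_det D P (sto_pos _ _ _ _ _) (by rw [pO_sto (by omega)]; omega),
        addrF_456 D P (Or.inr (Or.inr rfl)), memF_one, num_wd h1.pos, nextG_6, h1.res_dead hd]
    · by_cases ha : P[(conf P (F w) y k').1]? = some .accept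
      · rw [h1.step_acc D he ha]
        exact Or.inr (Or.inr (Or.inr (Or.inr (Or.inr (Or.inl ⟨rfl, k', ha⟩)))))
      · by_cases hf : farN P[(conf P (F w) y k').1]? (parM P G) (uu P (conf P (F w) y k')) = 0
        · refine Or.inr (Or.inr (Or.inr (Or.inr (Or.inr (Or.inr ?_)))))
          rw [step_det D P (sto_pos _ _ _ _ _) (by rw [pO_sto (by omega)]; omega),
            addrF_456 D P (Or.inr (Or.inr rfl)), memF_one, num_wd h1.pos, nextG_6,
            h1.res_near he hlt ha hf]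
        · refine Or.inr (Or.inr (Or.inr (Or.inr (Or.inl ?_))))
          by_cases hn : Needs P (F w) y (parM P G) k' Rc
          · rw [h1.step_msg D he hlt hfar hf hn]
            exact ⟨G, k', _, _, _, 7, h1.new hlt, Or.inl rfl, hf, rfl⟩
          · rw [h1.step_sil D he hlt hfar hf hn]
            refine ⟨G, k', _, _, _, 8, h1.old hlt fun i hi hi2 => ?_, Or.inr rfl, hf, rfl⟩
            by_contra hcon
            exact hn (Or.inr ⟨i, hi, hi2, fun h => hcon h.symm⟩)
  · subst h4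
    obtain ⟨e, h5⟩ := h1.step78 hF h3 h2 b q
    rw [e]
    exact Or.inr (Or.inr (Or.inr (Or.inl ⟨G, k + 1, cw, Rc, h5, rfl⟩)))
  · obtain ⟨c1, c2⟩ := c
    dsimp only at h1
    subst h1
    rw [step_p9 D P (by omega) (by omega)]
    exact Or.inr (Or.inr (Or.inr (Or.inr (Or.inr (Or.inr rfl)))))
  · obtain ⟨c1, c2⟩ := c
    dsimp only at h1
    subst h1
    rw [step_p9 D P (by omega) (by omega)]
    exact Or.inr (Or.inr (Or.inr (Or.inr (Or.inr (Or.inr rfl)))))

theorem inv_conf (hF : D.Is F) (g : ℕ → Bool) (t : ℕ) :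
    Inv P F w y ((mach D P).conf w y g t) := by
  induction t with
  | zero => exact Or.inl ⟨0, Or.inl rfl, fun m => mem0_eq D P w y m⟩
  | succ t ih =>
    rw [nconf_succ]
    exact inv_step hF _ ih

theorem inv_head {c : List Bool × (List Bool → List Bool)} (h : Inv P F w y c)
    (hA : c.1.head? = some true) : ∃ t, AcceptsAt P (F w) y t := by
  obtain ⟨c1, c2⟩ := c
  dsimp only at hA
  have key : ∀ ph p u v, c1 = wd (sto 0 ph p u v) → False := by
    intro ph p u v h1
    rw [h1, head_st (Nat.zero_le 1)] at hA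
    exact absurd hA (by norm_num)
  rcases h with ⟨G, h1, -⟩ | ⟨G, h1, -⟩ | ⟨G, l, h1, -⟩ | ⟨G, k, cw, Rc, -, h1⟩ |
    ⟨G, k, cw, Rc, q, ph, -, -, -, h1⟩ | ⟨-, h1⟩ | h1
  · rcases h1 with h1 | h1 | h1
    · exact (key _ _ _ _ h1).elim
    · exact (key _ _ _ _ h1).elim
    · exact (key _ _ _ _ h1).elim
  · exact (key _ _ _ _ h1).elim
  · rcases h1 with h1 | h1
    · exact (key _ _ _ _ h1).elim
    · exact (key _ _ _ _ h1).elim
  · exact (key _ _ _ _ (Prod.mk.inj h1).1).elim
  · exact (key _ _ _ _ (Prod.mk.inj h1).1).elim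
  · exact h1
  · exact (key _ _ _ _ h1).elim

/-- **Soundness.** -/
theorem accepts_sound (hF : D.Is F) {g : ℕ → Bool} {r : ℕ}
    (h : (mach D P).AcceptsAt w y g r) : ∃ t, AcceptsAt P (F w) y t :=
  inv_head (inv_conf hF g r) h

end

end Pool.Agent.Helper92.RF
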