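import Pool.Agent.Helper92.RF.Sound

/-!
# Programs with few costly accesses as machines with messages: the computation
-/

namespace Pool.Agent.Helper92.RF

open Pool.Agent.Helper65.LinSpace Pool.Agent.Helper78.Mpc Pool.Agent.Helper28.Ram Finset
open Pool.Agent.Helper81.Sus2
open Pool.Agent.Helper81.RP (Ins lett step AcceptsAt conf wd wf num_wd wd_num wf_eq linComp_wf
  length_wd ls_pair hd tl ls_hd ls_tl hd_eq tl_eq a0 a1 dst npc uu ls_a1 ls_dst
  ls_npc selF selF_eq ls_selF isA accF accF_le accF_eq_one ls_accF bd pc_le a0_le a1_le npc_le cst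
  cst_le wd_one head_name wd_cons_false hd_read step_of head_wd conf_succ)
open Pool.Agent.Helper92.RE (LD inpL valL vvL step_eqL ls_valL lett_le lett_none lt_eq adr1 ls_adr1
  sto pO nO uO vO sto_pos pO_sto nO_sto uO_sto vO_sto ls_sto ls_pO ls_nO ls_uO ls_vO head_st
  nconf_succ)
open scoped Classical

section

/-- The step after the time `k` is far. -/
def FarAt (P : List Ins) (x y : List Bool) (m k : ℕ) : Prop :=
  farN P[(conf P x y k).1]? m (uu P (conf P x y k)) ≠ 0

/-- The time after the last far step before `k`. -/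
noncomputable def stF (P : List Ins) (x y : List Bool) (m : ℕ) : ℕ → ℕ
  | 0 => 0
  | k + 1 => if FarAt P x y m k then k + 1 else stF P x y m k

/-- The number of far steps before `k`. -/
noncomputable def cntF (P : List Ins) (x y : List Bool) (m : ℕ) : ℕ → ℕ
  | 0 => 0
  | k + 1 => if FarAt P x y m k then cntF P x y m k + 1 else cntF P x y m k

/-- The digits of the cell. -/
noncomputable def rcF (P : List Ins) (x y : List Bool) (m : ℕ) : ℕ → ℕ → ℕ
  | 0 => fun _ => 0
  | k + 1 => if FarAt P x y m k ∧ Needs P x y m k (rcF P x y m k) then (conf P x y k).2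
      else rcF P x y m k

/-- The step after the time `k` is a message of the machine. -/
def MsgAt (P : List Ins) (x y : List Bool) (m k : ℕ) : Prop :=
  FarAt P x y m k ∧ Needs P x y m k (rcF P x y m k)

variable {P : List Ins} {x y : List Bool} {m : ℕ}

theorem stF_le (k : ℕ) : stF P x y m k ≤ k := by
  induction k with
  | zero => exact le_rfl
  | succ k ih =>
    unfold stF
    split_ifs
    · exact le_rfl
    · omega

theorem stF_near {k i : ℕ} (h1 : stF P x y m k ≤ i) (h2 : i < k) : ¬FarAt P x y m i := by
  induction k with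
  | zero => omega
  | succ k ih =>
    unfold stF at h1
    split_ifs at h1 with h
    · omega
    · rcases Nat.lt_succ_iff_lt_or_eq.1 h2 with h3 | rfl
      · exact ih h1 h3
      · exact h

theorem cntF_succ_far {k : ℕ} (h : FarAt P x y m k) :
    cntF P x y m (k + 1) = cntF P x y m k + 1 := by
  show (if FarAt P x y m k then _ else _) = _
  rw [if_pos h]

theorem cntF_succ_near {k : ℕ} (h : ¬FarAt P x y m k) :
    cntF P x y m (k + 1) = cntF P x y m k := by
  show (if FarAt P x y m k then _ else _) = _
  rw [if_neg h]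

theorem cntF_mono {k k' : ℕ} (h : k ≤ k') : cntF P x y m k ≤ cntF P x y m k' := by
  induction k' with
  | zero =>
    rw [show k = 0 by omega]
  | succ k' ih =>
    rcases Nat.le_succ_iff.1 h with h1 | rfl
    · refine (ih h1).trans ?_
      by_cases hp : FarAt P x y m k'
      · rw [cntF_succ_far hp]
        omega
      · rw [cntF_succ_near hp]
    · exact le_rfl

theorem cntF_lt {k k' : ℕ} (h : k < k') (hp : FarAt P x y m k) :
    cntF P x y m k < cntF P x y m k' := by
  have h1 := cntF_mono (P := P) (x := x) (y := y) (m := m) (Nat.succ_le_of_lt h)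
  rw [cntF_succ_far hp] at h1
  omega

theorem cntF_sub {k k' : ℕ} (h : k ≤ k') : cntF P x y m k' ≤ cntF P x y m k + (k' - k) := by
  induction k' with
  | zero => rw [show k = 0 by omega]; omega
  | succ k' ih =>
    rcases Nat.le_succ_iff.1 h with h1 | rfl
    · have h2 := ih h1
      by_cases hp : FarAt P x y m k'
      · rw [cntF_succ_far hp]
        omega
      · rw [cntF_succ_near hp]
        omega
    · exact Nat.le_add_right _ _

theorem exists_far {T j : ℕ} (h : j < cntF P x y m T) :
    ∃ k < T, FarAt P x y m k ∧ cntF P x y m k = j := by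
  induction T with
  | zero => exact absurd h (Nat.not_lt_zero _)
  | succ T ih =>
    by_cases hp : FarAt P x y m T
    · rw [cntF_succ_far hp] at h
      rcases Nat.lt_succ_iff_lt_or_eq.1 h with h1 | rfl
      · obtain ⟨k, h2, h3⟩ := ih h1
        exact ⟨k, by omega, h3⟩
      · exact ⟨T, Nat.lt_succ_self _, hp, rfl⟩
    · rw [cntF_succ_near hp] at h
      obtain ⟨k, h2, h3⟩ := ih h
      exact ⟨k, by omega, h3⟩

end

section main

variable {D : LD} {P : List Ins} {F : List Bool → List Bool} {w y : List Bool} {G : ℕ}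

/-- The end of the run before the time `k`. -/
theorem run_end {k : ℕ} (hW : 0 < parW G) {c : ℕ} (hB : parW G ^ parM P G ≤ top c)
    (hlt : ∀ i ≤ k, ∀ j, (conf P (F w) y i).2 j < parW G)
    (he : FarAt P (F w) y (parM P G) k ∨ P[(conf P (F w) y k).1]? = some .accept) :
    endN P (parW G) (parM P G) (cod (parW G) (parM P G)
      (conf P (F w) y (stF P (F w) y (parM P G) k))) (top c) =
      cod (parW G) (parM P G) (conf P (F w) y k) := by
  have h1 := stF_le (P := P) (x := F w) (y := y) (m := parM P G) k
  obtain ⟨j, hj⟩ := Nat.exists_eq_add_of_le h1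
  have h2 := endN_reach (x := F w) (y := y) (bd_lt P G) hW hB
    (k := stF P (F w) y (parM P G) k) (j := j) (fun i hi r _ => hlt _ (by omega) r)
    (fun i hi => by
      have h3 := stF_near (P := P) (x := F w) (y := y) (m := parM P G) (k := k)
        (i := stF P (F w) y (parM P G) k + i) (by omega) (by omega)
      unfold FarAt at h3
      exact not_not.1 h3) (by
      rw [← hj]
      exact he)
  rw [← hj] at h2
  exact h2

theorem far_same {k : ℕ} {i : ℕ} (hi : parM P G ≤ i) :
    (conf P (F w) y k).2 i = (conf P (F w) y (stF P (F w) y (parM P G) k)).2 i := by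
  have key : ∀ j, stF P (F w) y (parM P G) k + j ≤ k →
      (conf P (F w) y (stF P (F w) y (parM P G) k + j)).2 i =
        (conf P (F w) y (stF P (F w) y (parM P G) k)).2 i := by
    intro j
    induction j with
    | zero => exact fun _ => rfl
    | succ j ih =>
      intro hj
      have h3 := stF_near (P := P) (x := F w) (y := y) (m := parM P G) (k := k)
        (i := stF P (F w) y (parM P G) k + j) (by omega) (by omega)
      rw [← Nat.add_assoc, conf_succ, step_far (not_not.1 h3) hi]
      exact ih (by omega)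
  have h1 := stF_le (P := P) (x := F w) (y := y) (m := parM P G) k
  obtain ⟨j, hj⟩ := Nat.exists_eq_add_of_le h1
  have h2 := key j (by omega)
  rw [← hj] at h2
  exact h2

/-- The configurations of the machine in the main phase. -/
theorem conf_main (hF : D.Is F) {g : ℕ → Bool} {T τ l : ℕ}
    (h0 : (mach D P).conf w y g τ = (wd (sto 0 6 G 0 0), memF w y (parM P G) (2 ^ l) fun _ => 0))
    (hn : parN G = w.length) (hok : okN P G (2 ^ l) ≠ 0)
    (hlt : ∀ k ≤ T, ∀ i, (conf P (F w) y k).2 i < parW G) {k : ℕ} (hk : k ≤ T) :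
    (mach D P).conf w y g (τ + 2 * cntF P (F w) y (parM P G) k) =
      (wd (sto 0 6 G (conf P (F w) y (stF P (F w) y (parM P G) k)).1
        (tab (parW G) (bd P + 1) (conf P (F w) y (stF P (F w) y (parM P G) k)).2)),
        memF w y (parM P G) (2 ^ l + tab (parW G) (parM P G) (rcF P (F w) y (parM P G) k))
          (conf P (F w) y k).2) ∧
      St P F w y G (stF P (F w) y (parM P G) k)
        (2 ^ l + tab (parW G) (parM P G) (rcF P (F w) y (parM P G) k))
        (rcF P (F w) y (parM P G) k) := by
  induction k with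
  | zero =>
    have e1 : tab (parW G) (parM P G) (rcF P (F w) y (parM P G) 0) = 0 := tab_const_zero _ _
    have e2 : tab (parW G) (bd P + 1) (conf P (F w) y (stF P (F w) y (parM P G) 0)).2 = 0 :=
      tab_const_zero _ _
    rw [e1, e2, add_zero]
    exact ⟨h0, St.start hn hok⟩
  | succ k ih =>
    obtain ⟨h1, h2⟩ := ih (by omega)
    have htop : top (2 ^ l + tab (parW G) (parM P G) (rcF P (F w) y (parM P G) k)) = 2 ^ l := by
      have := h2.cell
      omega
    have hW := parW_pos G
    by_cases hp : FarAt P (F w) y (parM P G) k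
    · have hend := run_end hW (okN_ne.1 h2.ok).2 (fun i hi => hlt i (by omega)) (Or.inl hp)
      have hsame : ∀ i, parM P G ≤ i → (conf P (F w) y k).2 i =
          (conf P (F w) y (stF P (F w) y (parM P G) k)).2 i := fun i hi => far_same hi
      have hmem := memF_congr w y
        (2 ^ l + tab (parW G) (parM P G) (rcF P (F w) y (parM P G) k)) hsame
      rw [hmem] at h1
      have e1 : stF P (F w) y (parM P G) (k + 1) = k + 1 := if_pos hp
      rw [cntF_succ_far hp, e1, show τ + 2 * (cntF P (F w) y (parM P G) k + 1) =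
        τ + 2 * cntF P (F w) y (parM P G) k + 1 + 1 by ring, nconf_succ, nconf_succ, h1]
      by_cases hn' : Needs P (F w) y (parM P G) k (rcF P (F w) y (parM P G) k)
      · have e2 : rcF P (F w) y (parM P G) (k + 1) = (conf P (F w) y k).2 := if_pos ⟨hp, hn'⟩
        have h3 := h2.new (hlt k (by omega))
        rw [htop] at h3
        obtain ⟨h4, h5⟩ := h3.step78 hF hp (Or.inl rfl)
          (g (τ + 2 * cntF P (F w) y (parM P G) k + 1)) (Nat.pair
            (conf P (F w) y (stF P (F w) y (parM P G) k)).1 (tab (parW G) (bd P + 1)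
              (conf P (F w) y (stF P (F w) y (parM P G) k)).2))
        rw [h2.step_msg D hend (hlt k (by omega)) hsame hp hn', htop, e2]
        exact ⟨h4, h5⟩
      · have e2 : rcF P (F w) y (parM P G) (k + 1) = rcF P (F w) y (parM P G) k :=
          if_neg fun h => hn' h.2
        have h3 := h2.old (hlt k (by omega)) fun i hi hi2 => by
          by_contra hcon
          exact hn' (Or.inr ⟨i, hi, hi2, fun h => hcon h.symm⟩)
        obtain ⟨h4, h5⟩ := h3.step78 hF hp (Or.inr rfl)
          (g (τ + 2 * cntF P (F w) y (parM P G) k + 1)) (Nat.pair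
            (conf P (F w) y (stF P (F w) y (parM P G) k)).1 (tab (parW G) (bd P + 1)
              (conf P (F w) y (stF P (F w) y (parM P G) k)).2))
        rw [h2.step_sil D hend (hlt k (by omega)) hsame hp hn', e2]
        exact ⟨h4, h5⟩
    · have e1 : stF P (F w) y (parM P G) (k + 1) = stF P (F w) y (parM P G) k := if_neg hp
      have e2 : rcF P (F w) y (parM P G) (k + 1) = rcF P (F w) y (parM P G) k :=
        if_neg fun h => hp h.1
      rw [cntF_succ_near hp, e1, e2]
      refine ⟨?_, h2⟩
      rw [h1]
      refine Prod.ext rfl (memF_congr w y _ fun i hi => ?_)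
      rw [conf_succ, step_far (not_not.1 hp) hi]

/-- The states at the far accesses. -/
theorem conf_far (hF : D.Is F) {g : ℕ → Bool} {T τ l : ℕ}
    (h0 : (mach D P).conf w y g τ = (wd (sto 0 6 G 0 0), memF w y (parM P G) (2 ^ l) fun _ => 0))
    (hn : parN G = w.length) (hok : okN P G (2 ^ l) ≠ 0)
    (hlt : ∀ k ≤ T, ∀ i, (conf P (F w) y k).2 i < parW G) {k : ℕ} (hk : k < T)
    (hp : FarAt P (F w) y (parM P G) k) :
    (mach D P).conf w y g (τ + 2 * cntF P (F w) y (parM P G) k + 1) =
      (wd (sto 0 (if MsgAt P (F w) y (parM P G) k then 7 else 8) G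
        (Nat.pair (conf P (F w) y (stF P (F w) y (parM P G) k)).1
          (tab (parW G) (bd P + 1) (conf P (F w) y (stF P (F w) y (parM P G) k)).2))
        (Nat.pair (conf P (F w) y k).1 (tab (parW G) (bd P + 1) (conf P (F w) y k).2))),
        memF w y (parM P G) (2 ^ l + tab (parW G) (parM P G) (rcF P (F w) y (parM P G) (k + 1)))
          (conf P (F w) y (k + 1)).2) := by
  obtain ⟨h1, h2⟩ := conf_main hF h0 hn hok hlt (k := k) (by omega)
  have htop : top (2 ^ l + tab (parW G) (parM P G) (rcF P (F w) y (parM P G) k)) = 2 ^ l := by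
    have := h2.cell
    omega
  have hW := parW_pos G
  have hend := run_end hW (okN_ne.1 h2.ok).2 (fun i hi => hlt i (by omega)) (Or.inl hp)
  have hsame : ∀ i, parM P G ≤ i → (conf P (F w) y k).2 i =
      (conf P (F w) y (stF P (F w) y (parM P G) k)).2 i := fun i hi => far_same hi
  have hmem := memF_congr w y
    (2 ^ l + tab (parW G) (parM P G) (rcF P (F w) y (parM P G) k)) hsame
  rw [hmem] at h1
  rw [nconf_succ, h1]
  by_cases hn' : Needs P (F w) y (parM P G) k (rcF P (F w) y (parM P G) k)
  · have e2 : rcF P (F w) y (parM P G) (k + 1) = (conf P (F w) y k).2 := if_pos ⟨hp, hn'⟩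
    rw [h2.step_msg D hend (hlt k (by omega)) hsame hp hn', htop, e2, if_pos ⟨hp, hn'⟩]
  · have e2 : rcF P (F w) y (parM P G) (k + 1) = rcF P (F w) y (parM P G) k :=
      if_neg fun h => hn' h.2
    rw [h2.step_sil D hend (hlt k (by omega)) hsame hp hn', e2, if_neg fun h => hn' h.2]

/-- The last state. -/
theorem conf_end (hF : D.Is F) {g : ℕ → Bool} {T τ l : ℕ}
    (h0 : (mach D P).conf w y g τ = (wd (sto 0 6 G 0 0), memF w y (parM P G) (2 ^ l) fun _ => 0))
    (hn : parN G = w.length) (hok : okN P G (2 ^ l) ≠ 0)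
    (hlt : ∀ k ≤ T, ∀ i, (conf P (F w) y k).2 i < parW G) (ha : AcceptsAt P (F w) y T) :
    (mach D P).conf w y g (τ + 2 * cntF P (F w) y (parM P G) T + 1) =
      (wd (sto 1 9 0 0 0),
        memF w y (parM P G) (2 ^ l + tab (parW G) (parM P G) (rcF P (F w) y (parM P G) T))
          (conf P (F w) y T).2) := by
  obtain ⟨h1, h2⟩ := conf_main hF h0 hn hok hlt (k := T) le_rfl
  have hW := parW_pos G
  have hend := run_end hW (okN_ne.1 h2.ok).2 (fun i hi => hlt i (by omega)) (Or.inr ha)
  have hsame : ∀ i, parM P G ≤ i → (conf P (F w) y T).2 i =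
      (conf P (F w) y (stF P (F w) y (parM P G) T)).2 i := fun i hi => far_same hi
  have hmem := memF_congr w y
    (2 ^ l + tab (parW G) (parM P G) (rcF P (F w) y (parM P G) T)) hsame
  rw [hmem] at h1 ⊢
  rw [nconf_succ, h1, h2.step_acc D hend ha]

end main

end Pool.Agent.Helper92.RF
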